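import Pool.Agent.LibFub90.BrS

/-! Task FUB-13a: almost disjointness. -/

namespace Fub90

open Set

variable {W : Type} [LinearOrder W] [WellFoundedLT W] [OmOne W] {S : Sys W}

theorem ad_nd_le {b : Br W} (hb : Valid S b) {β ξ : W} (hβξ : β ≤ ξ) (hβ : (b β).isSome = true)
    (hξ : (b ξ).isSome = true) : ((nd S b ξ).X \ (nd S b β).X).Finite := by
  rcases hβξ.lt_or_eq with h | h
  · exact (nd_lt hb h hβ hξ).1
  · subst h; simp

theorem ad_aux {b b' : Br W} (hb : Valid S b) (hb' : Valid S b') {ξ ξ' γ : W}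
    (h : (b ξ).isSome = true) (h' : (b' ξ').isSome = true) (hag : ∀ β < γ, b β = b' β)
    (hne : b γ ≠ b' γ) (hγ : γ ≤ ξ) (hγ' : γ ≤ ξ') (hs : (b γ).isSome = true) :
    ((nd S b ξ).X ∩ (nd S b' ξ').X).Finite := by
  obtain ⟨⟨W₀, y⟩, h0⟩ := Option.isSome_iff_exists.mp hs
  have key : ∀ γ', (b' γ').isSome = true → γ' ≤ ξ' →
      ((nd S b γ).X ∩ (nd S b' γ').X).Finite → ((nd S b ξ).X ∩ (nd S b' ξ').X).Finite := by
    intro γ' h1 h2 h3
    refine (((ad_nd_le hb hγ hs h).union (ad_nd_le hb' h2 h1 h')).union h3).subset ?_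
    rintro x ⟨hx, hx'⟩
    by_cases c1 : x ∈ (nd S b γ).X
    · by_cases c2 : x ∈ (nd S b' γ').X
      · exact Or.inr ⟨c1, c2⟩
      · exact Or.inl (Or.inr ⟨hx', c2⟩)
    · exact Or.inl (Or.inl ⟨hx, c1⟩)
  rcases hcase : b' γ with _ | ⟨W₁, y₁⟩
  · -- no node of `b'` at `γ`
    have hlt : γ < ξ' := by
      rcases hγ'.lt_or_eq with h1 | h1
      · exact h1
      · subst h1; rw [hcase] at h'; simp at h'
    let s : Set W := {β | γ < β ∧ (b' β).isSome = true}
    have hsne : s.Nonempty := ⟨ξ', hlt, h'⟩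
    obtain ⟨γ', hγs, hmin⟩ : ∃ γ' ∈ s, ∀ β ∈ s, ¬ β < γ' :=
      ⟨WellFounded.min wellFounded_lt s hsne, WellFounded.min_mem _ _ _,
        fun β hβ => WellFounded.not_lt_min _ _ hβ⟩
    have hγ'ξ' : γ' ≤ ξ' := not_lt.mp (hmin ξ' ⟨hlt, h'⟩)
    refine key γ' hγs.2 hγ'ξ' ?_
    obtain ⟨⟨W₁, y₁⟩, h1⟩ := Option.isSome_iff_exists.mp hγs.2
    have hv := (val_iff S b' γ' W₁).mp (hb' γ' W₁ y₁ h1)
    have hnone : ∀ β, γ ≤ β → β < γ' → b' β = none := by
      intro β h2 h3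
      rcases h2.lt_or_eq with h4 | h4
      · by_contra h5
        exact hmin β ⟨h4, Option.isSome_iff_ne_none.mpr h5⟩ h3
      · subst h4; exact hcase
    have hval : Val S b' γ W₀ := (Val_congr S hag W₀).mp (hb γ W₀ y h0)
    have h2 := hv.2.2 γ hγs.1 hnone W₀ y hval
    rw [← Jb_congr S hag, ← nd_some S h0] at h2
    refine h2.subset ?_
    rintro x ⟨hx, hx'⟩
    exact ⟨(nd_ok hb' h1).sub hx', hx⟩
  · -- two nodes at the same stage with different codes
    refine key γ (by rw [hcase]; rfl) hγ' ?_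
    have hne2 : S.code (W₀, y) ≠ S.code (W₁, y₁) := by
      intro h1
      apply hne
      rw [h0, hcase, S.inj h1]
    obtain ⟨i, hi⟩ := Function.ne_iff.mp hne2
    refine ((((nd_ok hb h0).bits i)).union ((nd_ok hb' hcase).bits i)).subset ?_
    rintro x ⟨hx, hx'⟩
    by_cases c : (ev x (S.x γ)).testBit i = S.code (W₀, y) i
    · right
      refine ⟨hx', ?_⟩
      rw [c]; exact hi
    · exact Or.inl ⟨hx, c⟩

/-- Two nodes of valid branches that do not lie on a common branch have almost disjoint sets.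
(Let `γ` be least with `b γ ≠ b' γ`; assume `γ ≤ ξ, γ ≤ ξ'`. If both `b γ`, `b' γ` are `some`,
the codes differ at some bit `i`, and `ExtOK.bits` for both nodes at `γ` makes the intersection
finite. If `b γ = some v` and `b' γ = none`, let `γ'` be the least node of `b'` above `γ`
(`γ' ≤ ξ'`), and use `Val S b' γ' _` (third clause, at `γ`) together with `Val_congr`, `Jb_congr`,
`nd_some`. Then use `nd_lt`.) -/
theorem ad {b b' : Br W} (hb : Valid S b) (hb' : Valid S b') {ξ ξ' : W}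
    (h : (b ξ).isSome = true) (h' : (b' ξ').isSome = true) :
    (∀ γ, γ ≤ ξ → γ ≤ ξ' → b γ = b' γ) ∨ ((nd S b ξ).X ∩ (nd S b' ξ').X).Finite := by
  by_cases hc : ∀ γ, γ ≤ ξ → γ ≤ ξ' → b γ = b' γ
  · exact Or.inl hc
  · right
    push Not at hc
    let s : Set W := {γ | γ ≤ ξ ∧ γ ≤ ξ' ∧ b γ ≠ b' γ}
    have hsne : s.Nonempty := by
      obtain ⟨γ, h1, h2, h3⟩ := hc
      exact ⟨γ, h1, h2, h3⟩
    obtain ⟨γ, ⟨hγ, hγ', hne⟩, hmin⟩ : ∃ γ ∈ s, ∀ β ∈ s, ¬ β < γ :=
      ⟨WellFounded.min wellFounded_lt s hsne, WellFounded.min_mem _ _ _,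
        fun β hβ => WellFounded.not_lt_min _ _ hβ⟩
    have hag : ∀ β < γ, b β = b' β := by
      intro β hβ
      by_contra h5
      exact hmin β ⟨hβ.le.trans hγ, hβ.le.trans hγ', h5⟩ hβ
    by_cases hs : (b γ).isSome = true
    · exact ad_aux hb hb' h h' hag hne hγ hγ' hs
    · have hs' : (b' γ).isSome = true := by
        by_contra h5
        apply hne
        rw [Option.not_isSome_iff_eq_none.mp hs, Option.not_isSome_iff_eq_none.mp h5]
      rw [inter_comm]
      exact ad_aux hb' hb h' h (fun β hβ => (hag β hβ).symm) (Ne.symm hne) hγ' hγ hs'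

end Fub90
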