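import Pool.Agent.LibFub90.BrS

/-! Task FUB-13b: appending and truncating. -/

namespace Fub90

open Set

variable {W : Type} [LinearOrder W] [WellFoundedLT W] [OmOne W] {S : Sys W}

/-- the branch `b` up to `< ξ` followed by one node at `ξ` -/
def app (b : Br W) (ξ : W) (W₀ : Set Om) (y : Tk) : Br W :=
  fun β => if β < ξ then b β else if β = ξ then some (W₀, y) else none

/-- one may append a node -/
theorem app_valid {b : Br W} (hb : Valid S b) {ξ : W} {W₀ : Set Om} (y : Tk)
    (h : Val S b ξ W₀) : Valid S (app b ξ W₀ y) := by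
  intro β W' y' hβ
  have key : ∀ β ≤ ξ, ∀ γ < β, b γ = app b ξ W₀ y γ := by
    intro β hβ γ hγ
    unfold app
    rw [if_pos (lt_of_lt_of_le hγ hβ)]
  unfold app at hβ
  by_cases h1 : β < ξ
  · rw [if_pos h1] at hβ
    exact (Val_congr S (key β h1.le) W').mp (hb β W' y' hβ)
  · rw [if_neg h1] at hβ
    by_cases h2 : β = ξ
    · rw [if_pos h2] at hβ
      have h3 : W₀ = W' := by
        have h4 := Option.some.inj hβ
        exact congrArg Prod.fst h4
      rw [h2, ← h3]
      exact (Val_congr S (key ξ le_rfl) W₀).mp h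
    · rw [if_neg h2] at hβ
      exact absurd hβ (by simp)

/-- truncation: `b` up to `≤ ξ` -/
def trunc (b : Br W) (ξ : W) : Br W := fun β => if β ≤ ξ then b β else none

theorem trunc_valid {b : Br W} (hb : Valid S b) (ξ : W) : Valid S (trunc b ξ) := by
  intro β W' y' hβ
  unfold trunc at hβ
  by_cases h1 : β ≤ ξ
  · rw [if_pos h1] at hβ
    refine (Val_congr S (fun γ hγ => ?_) W').mp (hb β W' y' hβ)
    unfold trunc
    rw [if_pos (hγ.le.trans h1)]
  · rw [if_neg h1] at hβ
    exact absurd hβ (by simp)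

theorem nd_trunc (b : Br W) {β ξ : W} (h : β ≤ ξ) : nd S (trunc b ξ) β = nd S b β := by
  apply nd_congr
  intro γ hγ
  unfold trunc
  rw [if_pos (hγ.trans h)]

/-- children: every node has, for every task, a child obtained from its own set, at the stage
`(nd S b ξ).η` -/
theorem child_val {b : Br W} (hb : Valid S b) {ξ : W} (h : (b ξ).isSome = true) :
    Val S (trunc b ξ) (nd S b ξ).η (nd S b ξ).X := by
  have hlt := (nd_fs hb h).2.1
  have hsome : ∀ β, (trunc b ξ β).isSome = true → β ≤ ξ ∧ (b β).isSome = true := by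
    intro β hβ
    unfold trunc at hβ
    by_cases h1 : β ≤ ξ
    · rw [if_pos h1] at hβ
      exact ⟨h1, hβ⟩
    · rw [if_neg h1] at hβ
      exact absurd hβ (by simp)
  rw [val_iff]
  refine ⟨fun β _ hβs => ?_, ?_, fun γ hγ hnone W' y' hV => ?_⟩
  · obtain ⟨h1, h2⟩ := hsome β hβs
    rw [nd_trunc b h1]
    rcases lt_or_eq_of_le h1 with h3 | h3
    · obtain ⟨h4, -, h5, -⟩ := nd_lt hb h3 h2 h
      exact ⟨h5.trans hlt.le, h4⟩
    · subst h3
      refine ⟨le_rfl, ?_⟩
      rw [Set.sdiff_self]
      exact finite_empty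
  · have hsub : Jb S (trunc b ξ) (nd S b ξ).η ⊆ (nd S b ξ).J := by
      rintro A (hA | ⟨β, _, hβs, hA⟩)
      · exact (nd_fs hb h).1.fin A hA
      · obtain ⟨h1, h2⟩ := hsome β hβs
        rw [nd_trunc b h1] at hA
        rcases lt_or_eq_of_le h1 with h3 | h3
        · exact (nd_lt hb h3 h2 h).2.1 hA
        · subst h3
          exact hA
    intro F hF v hmem
    exact (nd_fs hb h).2.2.1 F hF v (hsub hmem)
  · exfalso
    have hξ : trunc b ξ ξ = b ξ := by unfold trunc; rw [if_pos le_rfl]
    have h1 : ξ < γ := by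
      by_contra h2
      have h3 := hnone ξ (not_lt.mp h2) hlt
      rw [hξ] at h3
      rw [h3] at h
      exact absurd h (by simp)
    have h2 := ((val_iff S (trunc b ξ) γ W').mp hV).1 ξ h1 (by rw [hξ]; exact h)
    rw [nd_trunc b le_rfl] at h2
    exact absurd hγ (not_lt.mpr h2.1)

end Fub90
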