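import Pool.Agent.LibFub90.Dec1

/-! Task FUB-6: the dichotomy lemma. -/

namespace Fub90

open Set

variable {W : Type} [LinearOrder W] [WellFoundedLT W] [OmOne W] {L : W → Set CC}

section ATLaux

variable {α : Type}

theorem ATL_her_nf {C : Set (Finset α)} (hC : Her C) (k : ℕ) : Her (nf C k) := by
  induction k with
  | zero =>
    intro F G hFG hG
    have hG' : G = ∅ := hG
    subst hG'
    exact Finset.subset_empty.mp hFG
  | succ k ih => exact jn_her ih hC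

theorem ATL_empty_nf {C : Set (Finset α)} (h0 : ∅ ∈ C) (k : ℕ) : ∅ ∈ nf C k := by
  induction k with
  | zero => exact rfl
  | succ k ih => exact ⟨∅, ih, ∅, h0, by simp⟩

theorem ATL_nf_succ {C : Set (Finset α)} (h0 : ∅ ∈ C) (k : ℕ) : nf C k ⊆ nf C (k + 1) :=
  fun F hF => ⟨F, hF, ∅, h0, by simp⟩

theorem ATL_nf_mono {C : Set (Finset α)} (h0 : ∅ ∈ C) {k l : ℕ} (h : k ≤ l) :
    nf C k ⊆ nf C l := by
  induction h with
  | refl => exact fun _ h => h
  | step _ ih => exact fun F hF => ATL_nf_succ h0 _ (ih hF)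

theorem ATL_mono {D : ℕ → Set (Finset α)} (hD : ∀ k, D k ⊆ D (k + 1)) {k l : ℕ} (h : k ≤ l) :
    D k ⊆ D l := by
  induction h with
  | refl => exact fun _ h => h
  | step _ ih => exact fun F hF => hD _ (ih hF)

theorem ATL_nf_add {C : Set (Finset α)} (hC : Her C) (a b : ℕ) :
    ∀ F F₁ F₂ : Finset α, F₁ ∈ nf C a → F₂ ∈ nf C b → (F : Set α) ⊆ (F₁ : Set α) ∪ (F₂ : Set α) →
      F ∈ nf C (a + b) := by
  classical
  induction b with
  | zero =>
    intro F F₁ F₂ h1 h2 h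
    have h2' : F₂ = ∅ := h2
    subst h2'
    refine ATL_her_nf hC a F F₁ ?_ h1
    intro x hx
    have := h (Finset.mem_coe.mpr hx)
    simpa using this
  | succ b ih =>
    intro F F₁ F₂ h1 h2 h
    obtain ⟨P, hP, Q, hQ, h3⟩ := h2
    refine ⟨F.filter (fun x => x ∉ Q), ?_, Q, hQ, ?_⟩
    · refine ih _ F₁ P h1 hP ?_
      intro x hx
      rw [Finset.mem_coe, Finset.mem_filter] at hx
      rcases h (Finset.mem_coe.mpr hx.1) with h4 | h4
      · exact Or.inl h4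
      · rcases h3 h4 with h5 | h5
        · exact Or.inr h5
        · exact absurd (Finset.mem_coe.mp h5) hx.2
    · intro x hx
      by_cases hxQ : x ∈ Q
      · exact Or.inr (Finset.mem_coe.mpr hxQ)
      · left
        rw [Finset.mem_coe, Finset.mem_filter]
        exact ⟨Finset.mem_coe.mp hx, hxQ⟩

theorem ATL_cls_nf_add {C : Set (Finset α)} (hC : Her C) {a b : ℕ} {A B : Set α}
    (hA : A ∈ cls (nf C a)) (hB : B ∈ cls (nf C b)) : A ∪ B ∈ cls (nf C (a + b)) := by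
  classical
  intro F hF
  refine ATL_nf_add hC a b F (F.filter (fun x => x ∈ A)) (F.filter (fun x => x ∈ B)) ?_ ?_ ?_
  · refine hA _ ?_
    intro x hx
    rw [Finset.mem_coe, Finset.mem_filter] at hx
    exact hx.2
  · refine hB _ ?_
    intro x hx
    rw [Finset.mem_coe, Finset.mem_filter] at hx
    exact hx.2
  · intro x hx
    rcases hF hx with h | h
    · left
      rw [Finset.mem_coe, Finset.mem_filter]
      exact ⟨Finset.mem_coe.mp hx, h⟩
    · right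
      rw [Finset.mem_coe, Finset.mem_filter]
      exact ⟨Finset.mem_coe.mp hx, h⟩

theorem ATL_cls_mono {C D : Set (Finset α)} (h : C ⊆ D) : cls C ⊆ cls D :=
  fun _ hY F hF => h (hY F hF)

theorem ATL_cls_sub {C : Set (Finset α)} {A B : Set α} (h : A ⊆ B) (hB : B ∈ cls C) :
    A ∈ cls C := fun F hF => hB F (hF.trans h)

/-- members of `nf S k` inside `G` are in `nf C k` if the members of `S` inside `G` are in `C` -/
theorem ATL_nf_local {S C : Set (Finset α)} (hS : Her S) {G : Finset α}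
    (h : ∀ F ∈ S, F ⊆ G → F ∈ C) (k : ℕ) : ∀ Q ∈ nf S k, Q ⊆ G → Q ∈ nf C k := by
  classical
  induction k with
  | zero => exact fun Q hQ _ => hQ
  | succ k ih =>
    rintro Q ⟨Q₁, h1, Q₂, h2, h3⟩ hQG
    refine ⟨Q ∩ Q₁, ?_, Q ∩ Q₂, ?_, ?_⟩
    · exact ih _ (ATL_her_nf hS k _ _ Finset.inter_subset_right h1)
        (Finset.inter_subset_left.trans hQG)
    · exact h _ (hS _ _ Finset.inter_subset_right h2) (Finset.inter_subset_left.trans hQG)
    · intro x hx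
      rw [Finset.mem_coe] at hx
      rcases h3 (Finset.mem_coe.mpr hx) with h4 | h4
      · left
        rw [Finset.mem_coe, Finset.mem_inter]
        exact ⟨hx, h4⟩
      · right
        rw [Finset.mem_coe, Finset.mem_inter]
        exact ⟨hx, h4⟩

end ATLaux

theorem at_lemma (hL : LS L) {X : Set Om} {J : Set (Set Om)} {η : W} (hJ : IsFS J)
    (hP : Pos X J (L η)) (C : ℕ → Set (Finset Om)) (hC : ∀ m, Her (C m))
    (hCm : ∀ m, C m ⊆ C (m + 1)) :
    ∃ η', η ≤ η' ∧ ∃ X' ⊆ X, ∃ J', J ⊆ J' ∧ IsFS J' ∧ Pos X' J' (L η') ∧ AT X' J' C := by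
  classical
  by_cases h1 : ∃ m, ∃ Y ∈ cls (C m), ∃ η', η ≤ η' ∧ Pos (Y ∩ X) J (L η')
  · -- case 1
    obtain ⟨m, Y, hY, η', hη, hpos⟩ := h1
    exact ⟨η', hη, Y ∩ X, inter_subset_right, J, fun _ h => h, hJ, hpos,
      Or.inl ⟨m, ATL_cls_sub inter_subset_left hY⟩⟩
  by_cases h2 : ∃ m, ∅ ∉ C m
  · -- case 2a
    obtain ⟨m, hm⟩ := h2
    refine ⟨η, le_rfl, X, fun _ h => h, J, fun _ h => h, hJ, hP, Or.inr ⟨fun _ => ∅, fun Y hY => ?_⟩⟩
    exact absurd (hY m ∅ (by simp) (Finset.Subset.refl _)) hm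
  have h0 : ∀ m, ∅ ∈ C m := by
    intro m
    by_contra hcon
    exact h2 ⟨m, hcon⟩
  -- bad sets
  set Bad : Set Om → Prop := fun Y => ∀ η', η ≤ η' → ¬ Pos (Y ∩ X) J (L η') with hBad
  have hbadC : ∀ m, ∀ Y ∈ cls (C m), Bad Y := fun m Y hY η' hη hpos =>
    h1 ⟨m, Y, hY, η', hη, hpos⟩
  have hbadJ : ∀ Y ∈ J, Bad Y := by
    intro Y hY η' _ hpos
    refine hpos ∅ (by simp) (fun _ => 0) ?_
    exact hJ.sub (fun p hp => hp.1.1) hY
  have hbadsub : ∀ Y Y' : Set Om, Y' ⊆ Y → Bad Y → Bad Y' := by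
    intro Y Y' hYY hb η' hη hpos
    exact hb η' hη (hpos.mono (inter_subset_inter_left X hYY) (fun _ h => h) (fun _ h => h) hJ)
  have hbadun : ∀ Y Y' : Set Om, Bad Y → Bad Y' → Bad (Y ∪ Y') := by
    intro Y Y' hb hb' η' hη hpos
    obtain ⟨η'', hη', X', hX', hpos', hdec⟩ := decide_one hL hJ hpos Y
    rcases hdec with hd | hd
    · refine hb η'' (hη.trans hη') (hpos'.mono ?_ (fun _ h => h) (fun _ h => h) hJ)
      exact fun p hp => ⟨hd hp, (hX' hp).2⟩
    · refine hb' η'' (hη.trans hη') (hpos'.mono ?_ (fun _ h => h) (fun _ h => h) hJ)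
      intro p hp
      refine ⟨?_, (hX' hp).2⟩
      rcases (hX' hp).1 with h | h
      · exact absurd h (Set.disjoint_left.mp hd hp)
      · exact h
  have hbox : ∀ F : Finset CC, (F : Set CC) ⊆ L η → ∀ h : CC → ℕ, ¬ Bad (X ∩ box F h) := by
    intro F hF h hb
    obtain ⟨η', hη, hav⟩ := hL.avoid F η
    refine hb η' hη ?_
    intro F' hF' h' hmem
    refine hP (F ∪ F') ?_ (fun x => if x ∈ F' then h' x else h x) ?_
    · intro x hx
      rw [Finset.mem_coe, Finset.mem_union] at hx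
      rcases hx with hx | hx
      · exact hF hx
      · exact hL.anti η η' hη (hF' hx)
    · refine hJ.sub ?_ hmem
      rintro p ⟨hpX, hpb⟩
      refine ⟨⟨⟨hpX, ?_⟩, hpX⟩, ?_⟩
      · intro x hx
        have h3 := hpb x (Finset.mem_union_left _ hx)
        have h4 : x ∉ F' := fun hx' => hav x hx (hF' hx')
        have h5 : (if x ∈ F' then h' x else h x) = h x := if_neg h4
        exact h3.trans h5
      · intro x hx
        have h3 := hpb x (Finset.mem_union_right _ hx)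
        have h5 : (if x ∈ F' then h' x else h x) = h' x := if_pos hx
        exact h3.trans h5
  -- the representation of `J`
  obtain ⟨D, hD, hDm, hJD⟩ := hJ.rep
  have hEher : ∀ m, Her (jn (nf (C m) m) (D m)) := fun m =>
    jn_her (ATL_her_nf (hC m) m) (hD m)
  have hbadnf : ∀ m k, ∀ Y ∈ cls (nf (C m) k), Bad Y := by
    intro m k
    induction k with
    | zero =>
      intro Y hY
      have hY0 : Y = ∅ := by
        rw [Set.eq_empty_iff_forall_notMem]
        intro y hy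
        have : ({y} : Finset Om) ∈ nf (C m) 0 := hY {y} (by simpa using hy)
        have h3 : ({y} : Finset Om) = ∅ := this
        exact Finset.singleton_ne_empty y h3
      subst hY0
      exact hbadJ ∅ (hJ.fin ∅ Set.finite_empty)
    | succ k ih =>
      intro Y hY
      obtain ⟨A, hA, B, hB, rfl⟩ := cls_jn (ATL_her_nf (hC m) k) (hC m) hY
      exact hbadun A B (ih A hA) (hbadC m B hB)
  have hbadE : ∀ m, ∀ Y ∈ cls (jn (nf (C m) m) (D m)), Bad Y := by
    intro m Y hY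
    obtain ⟨A, hA, B, hB, rfl⟩ := cls_jn (ATL_her_nf (hC m) m) (hD m) hY
    exact hbadun A B (hbadnf m m A hA) (hbadJ B ((hJD B).mpr ⟨m, hB⟩))
  -- compactness
  obtain ⟨K, hKc, hKm, hKL⟩ := hL.sig η
  have hKsub : ∀ m, K m ⊆ L η := fun m => by
    rw [hKL]
    exact Set.subset_iUnion K m
  have hG : ∀ m, ∃ G : Finset Om, (G : Set Om) ⊆ X ∧ ∀ x : Fin m → CC, (∀ i, x i ∈ K m) →
      ∀ H : (Fin m → Bool) → ℕ, (∀ s, H s ≤ m) →
        (G : Set Om) ∩ bx m x H ∉ cls (jn (nf (C m) m) (D m)) := by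
    intro m
    refine unif (K m) (hKc m) m X _ (hEher m) ?_
    intro x hx H _ hmem
    obtain ⟨F, hF, h, hFh⟩ := bx_box (L η) m x (fun i => hKsub m (hx i)) H
    refine hbox F hF h (hbadE m _ (ATL_cls_sub ?_ hmem))
    exact inter_subset_inter_right X hFh
  choose G hGX hGb using hG
  -- the new ideal
  set Sf : Set (Finset Om) :=
    {F | ∀ m, ∀ F' : Finset Om, F' ⊆ F → F' ⊆ G m → F' ∈ C m} with hSf
  have hSher : Her Sf := fun F F₂ hF hF₂ m F' hF' hG' => hF₂ m F' (hF'.trans hF) hG'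
  have hS0 : ∅ ∈ Sf := by
    intro m F' hF' _
    have : F' = ∅ := Finset.subset_empty.mp hF'
    rw [this]
    exact h0 m
  obtain ⟨k₁, hk₁⟩ := (hJD ∅).mp (hJ.fin ∅ Set.finite_empty)
  have hD0 : ∀ k, k₁ ≤ k → ∅ ∈ D k := fun k hk =>
    ATL_mono hDm hk (hk₁ ∅ (by simp))
  set D' : ℕ → Set (Finset Om) := fun k => jn (nf Sf k) (D k) with hD'
  have hD'her : ∀ k, Her (D' k) := fun k => jn_her (ATL_her_nf hSher k) (hD k)
  have hD'm : ∀ k, D' k ⊆ D' (k + 1) := by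
    rintro k F ⟨A, hA, B, hB, hF⟩
    exact ⟨A, ATL_nf_succ hS0 k hA, B, hDm k hB, hF⟩
  have hDD' : ∀ k, D k ⊆ D' k := fun k F hF => ⟨∅, ATL_empty_nf hS0 k, F, hF, by simp⟩
  set J' : Set (Set Om) := {Y | ∃ k, Y ∈ cls (D' k)} with hJ'
  have hJJ' : J ⊆ J' := by
    intro Y hY
    obtain ⟨k, hk⟩ := (hJD Y).mp hY
    exact ⟨k, ATL_cls_mono (hDD' k) hk⟩
  have hJ'fs : IsFS J' := by
    refine ⟨fun A hA => hJJ' (hJ.fin A hA), ?_, D', hD'her, hD'm, fun Y => Iff.rfl⟩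
    rintro Y₁ Y₂ ⟨a, ha⟩ ⟨b, hb⟩
    obtain ⟨A₁, hA₁, B₁, hB₁, rfl⟩ := cls_jn (ATL_her_nf hSher a) (hD a) ha
    obtain ⟨A₂, hA₂, B₂, hB₂, rfl⟩ := cls_jn (ATL_her_nf hSher b) (hD b) hb
    obtain ⟨c, hc⟩ := (hJD (B₁ ∪ B₂)).mp
      (hJ.union B₁ B₂ ((hJD B₁).mpr ⟨a, hB₁⟩) ((hJD B₂).mpr ⟨b, hB₂⟩))
    have hA := ATL_cls_nf_add hSher hA₁ hA₂
    refine ⟨max (a + b) c, ?_⟩
    have h3 : (A₁ ∪ A₂) ∪ (B₁ ∪ B₂) ∈ cls (D' (max (a + b) c)) :=
      cls_jn_mem (ATL_her_nf hSher _) (hD _)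
        (ATL_cls_mono (ATL_nf_mono hS0 (le_max_left _ _)) hA)
        (ATL_cls_mono (ATL_mono hDm (le_max_right _ _)) hc)
    have h4 : A₁ ∪ B₁ ∪ (A₂ ∪ B₂) = (A₁ ∪ A₂) ∪ (B₁ ∪ B₂) := by
      ext p
      simp only [mem_union]
      tauto
    rw [h4]
    exact h3
  refine ⟨η, le_rfl, X, fun _ h => h, J', hJJ', hJ'fs, ?_, Or.inr ⟨G, ?_⟩⟩
  · -- positivity
    rintro F hF h ⟨k, hk⟩
    obtain ⟨k₀, hk₀⟩ := typek K hKm (by rw [← hKL]; exact hL.ne η) F (by rw [← hKL]; exact hF) h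
    set m : ℕ := max k k₀ with hm
    obtain ⟨x, hx, H, hH, hbx⟩ := hk₀ m (le_max_right _ _)
    refine hGb m x hx H hH ?_
    intro P hPsub
    have hP1 : (P : Set Om) ⊆ X ∩ box F h := fun p hp =>
      ⟨hGX m (hPsub hp).1, hbx (hPsub hp).2⟩
    obtain ⟨A, hA, B, hB, hAB⟩ := hk P hP1
    refine ⟨P ∩ A, ?_, B, ATL_mono hDm (le_max_left _ _) hB, ?_⟩
    · have h5 : P ∩ A ∈ nf (C m) k := by
        refine ATL_nf_local hSher (G := G m) ?_ k (P ∩ A)
          (ATL_her_nf hSher k _ _ Finset.inter_subset_right hA) ?_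
        · exact fun Q hQ hQG => hQ m Q (Finset.Subset.refl _) hQG
        · intro p hp
          have := (hPsub (Finset.mem_coe.mpr (Finset.mem_inter.mp hp).1)).1
          exact Finset.mem_coe.mp this
      exact ATL_nf_mono (h0 m) (le_max_left _ _) h5
    · intro p hp
      rw [Finset.mem_coe] at hp
      rcases hAB (Finset.mem_coe.mpr hp) with h6 | h6
      · left
        rw [Finset.mem_coe, Finset.mem_inter]
        exact ⟨hp, h6⟩
      · exact Or.inr h6
  · -- the second alternative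
    intro Y hY
    refine ⟨max 1 k₁, fun F hF => ⟨F, ?_, ∅, hD0 _ (le_max_right _ _), by simp⟩⟩
    have h7 : F ∈ Sf := fun m F' hF' hG' => hY m F' (fun p hp => hF (hF' hp)) hG'
    have h8 : F ∈ nf Sf 1 := ⟨∅, rfl, F, h7, by simp⟩
    exact ATL_nf_mono hS0 (le_max_left _ _) h8

end Fub90
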