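import Pool.Agent.LibFub90.FS

/-! Task FUB-8a: the root and the codes. -/

namespace Fub90

open Set

/-- finitely many points are distinguished by their first `n` bits, for large `n` -/
theorem base1_sep (F : Finset CC) : ∃ n₀ : ℕ, ∀ n ≥ n₀, ∀ x ∈ F, ∀ y ∈ F,
    (∀ i : Fin n, x i = y i) → x = y := by
  classical
  have h1 : ∀ q : CC × CC, ∃ i : ℕ, q.1 ≠ q.2 → q.1 i ≠ q.2 i := by
    intro q
    by_cases hq : q.1 = q.2
    · exact ⟨0, fun h => absurd hq h⟩
    · obtain ⟨i, hi⟩ := Function.ne_iff.1 hq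
      exact ⟨i, fun _ => hi⟩
  choose i hi using h1
  refine ⟨(F ×ˢ F).sup i + 1, fun n hn x hx y hy hxy => ?_⟩
  by_contra hne
  have h2 : i (x, y) ≤ (F ×ˢ F).sup i := Finset.le_sup (Finset.mem_product.2 ⟨hx, hy⟩)
  exact hi (x, y) hne (hxy ⟨i (x, y), by omega⟩)

theorem pos_univ (L : Set CC) : Pos univ (FinI Om) L := by
  classical
  intro F _ h hfin
  obtain ⟨n₀, hn₀⟩ := base1_sep F
  have h1 : Set.Ici n₀ ⊆ Sigma.fst '' (univ ∩ box F h) := by
    intro n hn
    refine ⟨⟨n, fun s => if hs : ∃ x ∈ F, ∀ i : Fin n, x i = s i then h hs.choose else 0⟩,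
      ⟨mem_univ _, fun x hx => ?_⟩, rfl⟩
    have hs : ∃ y ∈ F, ∀ i : Fin n, y i = (fun j : Fin n => x j) i := ⟨x, hx, fun i => rfl⟩
    have h2 : hs.choose = x :=
      hn₀ n hn _ hs.choose_spec.1 x hx hs.choose_spec.2
    unfold ev
    simp only
    rw [dif_pos hs, h2]
  exact (Set.Ici_infinite n₀) ((hfin.image _).subset h1)

theorem exists_code : ∃ c : Set Om × Tk → (ℕ → Bool), Function.Injective c := by
  classical
  obtain ⟨e1, he1⟩ := exists_injective_nat Om
  obtain ⟨e2, he2⟩ := exists_injective_nat (Finset Om)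
  let E : Om ⊕ Om ⊕ ℕ × Finset Om → ℕ := fun q =>
    Encodable.encode (q.map e1 (Sum.map e1 (Prod.map id e2)))
  have hE : Function.Injective E := by
    intro a b h
    have h1 := Encodable.encode_injective h
    exact Function.Injective.sumMap he1
      (Function.Injective.sumMap he1 (Function.Injective.prodMap Function.injective_id he2)) h1
  let S : Set Om × Tk → Set (Om ⊕ Om ⊕ ℕ × Finset Om) := fun q =>
    {r | Sum.elim (fun a => a ∈ q.1) (Sum.elim (fun a => a ∈ q.2.1)
      (fun b => b.2 ∈ q.2.2 b.1)) r}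
  have hS : Function.Injective S := by
    rintro ⟨A, B, C⟩ ⟨A', B', C'⟩ h
    have h1 : A = A' := by
      ext a
      have := Set.ext_iff.1 h (Sum.inl a)
      simpa [S] using this
    have h2 : B = B' := by
      ext a
      have := Set.ext_iff.1 h (Sum.inr (Sum.inl a))
      simpa [S] using this
    have h3 : C = C' := by
      funext m
      ext F
      have := Set.ext_iff.1 h (Sum.inr (Sum.inr (m, F)))
      simpa [S] using this
    rw [h1, h2, h3]
  refine ⟨fun q n => decide (n ∈ E '' S q), ?_⟩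
  intro q q' h
  apply hS
  apply hE.image_injective
  ext n
  have h1 := congrFun h n
  exact decide_eq_decide.1 h1

end Fub90
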