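import Pool.Agent.LibFub90.Defs

/-! Task FUB-8b: the well order of type `ω₁`. -/

namespace Fub90

open Set

/-- e.g. the initial segment of the ordinals below `ω₁` -/
theorem exists_omOne : ∃ (W : Type) (_ : LinearOrder W) (_ : WellFoundedLT W), OmOne W := by
  let W : Type := (Cardinal.aleph 1 : Cardinal.{0}).ord.ToType
  have hW : Cardinal.mk W = Cardinal.aleph 1 := by
    simp [W]
  have hcnt : ∀ ξ : W, (Iio ξ).Countable := by
    intro ξ
    have h1 : Cardinal.mk (Iio ξ) < Cardinal.aleph 1 := Cardinal.mk_Iio_toType_ord_lt ξ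
    have h2 : ∀ c : Cardinal.{0}, c < Cardinal.aleph 1 → c ≤ Cardinal.aleph0 := by
      intro c hc
      rw [← Cardinal.succ_aleph0, Order.lt_succ_iff] at hc
      exact hc
    rw [← Set.countable_coe_iff, ← Cardinal.mk_le_aleph0_iff]
    exact h2 _ h1
  have hunc : ¬ (univ : Set W).Countable := by
    intro h
    have h1 := (Set.countable_univ_iff.1 h)
    rw [← Cardinal.mk_le_aleph0_iff, hW] at h1
    exact absurd h1 (not_le.2 Cardinal.aleph0_lt_aleph_one)
  refine ⟨W, inferInstance, inferInstance, ?_, hcnt, ?_⟩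
  · by_contra hne
    rw [not_nonempty_iff] at hne
    exact hunc (Set.countable_univ_iff.2 inferInstance)
  · intro f
    by_contra hcon
    push Not at hcon
    apply hunc
    have h1 : (univ : Set W) ⊆ ⋃ n, Iic (f n) := by
      intro a _
      obtain ⟨n, hn⟩ := hcon a
      exact Set.mem_iUnion.2 ⟨n, hn⟩
    refine (Set.countable_iUnion fun n => ?_).mono h1
    rw [← Set.Iio_insert]
    exact (hcnt (f n)).insert _

theorem OmOne.uncountable (W : Type) [LinearOrder W] [WellFoundedLT W] [OmOne W] :
    ¬ (univ : Set W).Countable := by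
  intro h
  have hne : Nonempty W := OmOne.ne
  obtain ⟨f, hf⟩ := h.exists_eq_range (Set.univ_nonempty)
  obtain ⟨a, ha⟩ := OmOne.bdd f
  have h1 : a ∈ range f := by rw [← hf]; trivial
  obtain ⟨n, hn⟩ := h1
  exact absurd (ha n) (by rw [hn]; exact lt_irrefl a)

end Fub90
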