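import Pool.Agent.LibFub90.Cong

/-! Task FUB-12: structure of valid branches. -/

namespace Fub90

open Set

variable {W : Type} [LinearOrder W] [WellFoundedLT W] [OmOne W] {S : Sys W}

private theorem brs_seq (b : Br W) (ξ : W)
    (hfs : ∀ β < ξ, (b β).isSome = true → IsFS (nd S b β).J)
    (hmono : ∀ β < ξ, ∀ γ < ξ, (b β).isSome = true → (b γ).isSome = true → β ≤ γ →
      (nd S b β).J ⊆ (nd S b γ).J) :
    IsFS (Jb S b ξ) ∧ ∃ J : ℕ → Set (Set Om), (∀ k, J k ⊆ J (k + 1)) ∧ Jb S b ξ = (⋃ k, J k) ∧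
      ∀ k, IsFS (J k) ∧
        (J k = FinI Om ∨ ∃ β < ξ, (b β).isSome = true ∧ J k = (nd S b β).J) := by
  have key : ∃ J : ℕ → Set (Set Om), (∀ k, J k ⊆ J (k + 1)) ∧ Jb S b ξ = (⋃ k, J k) ∧
      ∀ k, IsFS (J k) ∧
        (J k = FinI Om ∨ ∃ β < ξ, (b β).isSome = true ∧ J k = (nd S b β).J) := by
    set P : Set W := {β | β < ξ ∧ (b β).isSome = true} with hP
    have hPc : P.Countable := (OmOne.cnt ξ).mono (fun β hβ => hβ.1)
    by_cases hne : P.Nonempty
    · obtain ⟨f, hf⟩ := hPc.exists_eq_range hne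
      let g : ℕ → W := fun k => Nat.rec (f 0) (fun n r => max r (f (n + 1))) k
      have g0 : g 0 = f 0 := rfl
      have gs : ∀ k, g (k + 1) = max (g k) (f (k + 1)) := fun k => rfl
      have hfP : ∀ k, f k ∈ P := fun k => by rw [hf]; exact ⟨k, rfl⟩
      have hgP : ∀ k, g k ∈ P := by
        intro k
        induction k with
        | zero => rw [g0]; exact hfP 0
        | succ k ih =>
          rw [gs]
          rcases max_choice (g k) (f (k + 1)) with h | h
          · rw [h]; exact ih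
          · rw [h]; exact hfP _
      have hfg : ∀ k, f k ≤ g k := by
        intro k
        cases k with
        | zero => exact le_of_eq g0.symm
        | succ k => rw [gs]; exact le_max_right _ _
      refine ⟨fun k => (nd S b (g k)).J, ?_, ?_, ?_⟩
      · intro k
        exact hmono _ (hgP k).1 _ (hgP (k + 1)).1 (hgP k).2 (hgP (k + 1)).2
          (by rw [gs]; exact le_max_left _ _)
      · ext A
        simp only [Jb, mem_ofPred_eq, mem_iUnion]
        constructor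
        · rintro (hA | ⟨β, hβ, h1, h2⟩)
          · exact ⟨0, (hfs _ (hgP 0).1 (hgP 0).2).fin A hA⟩
          · have : β ∈ P := ⟨hβ, h1⟩
            rw [hf] at this
            obtain ⟨k, rfl⟩ := this
            exact ⟨k, hmono _ hβ _ (hgP k).1 h1 (hgP k).2 (hfg k) h2⟩
        · rintro ⟨k, hk⟩
          exact Or.inr ⟨g k, (hgP k).1, (hgP k).2, hk⟩
      · intro k
        exact ⟨hfs _ (hgP k).1 (hgP k).2, Or.inr ⟨g k, (hgP k).1, (hgP k).2, rfl⟩⟩
    · refine ⟨fun _ => FinI Om, fun _ => subset_rfl, ?_, fun _ => ⟨isFS_fin, Or.inl rfl⟩⟩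
      rw [iUnion_const]
      ext A
      simp only [Jb, FinI, mem_ofPred_eq]
      constructor
      · rintro (hA | ⟨β, hβ, h1, h2⟩)
        · exact hA
        · exact absurd ⟨β, hβ, h1⟩ hne
      · intro hA
        exact Or.inl hA
  obtain ⟨J, h1, h2, h3⟩ := key
  refine ⟨?_, J, h1, h2, h3⟩
  rw [h2]
  exact (isFS_iUnion J (fun k => (h3 k).1) h1).1

private theorem brs_main {b : Br W} (hb : Valid S b) (ξ : W) :
    IsFS (Jb S b ξ) := by
  induction ξ using WellFoundedLT.induction with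
  | ind ξ ih =>
    have hok : ∀ β < ξ, (b β).isSome = true → IsFS (nd S b β).J ∧ Jb S b β ⊆ (nd S b β).J := by
      intro β hβ hs
      obtain ⟨⟨W₀, y⟩, hp⟩ := Option.isSome_iff_exists.1 hs
      have hv := (val_iff S b β W₀).1 (hb β W₀ y hp)
      have := S.ok (Jb S b β) W₀ β y (ih β hβ) hv.2.1
      rw [nd_some S hp]
      exact ⟨this.fs, this.le⟩
    refine (brs_seq b ξ (fun β hβ hs => (hok β hβ hs).1) ?_).1
    intro β hβ γ hγ h1 h2 hle
    rcases hle.eq_or_lt with rfl | hlt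
    · exact subset_rfl
    · refine Subset.trans ?_ (hok γ hγ h2).2
      intro A hA
      exact Or.inr ⟨β, hlt, h1, hA⟩

private theorem brs_ok {b : Br W} (hb : Valid S b) {ξ : W} {W₀ : Set Om} {y : Tk}
    (h : b ξ = some (W₀, y)) :
    ExtOK S.L S.x (S.code (W₀, y)) (Jb S b ξ) W₀ ξ y (nd S b ξ) := by
  have hv := (val_iff S b ξ W₀).1 (hb ξ W₀ y h)
  rw [nd_some S h]
  exact S.ok (Jb S b ξ) W₀ ξ y (brs_main hb ξ) hv.2.1

/-- by induction on `ξ`: for a valid branch, all ideals `Jb S b ξ` are `F_σ` ideals, and are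
unions of increasing sequences of ideals each of which is `FinI` or the ideal of a node before `ξ`.
(`ξ` has countably many predecessors; nodes are increasing; use `isFS_fin`, `isFS_iUnion` and
`ExtOK.le`, `ExtOK.fs`.) -/
theorem Jb_seq {b : Br W} (hb : Valid S b) (ξ : W) :
    IsFS (Jb S b ξ) ∧ ∃ J : ℕ → Set (Set Om), (∀ k, J k ⊆ J (k + 1)) ∧ Jb S b ξ = (⋃ k, J k) ∧
      ∀ k, IsFS (J k) ∧
        (J k = FinI Om ∨ ∃ β < ξ, (b β).isSome = true ∧ J k = (nd S b β).J) := by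
  have hok : ∀ β, (b β).isSome = true → IsFS (nd S b β).J ∧ Jb S b β ⊆ (nd S b β).J := by
    intro β hs
    obtain ⟨⟨W₀, y⟩, hp⟩ := Option.isSome_iff_exists.1 hs
    exact ⟨(brs_ok hb hp).fs, (brs_ok hb hp).le⟩
  refine brs_seq b ξ (fun β _ hs => (hok β hs).1) ?_
  intro β _ γ _ h1 h2 hle
  rcases hle.eq_or_lt with rfl | hlt
  · exact subset_rfl
  · refine Subset.trans ?_ (hok γ h2).2
    intro A hA
    exact Or.inr ⟨β, hlt, h1, hA⟩

theorem nd_ok {b : Br W} (hb : Valid S b) {ξ : W} {W₀ : Set Om} {y : Tk}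
    (h : b ξ = some (W₀, y)) :
    ExtOK S.L S.x (S.code (W₀, y)) (Jb S b ξ) W₀ ξ y (nd S b ξ) := brs_ok hb h

/-- the facts about one node that do not mention `W₀, y` -/
theorem nd_fs {b : Br W} (hb : Valid S b) {ξ : W} (h : (b ξ).isSome = true) :
    IsFS (nd S b ξ).J ∧ ξ < (nd S b ξ).η ∧ Pos (nd S b ξ).X (nd S b ξ).J (S.L (nd S b ξ).η) ∧
      Jb S b ξ ⊆ (nd S b ξ).J := by
  obtain ⟨⟨W₀, y⟩, hp⟩ := Option.isSome_iff_exists.1 h
  have h1 := nd_ok hb hp
  exact ⟨h1.fs, h1.lt, h1.pos, h1.le⟩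

theorem nd_infinite {b : Br W} (hb : Valid S b) {ξ : W} (h : (b ξ).isSome = true) :
    (nd S b ξ).X.Infinite := by
  obtain ⟨h1, -, h2, -⟩ := nd_fs hb h
  intro hfin
  exact h2 ∅ (by simp) (fun _ => 0) (h1.fin _ (hfin.subset inter_subset_left))

/-- two nodes of one branch -/
theorem nd_lt {b : Br W} (hb : Valid S b) {β ξ : W} (hβξ : β < ξ) (hβ : (b β).isSome = true)
    (hξ : (b ξ).isSome = true) :
    ((nd S b ξ).X \ (nd S b β).X).Finite ∧ (nd S b β).J ⊆ (nd S b ξ).J ∧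
      (nd S b β).η ≤ ξ ∧ (nd S b β).η < (nd S b ξ).η := by
  obtain ⟨⟨W₀, y⟩, hp⟩ := Option.isSome_iff_exists.1 hξ
  have h1 := nd_ok hb hp
  have hv := (val_iff S b ξ W₀).1 (hb ξ W₀ y hp)
  obtain ⟨h2, h3⟩ := hv.1 β hβξ hβ
  refine ⟨h3.subset (diff_subset_diff_left h1.sub), ?_, h2, h2.trans_lt h1.lt⟩
  refine Subset.trans ?_ h1.le
  intro A hA
  exact Or.inr ⟨β, hβξ, hβ, hA⟩

end Fub90
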