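import Pool.Agent.LibFub90.Defs

/-! Task FUB-2b: boxes. -/

namespace Fub90

open Set

/-- for large `k` every `box F h` contains a set `bx k x H` of the above kind -/
theorem typek (K : ℕ → Set CC) (hm : ∀ k, K k ⊆ K (k + 1)) (hne : (⋃ k, K k).Nonempty)
    (F : Finset CC) (hF : (F : Set CC) ⊆ ⋃ k, K k) (h : CC → ℕ) :
    ∃ k₀, ∀ k ≥ k₀, ∃ x : Fin k → CC, (∀ i, x i ∈ K k) ∧ ∃ H : (Fin k → Bool) → ℕ,
      (∀ s, H s ≤ k) ∧ bx k x H ⊆ box F h := by
  classical
  have hmono : Monotone K := monotone_nat_of_le_succ hm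
  obtain ⟨z₀, hz₀⟩ := hne
  obtain ⟨k₁, hk₁⟩ := mem_iUnion.1 hz₀
  have h2 : ∀ y y' : CC, ∃ n : ℕ, (∀ j < n, y j = y' j) → y = y' := by
    intro y y'
    by_cases hy : y = y'
    · exact ⟨0, fun _ => hy⟩
    · obtain ⟨j, hj⟩ := Function.ne_iff.1 hy
      exact ⟨j + 1, fun hn => absurd (hn j (Nat.lt_succ_self j)) hj⟩
  choose N hN using h2
  have h3 : ∀ y : CC, ∃ n : ℕ, y ∈ F → y ∈ K n := by
    intro y
    by_cases hy : y ∈ F
    · obtain ⟨n, hn⟩ := mem_iUnion.1 (hF hy)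
      exact ⟨n, fun _ => hn⟩
    · exact ⟨0, fun h => absurd h hy⟩
  choose M hM using h3
  set k₂ := F.sup (fun y => F.sup (fun y' => N y y')) with hk₂
  set k₃ := F.sup M with hk₃
  set k₄ := F.sup h with hk₄
  refine ⟨k₁ + F.card + k₂ + k₃ + k₄, fun k hk => ?_⟩
  have hcard : F.card ≤ k := by omega
  have hdist : ∀ y ∈ F, ∀ y' ∈ F, (∀ j : Fin k, y j = y' j) → y = y' := by
    intro y hy y' hy' hyy
    apply hN y y'
    intro j hj
    have h5 : N y y' ≤ k₂ :=
      le_trans (Finset.le_sup (f := fun y' => N y y') hy')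
        (Finset.le_sup (f := fun y => F.sup (fun y' => N y y')) hy)
    exact hyy ⟨j, by omega⟩
  have hKk : ∀ y ∈ F, y ∈ K k := by
    intro y hy
    have h5 : M y ≤ k₃ := Finset.le_sup (f := M) hy
    exact hmono (show M y ≤ k by omega) (hM y hy)
  set e := F.equivFin.symm with he
  set x : Fin k → CC := fun i => if hi : (i : ℕ) < F.card then (e ⟨i, hi⟩ : CC) else z₀ with hx
  set H : (Fin k → Bool) → ℕ := fun s =>
    if hs : ∃ y ∈ F, s = fun j : Fin k => y j then h hs.choose else 0 with hH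
  refine ⟨x, ?_, H, ?_, ?_⟩
  · intro i
    simp only [hx]
    split_ifs with hi
    · exact hKk _ (e ⟨i, hi⟩).2
    · exact hmono (show k₁ ≤ k by omega) hk₁
  · intro s
    simp only [hH]
    split_ifs with hs
    · have h5 : h hs.choose ≤ k₄ := Finset.le_sup (f := h) hs.choose_spec.1
      omega
    · exact Nat.zero_le _
  · intro p hp y hy
    have hi : ((e.symm ⟨y, hy⟩ : Fin F.card) : ℕ) < F.card := (e.symm ⟨y, hy⟩).2
    have hpi := hp ⟨(e.symm ⟨y, hy⟩ : Fin F.card), by omega⟩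
    have hxi : x ⟨(e.symm ⟨y, hy⟩ : Fin F.card), by omega⟩ = y := by
      simp only [hx]
      rw [dif_pos hi]
      simp
    rw [hxi] at hpi
    rw [hpi]
    have hs : ∃ y' ∈ F, (fun j : Fin k => y j) = fun j : Fin k => y' j := ⟨y, hy, rfl⟩
    simp only [hH]
    rw [dif_pos hs]
    have h6 := hs.choose_spec
    congr 1
    exact (hdist y hy _ h6.1 (fun j => congrFun h6.2 j)).symm

/-- every `bx k x H` with all `x i ∈ L` contains (in fact equals) some `box F h` with `F ⊆ L` -/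
theorem bx_box (L : Set CC) (k : ℕ) (x : Fin k → CC) (hx : ∀ i, x i ∈ L)
    (H : (Fin k → Bool) → ℕ) : ∃ F : Finset CC, (F : Set CC) ⊆ L ∧ ∃ h : CC → ℕ,
      box F h ⊆ bx k x H := by
  classical
  refine ⟨Finset.univ.image x, ?_, fun y => H (fun j => y j), ?_⟩
  · intro y hy
    obtain ⟨i, -, rfl⟩ := Finset.mem_image.1 (Finset.mem_coe.1 hy)
    exact hx i
  · intro p hp i
    exact hp (x i) (Finset.mem_image_of_mem x (Finset.mem_univ i))

end Fub90
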