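import Pool.Agent.LibFub90.AD1
import Pool.Agent.LibFub90.AD2

/-! Task FUB-14: the ideal. -/

namespace Fub90

open Set

variable {W : Type} [LinearOrder W] [WellFoundedLT W] [OmOne W]

/-- positive sets: those that almost contain the set of a node -/
def Ip (S : Sys W) : Set (Set Om) :=
  {A | ∃ b : Br W, Valid S b ∧ ∃ ξ, (b ξ).isSome = true ∧ ((nd S b ξ).X \ A).Finite}

variable {S : Sys W}

private theorem app_at (b : Br W) (ξ : W) (W₀ : Set Om) (y : Tk) :
    app b ξ W₀ y ξ = some (W₀, y) := by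
  unfold app
  rw [if_neg (lt_irrefl ξ), if_pos rfl]

/-- the child of a node for a task -/
private theorem child {b : Br W} (hb : Valid S b) {ξ : W} (h : (b ξ).isSome = true) (y : Tk) :
    Valid S (app (trunc b ξ) (nd S b ξ).η (nd S b ξ).X y) ∧
    ExtOK S.L S.x (S.code ((nd S b ξ).X, y))
      (Jb S (app (trunc b ξ) (nd S b ξ).η (nd S b ξ).X y) (nd S b ξ).η) (nd S b ξ).X
      (nd S b ξ).η y (nd S (app (trunc b ξ) (nd S b ξ).η (nd S b ξ).X y) (nd S b ξ).η) := by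
  have hv : Valid S (app (trunc b ξ) (nd S b ξ).η (nd S b ξ).X y) :=
    app_valid (trunc_valid hb ξ) y (child_val hb h)
  exact ⟨hv, nd_ok hv (app_at _ _ _ _)⟩

private theorem not_mem_J {b : Br W} (hb : Valid S b) {ξ : W} (h : (b ξ).isSome = true) :
    (nd S b ξ).X ∉ (nd S b ξ).J := by
  have h1 := (nd_fs hb h).2.2.1 ∅ (by simp) (fun _ => 0)
  have h2 : (nd S b ξ).X ∩ box ∅ (fun _ => 0) = (nd S b ξ).X := by
    ext p
    simp [box]
  rwa [h2] at h1

/-- a set of `J` does not almost contain the set of the node -/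
private theorem not_almost {b : Br W} (hb : Valid S b) {ξ : W} (h : (b ξ).isSome = true)
    {A : Set Om} (hA : A ∈ (nd S b ξ).J) (hf : ((nd S b ξ).X \ A).Finite) : False := by
  have hfs := (nd_fs hb h).1
  apply not_mem_J hb h
  refine hfs.sub ?_ (hfs.union _ _ hA (hfs.fin _ hf))
  intro p hp
  by_cases hpA : p ∈ A
  · exact Or.inl hpA
  · exact Or.inr ⟨hp, hpA⟩

theorem Ip_mono {A B : Set Om} (h : A ⊆ B) (hA : A ∈ Ip S) : B ∈ Ip S := by
  obtain ⟨b, hb, ξ, hξ, hf⟩ := hA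
  refine ⟨b, hb, ξ, hξ, hf.subset ?_⟩
  intro p hp
  exact ⟨hp.1, fun h1 => hp.2 (h h1)⟩

theorem Ip_infinite {A : Set Om} (hA : A ∈ Ip S) : A.Infinite := by
  obtain ⟨b, hb, ξ, hξ, hf⟩ := hA
  intro hAf
  apply nd_infinite hb hξ
  refine (hf.union hAf).subset ?_
  intro p hp
  by_cases hpA : p ∈ A
  · exact Or.inr hpA
  · exact Or.inl ⟨hp, hpA⟩

/-- there is a root node: `Val S (fun _ => none) ξ univ` for the least `ξ` -/
theorem Ip_univ : (univ : Set Om) ∈ Ip S := by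
  obtain ⟨a⟩ := OmOne.ne (W := W)
  obtain ⟨ξ, -, hξ⟩ := (wellFounded_lt (α := W)).has_min univ ⟨a, mem_univ a⟩
  have hmin : ∀ β, ¬ β < ξ := fun β => hξ β (mem_univ β)
  have hv0 : Valid S (fun _ => none) := by
    intro β W' y' h
    exact absurd h (by simp)
  have hJ : Jb S (fun _ => none) ξ = FinI Om := by
    ext A
    constructor
    · rintro (h | ⟨β, h, -⟩)
      · exact h
      · exact absurd h (hmin β)
    · intro h
      exact Or.inl h
  have hval : Val S (fun _ => none) ξ univ := by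
    rw [val_iff]
    refine ⟨fun β hβ => absurd hβ (hmin β), ?_, fun γ hγ => absurd hγ (hmin γ)⟩
    rw [hJ]
    exact pos_univ _
  have hv := app_valid hv0 (S := S) (∅, fun _ => ∅) hval
  refine ⟨_, hv, ξ, ?_, ?_⟩
  · rw [app_at]; rfl
  · rw [sdiff_univ]; exact finite_empty

/-- decide `A` by a child -/
theorem Ip_union {A B : Set Om} (h : A ∪ B ∈ Ip S) : A ∈ Ip S ∨ B ∈ Ip S := by
  obtain ⟨b, hb, ξ, hξ, hf⟩ := h
  obtain ⟨hv, hok⟩ := child hb hξ (A, fun _ => ∅)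
  rcases hok.dec with h1 | h1
  · left
    refine ⟨_, hv, (nd S b ξ).η, by rw [app_at]; rfl, ?_⟩
    rw [sdiff_eq_empty.mpr h1]
    exact finite_empty
  · right
    refine ⟨_, hv, (nd S b ξ).η, by rw [app_at]; rfl, hf.subset ?_⟩
    intro p hp
    refine ⟨hok.sub hp.1, ?_⟩
    rintro (h2 | h2)
    · exact (disjoint_left.mp h1) hp.1 h2
    · exact hp.2 h2

/-- two children for different tasks are almost disjoint -/
theorem Ip_split {A : Set Om} (hA : A ∈ Ip S) : ∃ B ⊆ A, B ∈ Ip S ∧ A \ B ∈ Ip S := by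
  obtain ⟨b, hb, ξ, hξ, hf⟩ := hA
  obtain ⟨hv1, hok1⟩ := child hb hξ (∅, fun _ => ∅)
  obtain ⟨hv2, hok2⟩ := child hb hξ (univ, fun _ => ∅)
  have hne : S.code ((nd S b ξ).X, ((∅ : Set Om), fun _ => ∅)) ≠
      S.code ((nd S b ξ).X, ((univ : Set Om), fun _ => ∅)) := by
    intro h
    have h1 := S.inj h
    have h2 : (∅ : Set Om) = univ := congrArg (fun z => z.2.1) h1
    have h3 : (⟨0, fun _ => 0⟩ : Om) ∈ (∅ : Set Om) := by rw [h2]; exact mem_univ _
    exact h3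
  obtain ⟨i, hi⟩ : ∃ i, S.code ((nd S b ξ).X, ((∅ : Set Om), fun _ => ∅)) i ≠
      S.code ((nd S b ξ).X, ((univ : Set Om), fun _ => ∅)) i := by
    by_contra hcon
    push Not at hcon
    exact hne (funext hcon)
  have hb1 := hok1.bits i
  have hb2 := hok2.bits i
  have hfin : ((nd S (app (trunc b ξ) (nd S b ξ).η (nd S b ξ).X (∅, fun _ => ∅))
      (nd S b ξ).η).X ∩ (nd S (app (trunc b ξ) (nd S b ξ).η (nd S b ξ).X (univ, fun _ => ∅))
      (nd S b ξ).η).X).Finite := by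
    refine (hb1.union hb2).subset ?_
    intro p hp
    by_cases h1 : (ev p (S.x (nd S b ξ).η)).testBit i =
        S.code ((nd S b ξ).X, ((∅ : Set Om), fun _ => ∅)) i
    · right
      refine ⟨hp.2, ?_⟩
      rw [h1]
      exact hi
    · left
      exact ⟨hp.1, h1⟩
  refine ⟨A ∩ (nd S (app (trunc b ξ) (nd S b ξ).η (nd S b ξ).X (∅, fun _ => ∅))
      (nd S b ξ).η).X, inter_subset_left, ⟨_, hv1, (nd S b ξ).η, by rw [app_at]; rfl, ?_⟩,
      ⟨_, hv2, (nd S b ξ).η, by rw [app_at]; rfl, ?_⟩⟩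
  · refine hf.subset ?_
    intro p hp
    refine ⟨hok1.sub hp.1, fun h => hp.2 ⟨h, hp.1⟩⟩
  · refine (hf.union hfin).subset ?_
    intro p hp
    by_cases h1 : p ∈ A
    · right
      refine ⟨?_, hp.1⟩
      by_contra h2
      exact hp.2 ⟨h1, fun h3 => h2 h3.2⟩
    · left
      exact ⟨hok2.sub hp.1, h1⟩

/-- the ideal of a node is null below the node -/
theorem nd_null {b : Br W} (hb : Valid S b) {ξ : W} (h : (b ξ).isSome = true) {A : Set Om}
    (hA : A ∈ (nd S b ξ).J) : A ∩ (nd S b ξ).X ∉ Ip S := by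
  rintro ⟨b', hb', ξ', hξ', hf⟩
  rcases ad hb hb' h hξ' with h1 | h1
  · have hfA : ((nd S b' ξ').X \ A).Finite := by
      refine hf.subset ?_
      intro p hp
      exact ⟨hp.1, fun h2 => hp.2 h2.1⟩
    have hfX : ((nd S b' ξ').X \ (nd S b ξ).X).Finite := by
      refine hf.subset ?_
      intro p hp
      exact ⟨hp.1, fun h2 => hp.2 h2.2⟩
    rcases le_or_gt ξ ξ' with h2 | h2
    · have hnd : nd S b ξ = nd S b' ξ := nd_congr S fun β hβ => h1 β hβ (hβ.trans h2)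
      rw [hnd] at hA
      rcases lt_or_eq_of_le h2 with h3 | h3
      · have hbs : (b' ξ).isSome = true := by rw [← h1 ξ le_rfl h2]; exact h
        exact not_almost hb' hξ' ((nd_lt hb' h3 hbs hξ').2.1 hA) hfA
      · subst h3
        exact not_almost hb' hξ' hA hfA
    · have hnd : nd S b ξ' = nd S b' ξ' :=
        nd_congr S fun β hβ => h1 β (hβ.trans h2.le) hβ
      have hbs : (b ξ').isSome = true := by rw [h1 ξ' h2.le le_rfl]; exact hξ'
      have h4 := (nd_lt hb h2 hbs h).1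
      rw [hnd] at h4
      refine not_almost hb h hA ((h4.union hfA).subset ?_)
      intro p hp
      by_cases h5 : p ∈ (nd S b' ξ').X
      · exact Or.inr ⟨h5, hp.2⟩
      · exact Or.inl ⟨hp.1, h5⟩
  · apply nd_infinite hb' hξ'
    refine (hf.union h1).subset ?_
    intro p hp
    by_cases h2 : p ∈ (nd S b ξ).X
    · exact Or.inr ⟨h2, hp⟩
    · exact Or.inl ⟨hp, fun h3 => h2 h3.2⟩

/-- the dichotomy -/
theorem Ip_at {A : Set Om} (hA : A ∈ Ip S) (C : ℕ → Set (Finset Om)) (hC : ∀ m, Her (C m))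
    (hCm : ∀ m, C m ⊆ C (m + 1)) :
    ∃ B ⊆ A, B ∈ Ip S ∧ ((∃ m, B ∈ cls (C m)) ∨ ∃ G : ℕ → Finset Om, ∀ Y ⊆ B,
      (∀ m, ∀ F : Finset Om, (F : Set Om) ⊆ Y → F ⊆ G m → F ∈ C m) → Y ∉ Ip S) := by
  obtain ⟨b, hb, ξ, hξ, hf⟩ := hA
  obtain ⟨hv, hok⟩ := child hb hξ (A, C)
  have hsome : (app (trunc b ξ) (nd S b ξ).η (nd S b ξ).X (A, C) (nd S b ξ).η).isSome = true := by
    rw [app_at]; rfl
  have hsub : (nd S (app (trunc b ξ) (nd S b ξ).η (nd S b ξ).X (A, C)) (nd S b ξ).η).X ⊆ A := by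
    rcases hok.dec with h1 | h1
    · exact h1
    · exfalso
      apply nd_infinite hv hsome
      refine hf.subset ?_
      intro p hp
      exact ⟨hok.sub hp, fun h2 => (disjoint_left.mp h1) hp h2⟩
  refine ⟨_, hsub, ⟨_, hv, _, hsome, ?_⟩, ?_⟩
  · rw [Set.sdiff_self]; exact finite_empty
  · rcases hok.at_ hC hCm with h1 | ⟨G, hG⟩
    · left; exact h1
    · right
      refine ⟨G, fun Y hY hYc hYI => ?_⟩
      have h1 := nd_null hv hsome (hG Y hYc)
      rw [inter_eq_left.mpr hY] at h1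
      exact h1 hYI

end Fub90
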