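import Pool.Agent.LibFub90.AD1
import Pool.Agent.LibFub90.AD2

/-! Task FUB-15b: limits of sequences of nodes. -/

namespace Fub90

open Set Filter

variable {W : Type} [LinearOrder W] [WellFoundedLT W] [OmOne W] {S : Sys W}

/-- a strictly increasing sequence inside a set of a free ultrafilter -/
private theorem lim_seq (T : Set ℕ) (hT : T ∈ hyperfilter ℕ) :
    ∃ m : ℕ → ℕ, StrictMono m ∧ ∀ k, m k ∈ T := by
  have hinf : T.Infinite := by
    intro hfin
    exact (Filter.notMem_hyperfilter_of_finite hfin) hT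
  exact ⟨Nat.nth (· ∈ T), Nat.nth_strictMono hinf, fun k => Nat.nth_mem_of_infinite hinf k⟩

/-- Given nodes `(b n, ξ n)`, with `b n` ending at `ξ n`, there is a subsequence and a valid branch
`c` such that either (A) all nodes of the subsequence lie on `c`, or (B) `c` is bounded, every node
of `c` is eventually strictly below the nodes of the subsequence, and every node directly above `c`
is eventually almost disjoint from the nodes of the subsequence.

Proof: let `U` be a free ultrafilter on `ℕ`. Say that `β` is fine if for some `d : Br W`,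
`∀ᶠ n in U, ∀ γ ≤ β, b n γ = d γ`. If all `β` are fine then (taking `β` above all `ξ n`) we are in
case (A). Otherwise let `β₀` be the least `β` that is not fine, and let `c γ` be the `U`-constant
value of `b n γ` for `γ < β₀` and `none` for `γ ≥ β₀`. `c` is valid by `Val_congr`. If
`{n | ξ n < β₀ ∧ ∀ γ ≤ ξ n, b n γ = c γ} ∈ U` we are in case (A). Otherwise choose `m` strictly
increasing such that: no `m k` is in this set; for every `γ < β₀` (countably many), eventually
`∀ β ≤ γ, b (m k) β = c β`; the restrictions of `b (m k)` to `{γ | γ ≤ β₀}` are pairwise distinct.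
For the last part of (B) use `ad`. -/
theorem limit_branch (b : ℕ → Br W) (ξ : ℕ → W) (hb : ∀ n, Valid S (b n))
    (hξ : ∀ n, (b n (ξ n)).isSome = true) (hend : ∀ n, ∀ γ, ξ n < γ → b n γ = none) :
    ∃ m : ℕ → ℕ, StrictMono m ∧ ∃ c : Br W, Valid S c ∧
      ((∀ k, ∀ γ ≤ ξ (m k), b (m k) γ = c γ) ∨
       ((∃ θ, ∀ γ, θ ≤ γ → c γ = none) ∧
        (∀ γ, (c γ).isSome = true →
          ∀ᶠ k in atTop, γ < ξ (m k) ∧ ∀ β ≤ γ, b (m k) β = c β) ∧
        (∀ (b' : Br W) (γ : W), Valid S b' → (b' γ).isSome = true → (∀ β < γ, b' β = c β) →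
          (∀ β, γ ≤ β → c β = none) →
          ∀ᶠ k in atTop, ((nd S b' γ).X ∩ (nd S (b (m k)) (ξ (m k))).X).Finite))) := by
  classical
  set U : Ultrafilter ℕ := hyperfilter ℕ with hU
  have hUtop : ∀ N : ℕ, ∀ᶠ n in (U : Filter ℕ), N < n := by
    intro N
    exact (Nat.cofinite_eq_atTop ▸ hyperfilter_le_cofinite : (hyperfilter ℕ : Filter ℕ) ≤ atTop)
      (eventually_gt_atTop N)
  by_cases hall : ∀ β : W, ∃ d : Br W, ∀ᶠ n in (U : Filter ℕ), ∀ γ ≤ β, b n γ = d γ
  · -- case (A)
    obtain ⟨a, ha⟩ := OmOne.bdd ξ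
    obtain ⟨d, hd⟩ := hall a
    obtain ⟨m, hm, hmT⟩ := lim_seq {n | ∀ γ ≤ a, b n γ = d γ} hd
    refine ⟨m, hm, b (m 0), hb _, Or.inl ?_⟩
    intro k γ hγ
    have hγa : γ ≤ a := le_trans hγ (ha (m k)).le
    rw [hmT k γ hγa, hmT 0 γ hγa]
  · -- least not fine stage
    obtain ⟨β₀, hβ₀, hmin⟩ : ∃ β₀ : W,
        (∀ d : Br W, ¬ ∀ᶠ n in (U : Filter ℕ), ∀ γ ≤ β₀, b n γ = d γ) ∧
        ∀ β < β₀, ∃ d : Br W, ∀ᶠ n in (U : Filter ℕ), ∀ γ ≤ β, b n γ = d γ := by
      have hwf : WellFounded ((· < ·) : W → W → Prop) := wellFounded_lt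
      obtain ⟨β, hβ⟩ := not_forall.mp hall
      have hne : {β : W | ¬ ∃ d : Br W, ∀ᶠ n in (U : Filter ℕ),
          ∀ γ ≤ β, b n γ = d γ}.Nonempty := ⟨β, hβ⟩
      refine ⟨hwf.min _ hne, fun d hd => ?_, fun β hβ => ?_⟩
      · exact hwf.min_mem _ hne ⟨d, hd⟩
      · by_contra hcon
        exact hwf.not_lt_min _ hcon hβ
    choose! d hd using hmin
    let c : Br W := fun γ => if γ < β₀ then d γ γ else none
    have hcnone : ∀ γ, β₀ ≤ γ → c γ = none := fun γ hγ => if_neg (not_lt.mpr hγ)
    have hclt : ∀ γ, (c γ).isSome = true → γ < β₀ := by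
      intro γ hγ
      by_contra hcon
      rw [hcnone γ (not_lt.mp hcon)] at hγ
      exact absurd hγ (by simp)
    have hcU : ∀ γ < β₀, ∀ᶠ n in (U : Filter ℕ), ∀ γ' ≤ γ, b n γ' = c γ' := by
      intro γ hγ
      filter_upwards [hd γ hγ] with n hn γ' hγ'
      have hγ'0 : γ' < β₀ := lt_of_le_of_lt hγ' hγ
      have hc' : c γ' = d γ' γ' := if_pos hγ'0
      obtain ⟨n', hn1, hn2⟩ := ((hd γ hγ).and (hd γ' hγ'0)).exists
      rw [hn γ' hγ', hc', ← hn1 γ' hγ', ← hn2 γ' le_rfl]
    have hcV : Valid S c := by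
      intro γ W₀ y hγ
      have hγ0 : γ < β₀ := hclt γ (by rw [hγ]; rfl)
      obtain ⟨n, hn⟩ := (hcU γ hγ0).exists
      have h1 : b n γ = some (W₀, y) := by rw [hn γ le_rfl, hγ]
      exact (Val_congr S (fun β hβ => hn β hβ.le) W₀).mp (hb n γ W₀ y h1)
    by_cases hT : {n | ξ n < β₀ ∧ ∀ γ ≤ ξ n, b n γ = c γ} ∈ (U : Filter ℕ)
    · obtain ⟨m, hm, hmT⟩ := lim_seq _ hT
      exact ⟨m, hm, c, hcV, Or.inl fun k γ hγ => (hmT k).2 γ hγ⟩
    · have hT' : {n | ξ n < β₀ ∧ ∀ γ ≤ ξ n, b n γ = c γ}ᶜ ∈ (U : Filter ℕ) :=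
        Ultrafilter.compl_mem_iff_notMem.mpr hT
      have : Nonempty W := OmOne.ne
      obtain ⟨e, he⟩ := countable_iff_exists_subset_range.mp (OmOne.cnt β₀)
      obtain ⟨m, hmP, hmr⟩ := exists_seq_of_forall_finset_exists
        (fun n : ℕ => ¬ (ξ n < β₀ ∧ ∀ γ ≤ ξ n, b n γ = c γ))
        (fun x y : ℕ => x < y ∧ (¬ ∀ γ ≤ β₀, b y γ = b x γ) ∧
          ∀ i ≤ x, e i < β₀ → ∀ γ ≤ e i, b y γ = c γ) (by
          intro s _
          have h1 : ∀ᶠ n in (U : Filter ℕ), ∀ x ∈ s, x < n ∧ (¬ ∀ γ ≤ β₀, b n γ = b x γ) ∧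
              ∀ i ≤ x, e i < β₀ → ∀ γ ≤ e i, b n γ = c γ := by
            rw [Filter.eventually_all_finset]
            intro x _
            refine (hUtop x).and (Filter.Eventually.and ?_ ?_)
            · exact Ultrafilter.eventually_not.mpr (hβ₀ (b x))
            · have : ∀ᶠ n in (U : Filter ℕ), ∀ i ∈ Finset.range (x + 1),
                  e i < β₀ → ∀ γ ≤ e i, b n γ = c γ := by
                rw [Filter.eventually_all_finset]
                intro i _
                by_cases hi : e i < β₀
                · filter_upwards [hcU (e i) hi] with n hn _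
                  exact hn
                · exact Filter.Eventually.of_forall fun n h => absurd h hi
              filter_upwards [this] with n hn i hi
              exact hn i (Finset.mem_range.mpr (Nat.lt_succ_of_le hi))
          obtain ⟨n, hn1, hn2⟩ := (h1.and hT').exists
          exact ⟨n, hn2, hn1⟩)
      have hm : StrictMono m := fun j k hjk => (hmr j k hjk).1
      have hev : ∀ γ < β₀, ∀ᶠ k in atTop, ∀ β ≤ γ, b (m k) β = c β := by
        intro γ hγ
        obtain ⟨i, hi⟩ := he hγ
        filter_upwards [eventually_gt_atTop i] with k hk β hβ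
        exact (hmr i k hk).2.2 i (hm.id_le i) (by rw [hi]; exact hγ) β (by rw [hi]; exact hβ)
      refine ⟨m, hm, c, hcV, Or.inr ⟨⟨β₀, hcnone⟩, ?_, ?_⟩⟩
      · intro γ hγ
        have hγ0 := hclt γ hγ
        filter_upwards [hev γ hγ0] with k hk
        refine ⟨?_, hk⟩
        have hle : γ ≤ ξ (m k) := by
          by_contra hcon
          have := hend (m k) γ (not_le.mp hcon)
          rw [hk γ le_rfl] at this
          rw [this] at hγ
          exact absurd hγ (by simp)
        refine lt_of_le_of_ne hle fun heq => ?_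
        exact hmP k ⟨heq ▸ hγ0, fun γ' hγ' => hk γ' (heq ▸ hγ')⟩
      · intro b' γ hb' hγs hbc hcγ
        -- eventually the first alternative of `ad` fails
        have hfail : ∀ᶠ k in atTop,
            ¬ ∀ β, β ≤ γ → β ≤ ξ (m k) → b' β = b (m k) β := by
          by_cases hγ0 : γ < β₀
          · filter_upwards [hev γ hγ0] with k hk hcon
            by_cases hle : γ ≤ ξ (m k)
            · have h1 := hcon γ le_rfl hle
              rw [hk γ le_rfl, hcγ γ le_rfl] at h1
              rw [h1] at hγs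
              exact absurd hγs (by simp)
            · have hlt : ξ (m k) < γ := not_le.mp hle
              exact hmP k ⟨hlt.trans hγ0, fun γ' hγ' => hk γ' (hγ'.trans hlt.le)⟩
          · have hγ0' : β₀ ≤ γ := not_lt.mp hγ0
            -- if it holds for `k` then `b (m k)` agrees with `b'` up to `β₀`
            have hkey : ∀ k, (∀ β, β ≤ γ → β ≤ ξ (m k) → b' β = b (m k) β) →
                ∀ β ≤ β₀, b (m k) β = b' β := by
              intro k hk β hβ
              by_cases hle : γ ≤ ξ (m k)
              · exact (hk β (hβ.trans hγ0') ((hβ.trans hγ0').trans hle)).symm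
              · exfalso
                have hlt : ξ (m k) < γ := not_le.mp hle
                have h1 : ∀ β ≤ ξ (m k), b (m k) β = c β := by
                  intro β hβ
                  rw [← hk β (hβ.trans hlt.le) hβ, hbc β (lt_of_le_of_lt hβ hlt)]
                have h2 : (c (ξ (m k))).isSome = true := by
                  rw [← h1 _ le_rfl]
                  exact hξ (m k)
                exact hmP k ⟨hclt _ h2, h1⟩
            by_cases hex : ∃ j, ∀ β, β ≤ γ → β ≤ ξ (m j) → b' β = b (m j) β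
            · obtain ⟨j, hj⟩ := hex
              filter_upwards [eventually_gt_atTop j] with k hjk hcon
              refine (hmr j k hjk).2.1 fun β hβ => ?_
              rw [hkey k hcon β hβ, hkey j hj β hβ]
            · push Not at hex
              refine Filter.Eventually.of_forall fun k hcon => ?_
              obtain ⟨β, h1, h2, h3⟩ := hex k
              exact h3 (hcon β h1 h2)
        filter_upwards [hfail] with k hk
        rcases ad hb' (hb (m k)) hγs (hξ (m k)) with h | h
        · exact absurd h hk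
        · exact h

end Fub90
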