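import Pool.Agent.LibFub90.AD1
import Pool.Agent.LibFub90.AD2

/-! Task FUB-16: lower bounds, case A. -/

namespace Fub90

open Set Filter

set_option linter.unusedSectionVars false

variable {W : Type} [LinearOrder W] [WellFoundedLT W] [OmOne W] {S : Sys W}

private theorem ppa_bdd (A : Set W) (hA : A.Countable) : ∃ a : W, ∀ x ∈ A, x < a := by
  rcases A.eq_empty_or_nonempty with h | h
  · obtain ⟨w⟩ := OmOne.ne (W := W)
    exact ⟨w, fun x hx => by rw [h] at hx; exact absurd hx (notMem_empty x)⟩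
  · obtain ⟨f, rfl⟩ := hA.exists_eq_range h
    obtain ⟨a, ha⟩ := OmOne.bdd f
    exact ⟨a, by rintro _ ⟨n, rfl⟩; exact ha n⟩

/-- the part of `c` below the `ζ k` -/
private noncomputable def ppaC (c : Br W) (ζ : ℕ → W) : Br W := by
  classical
  exact fun β => if ∃ k, β ≤ ζ k then c β else none

private theorem ppaC_of {c : Br W} {ζ : ℕ → W} {β : W} {k : ℕ} (h : β ≤ ζ k) :
    ppaC c ζ β = c β := by
  classical
  simp only [ppaC]
  exact if_pos ⟨k, h⟩

private theorem ppaC_ex {c : Br W} {ζ : ℕ → W} {β : W} (h : (ppaC c ζ β).isSome = true) :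
    ∃ k, β ≤ ζ k := by
  classical
  by_contra hc
  simp only [ppaC] at h
  rw [if_neg hc] at h
  exact absurd h (by simp)

private theorem ppaC_valid {c : Br W} (hc : Valid S c) (ζ : ℕ → W) : Valid S (ppaC c ζ) := by
  intro ξ W₀ y h
  obtain ⟨k, hk⟩ := ppaC_ex (c := c) (ζ := ζ) (β := ξ) (by rw [h]; rfl)
  have h1 : c ξ = some (W₀, y) := by rw [← ppaC_of (c := c) hk]; exact h
  exact (Val_congr S (fun β hβ => (ppaC_of (c := c) (hβ.le.trans hk))) W₀).mpr (hc ξ W₀ y h1)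

private noncomputable def ppaM (ζ : ℕ → W) : ℕ → W
  | 0 => ζ 0
  | n + 1 => max (ppaM ζ n) (ζ (n + 1))

private theorem ppaM_mono (ζ : ℕ → W) : Monotone (ppaM ζ) :=
  monotone_nat_of_le_succ fun _ => le_max_left _ _

private theorem ppaM_ge (ζ : ℕ → W) (n : ℕ) : ζ n ≤ ppaM ζ n := by
  cases n with
  | zero => exact le_rfl
  | succ n => exact le_max_right _ _

private theorem ppaM_mem (ζ : ℕ → W) (n : ℕ) : ∃ j, ppaM ζ n = ζ j := by
  induction n with
  | zero => exact ⟨0, rfl⟩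
  | succ n ih =>
    obtain ⟨j, hj⟩ := ih
    rcases max_choice (ppaM ζ n) (ζ (n + 1)) with h | h
    · exact ⟨j, by rw [ppaM, h, hj]⟩
    · exact ⟨n + 1, by rw [ppaM, h]⟩

/-- two nodes of a valid branch, `≤` version -/
private theorem ppa_le {b : Br W} (hb : Valid S b) {β ξ : W} (hβξ : β ≤ ξ)
    (hβ : (b β).isSome = true) (hξ : (b ξ).isSome = true) :
    ((nd S b ξ).X \ (nd S b β).X).Finite ∧ (nd S b β).J ⊆ (nd S b ξ).J := by
  rcases hβξ.eq_or_lt with rfl | h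
  · exact ⟨by simp, subset_rfl⟩
  · exact ⟨(nd_lt hb h hβ hξ).1, (nd_lt hb h hβ hξ).2.1⟩

/-- Case A: infinitely many nodes on one valid branch `c`.
Proof: if some node of a valid branch lies above all `(c, ζ k)` we are done by `nd_lt`. Otherwise let
`c₀ β = c β` if `∃ k, β ≤ ζ k` and `none` otherwise (valid), let `ξ` be an upper bound of the
countably many `(nd S c β).η`, `β` a node of `c₀`, and all `ζ k`. With `μ n = max (ζ 0) … (ζ n)` apply `diag` to
`J` from `Jb_seq` (for `c₀`, `ξ`), `I n = (nd S c (μ n)).J` and `Y n = (nd S c (μ n)).X` minus a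
finite set, so that the resulting `W₀ = ⋃ G k` is almost contained in all `(nd S c β).X`, `β` a node of
`c₀`. Then `Val S c₀ ξ W₀`: the third clause is vacuous, since `Val S c₀ γ W'` with `γ` above all
`ζ k` would give (`app_valid`) a node above all `(c, ζ k)`. Finish with `app_valid`. -/
theorem pplus_A (c : Br W) (hc : Valid S c) (ζ : ℕ → W) (hζ : ∀ k, (c (ζ k)).isSome = true) :
    ∃ b : Br W, Valid S b ∧ ∃ ξ, (b ξ).isSome = true ∧
      ∀ k, ((nd S b ξ).X \ (nd S c (ζ k)).X).Finite := by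
  by_cases h1 : ∃ b : Br W, Valid S b ∧ ∃ ξ, (b ξ).isSome = true ∧ (∀ k, ζ k < ξ) ∧
      ∀ k, ∀ β ≤ ζ k, b β = c β
  · obtain ⟨b, hb, ξ, hξ, hlt, hag⟩ := h1
    refine ⟨b, hb, ξ, hξ, fun k => ?_⟩
    have h2 : (b (ζ k)).isSome = true := by rw [hag k _ le_rfl]; exact hζ k
    have h3 := (nd_lt hb (hlt k) h2 hξ).1
    rwa [nd_congr S (hag k)] at h3
  -- the branch `c₀`
  have hc₀ := ppaC_valid hc ζ
  have hnd : ∀ β, (ppaC c ζ β).isSome = true → nd S (ppaC c ζ) β = nd S c β := by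
    intro β hβ
    obtain ⟨k, hk⟩ := ppaC_ex hβ
    exact nd_congr S fun γ hγ => ppaC_of (hγ.trans hk)
  have hsome : ∀ k, (ppaC c ζ (ζ k)).isSome = true := by
    intro k
    rw [ppaC_of le_rfl]; exact hζ k
  -- the stage `ξ`
  have hcnt : (⋃ k, Iic (ζ k)).Countable := by
    refine countable_iUnion fun k => ?_
    rw [← Iio_union_right]
    exact (OmOne.cnt (ζ k)).union (countable_singleton _)
  obtain ⟨ξ, hξ⟩ := ppa_bdd (((fun β => (nd S c β).η) '' (⋃ k, Iic (ζ k))) ∪ range ζ)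
    ((hcnt.image _).union (countable_range ζ))
  have hξ1 : ∀ k, ζ k < ξ := fun k => hξ _ (Or.inr ⟨k, rfl⟩)
  have hξ2 : ∀ β, (ppaC c ζ β).isSome = true → (nd S c β).η < ξ := by
    intro β hβ
    obtain ⟨k, hk⟩ := ppaC_ex hβ
    exact hξ _ (Or.inl ⟨β, mem_iUnion.mpr ⟨k, hk⟩, rfl⟩)
  -- the nodes `μ n`
  have hμ : ∀ n, (ppaC c ζ (ppaM ζ n)).isSome = true := by
    intro n
    obtain ⟨j, hj⟩ := ppaM_mem ζ n
    rw [hj]; exact hsome j
  have hμc : ∀ n, (c (ppaM ζ n)).isSome = true := by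
    intro n
    obtain ⟨j, hj⟩ := ppaM_mem ζ n
    rw [hj]; exact hζ j
  obtain ⟨-, J, hJm, hJu, hJ⟩ := Jb_seq hc₀ ξ
  let I : ℕ → Set (Set Om) := fun n => (nd S c (ppaM ζ n)).J
  let Y : ℕ → Set Om := fun n => (nd S c (ppaM ζ n)).X \
    ⋃ j ∈ Finset.range (n + 1), ((nd S c (ppaM ζ n)).X \ (nd S c (ppaM ζ j)).X)
  have hI : ∀ k, ∀ᶠ n in atTop, J k ⊆ I n := by
    intro k
    rcases (hJ k).2 with h | ⟨β, -, hβ, h⟩
    · refine Eventually.of_forall fun n => ?_
      rw [h]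
      exact fun A hA => (nd_fs hc (hμc n)).1.fin A hA
    · obtain ⟨j, hj⟩ := ppaC_ex hβ
      refine eventually_atTop.mpr ⟨j, fun n hn => ?_⟩
      rw [h, hnd β hβ]
      refine (ppa_le hc ?_ ?_ (hμc n)).2
      · exact hj.trans ((ppaM_ge ζ j).trans (ppaM_mono ζ hn))
      · rw [← ppaC_of (c := c) hj]; exact hβ
  have hP : ∀ n, Pos (Y n) (I n) (S.L ξ) := by
    intro n
    have h2 := nd_fs hc (hμc n)
    have h3 : Pos (nd S c (ppaM ζ n)).X (I n) (S.L ξ) :=
      Pos.mono h2.2.2.1 subset_rfl subset_rfl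
        (S.ls.anti _ _ (hξ2 _ (hμ n)).le) h2.1
    refine Pos.diff_finite h3 h2.1 ?_
    refine Finite.biUnion (Finset.finite_toSet _) fun j hj => ?_
    have hj' : j ≤ n := by
      have := Finset.mem_range.mp hj
      omega
    exact (ppa_le hc (ppaM_mono ζ hj') (hμc j) (hμc n)).1
  obtain ⟨m, hm, G, hG, hpos⟩ := diag (S.L ξ) (S.ls.sig ξ) (S.ls.ne ξ) J (fun k => (hJ k).1) hJm
    Y I hI hP
  have hW : ∀ j, ((⋃ k, (G k : Set Om)) \ (nd S c (ppaM ζ j)).X).Finite := by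
    intro j
    refine (Finite.biUnion (Finset.finite_toSet (Finset.range j))
      (fun k _ => (G k).finite_toSet)).subset ?_
    rintro p ⟨hp, hpn⟩
    obtain ⟨k, hk⟩ := mem_iUnion.mp hp
    refine mem_iUnion₂.mpr ⟨k, ?_, hk⟩
    by_contra hkj
    have hkj' : j ≤ k := by
      by_contra h
      exact hkj (Finset.mem_coe.mpr (Finset.mem_range.mpr (not_le.mp h)))
    have h2 := hG k hk
    apply h2.2
    refine mem_iUnion₂.mpr ⟨j, Finset.mem_range.mpr ?_, h2.1, hpn⟩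
    have := hm.le_apply (x := k)
    omega
  have hval : Val S (ppaC c ζ) ξ (⋃ k, (G k : Set Om)) := by
    rw [val_iff]
    refine ⟨fun β hβ hs => ⟨?_, ?_⟩, ?_, ?_⟩
    · rw [hnd β hs]; exact (hξ2 β hs).le
    · obtain ⟨j, hj⟩ := ppaC_ex hs
      rw [hnd β hs]
      refine ((hW j).union (ppa_le hc (hj.trans (ppaM_ge ζ j)) ?_ (hμc j)).1).subset ?_
      · rw [← ppaC_of (c := c) hj]; exact hs
      · rintro p ⟨hp1, hp2⟩
        by_cases h : p ∈ (nd S c (ppaM ζ j)).X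
        · exact Or.inr ⟨h, hp2⟩
        · exact Or.inl ⟨hp1, h⟩
    · rw [hJu]; exact hpos
    · intro γ hγ hno W' y' hv
      exfalso
      have hζγ : ∀ k, ζ k < γ := by
        intro k
        by_contra h
        have := hno (ζ k) (not_lt.mp h) (hξ1 k)
        have h2 := hsome k
        rw [this] at h2
        exact absurd h2 (by simp)
      refine h1 ⟨app (ppaC c ζ) γ W' y', app_valid hc₀ y' hv, γ, by simp [app], hζγ, ?_⟩
      intro k β hβ
      have : β < γ := hβ.trans_lt (hζγ k)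
      rw [← ppaC_of (c := c) hβ]
      simp [app, this]
  refine ⟨app (ppaC c ζ) ξ (⋃ k, (G k : Set Om)) (∅, fun _ => ∅), app_valid hc₀ _ hval, ξ,
    by simp [app], fun k => ?_⟩
  have hag : ∀ β ≤ ζ k, app (ppaC c ζ) ξ (⋃ k, (G k : Set Om)) (∅, fun _ => ∅) β = c β := by
    intro β hβ
    have : β < ξ := hβ.trans_lt (hξ1 k)
    rw [← ppaC_of (c := c) hβ]
    simp [app, this]
  have h2 : (app (ppaC c ζ) ξ (⋃ k, (G k : Set Om)) (∅, fun _ => ∅) (ζ k)).isSome = true := by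
    rw [hag _ le_rfl]; exact hζ k
  have h3 := (nd_lt (app_valid hc₀ (∅, fun _ => ∅) hval) (hξ1 k) h2 (by simp [app])).1
  rwa [nd_congr S hag] at h3

end Fub90
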