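import Mathlib

/-! Task FUB-15a: thinning. -/

namespace Fub90

open Set Filter

/-- from a sequence of countably many Boolean sequences one can pass to a subsequence along which
all of them converge -/
theorem thin {ι : Type} [Countable ι] (f : ℕ → ι → Bool) :
    ∃ m : ℕ → ℕ, StrictMono m ∧ ∃ g : ι → Bool, ∀ i, ∀ᶠ k in atTop, f (m k) i = g i := by
  obtain ⟨g, m, hm, hlim⟩ := CompactSpace.tendsto_subseq f
  refine ⟨m, hm, g, fun i => ?_⟩
  have h1 : Tendsto (fun k => f (m k) i) atTop (nhds (g i)) :=
    ((continuous_apply i).tendsto g).comp hlim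
  rw [nhds_discrete] at h1
  simpa using h1

end Fub90
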