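import Pool.Agent.LibFub90.AD1
import Pool.Agent.LibFub90.AD2
import Pool.Agent.LibFub90.Thin

/-! Task FUB-17: lower bounds, case B. -/

namespace Fub90

open Set Filter

variable {W : Type} [LinearOrder W] [WellFoundedLT W] [OmOne W] {S : Sys W}


private theorem PPB_fin_iUnion {G : ℕ → Finset Om} {E F : Set Om} (hF : F.Finite)
    (h : ∀ᶠ k in atTop, (G k : Set Om) ∩ E ⊆ F) : ((⋃ k, (G k : Set Om)) ∩ E).Finite := by
  obtain ⟨n, hn⟩ := eventually_atTop.1 h
  refine (hF.union ((Finset.range n).biUnion G).finite_toSet).subset ?_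
  rintro p ⟨hp, hpE⟩
  obtain ⟨k, hk⟩ := mem_iUnion.1 hp
  rcases lt_or_ge k n with hkn | hkn
  · right
    simp only [Finset.coe_biUnion, Finset.coe_range, mem_iUnion]
    exact ⟨k, hkn, hk⟩
  · left
    exact hn k hkn ⟨hk, hpE⟩

/-- Case B.
Proof: let `η₀` be above `θ` and all `(nd S (b k) (ξ k)).η`. Apply `decide_all` to
`X k = (nd S (b k) (ξ k)).X`, `J k = (nd S (b k) (ξ k)).J`, getting `ξ' ≥ η₀`, `X'`, `z`. By `thin`
(index set `Iio ξ' × ℕ`) pass to a subsequence along which every `z k γ i` converges, say to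
`g γ i`. Enumerate `Iio ξ'` as `γ_0, γ_1, …`. For every `γ < ξ'` with `∀ β ≥ γ, c β = none` there is
at most one pair `(W', y')` with `Val S c γ W'` and `S.code (W', y') = g γ`; let
`N γ = (S.ext (Jb S c γ) W' γ y').X` for this pair (`∅` if there is none); this is the set of the
node `app c γ W' y'` at `γ`, so it is eventually almost disjoint from `X k` (third property).
Let `Y k = X' k` minus the finite sets: `{p ∈ X' k | bit i of ev p (x γ_j) ≠ z k γ_j i}`
(`i, j ≤ k`); `N γ_j ∩ X k` if finite (`j ≤ k`); `X k \ (nd S c γ_j).X` if `(c γ_j).isSome` and this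
is finite (`j ≤ k`); `X k \ A k`. Apply `diag` to `Y`, `I k = J k` and the sequence of ideals from
`Jb_seq` for `c, ξ'`. The set `W₀ = ⋃ G k` satisfies `Val S c ξ' W₀`; finish with `app_valid`. -/
theorem pplus_B (c : Br W) (hc : Valid S c) (θ : W) (hθ : ∀ γ, θ ≤ γ → c γ = none)
    (b : ℕ → Br W) (ξ : ℕ → W) (hb : ∀ n, Valid S (b n))
    (hξ : ∀ n, (b n (ξ n)).isSome = true)
    (h1 : ∀ γ, (c γ).isSome = true → ∀ᶠ k in atTop, γ < ξ k ∧ ∀ β ≤ γ, b k β = c β)
    (h2 : ∀ (b' : Br W) (γ : W), Valid S b' → (b' γ).isSome = true → (∀ β < γ, b' β = c β) →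
          (∀ β, γ ≤ β → c β = none) →
          ∀ᶠ k in atTop, ((nd S b' γ).X ∩ (nd S (b k) (ξ k)).X).Finite)
    (A : ℕ → Set Om) (hA : ∀ n, A (n + 1) ⊆ A n)
    (hXA : ∀ k, ((nd S (b k) (ξ k)).X \ A k).Finite) :
    ∃ b : Br W, Valid S b ∧ ∃ ξ, (b ξ).isSome = true ∧ ∀ k, ((nd S b ξ).X \ A k).Finite := by
  classical
  -- the stage above everything
  obtain ⟨η₀, hη₀⟩ := OmOne.bdd (W := W)
    (fun n => Nat.casesOn n θ (fun k => max (ξ k) (nd S (b k) (ξ k)).η))
  have hθ0 : θ < η₀ := hη₀ 0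
  have hη0 : ∀ k, (nd S (b k) (ξ k)).η < η₀ := fun k => lt_of_le_of_lt (le_max_right _ _) (hη₀ (k + 1))
  have hξ0 : ∀ k, ξ k < η₀ := fun k => lt_of_le_of_lt (le_max_left _ _) (hη₀ (k + 1))
  have hfs : ∀ k, IsFS (nd S (b k) (ξ k)).J := fun k => (nd_fs (hb k) (hξ k)).1
  have hpos : ∀ k, Pos (nd S (b k) (ξ k)).X (nd S (b k) (ξ k)).J (S.L η₀) := fun k =>
    (nd_fs (hb k) (hξ k)).2.2.1.mono subset_rfl subset_rfl (S.ls.anti _ _ (hη0 k).le) (hfs k)
  obtain ⟨ξ', hξ', X', hX', hPX', z, hz⟩ := decide_all S.ls S.x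
    (fun k => (nd S (b k) (ξ k)).X) (fun k => (nd S (b k) (ξ k)).J) η₀ hfs hpos
  -- thinning
  haveI : Countable (Iio ξ') := (OmOne.cnt ξ').to_subtype
  obtain ⟨m, hm, g, hg⟩ := thin (ι := (Iio ξ') × ℕ) (fun k q => z k q.1 q.2)
  have hmt : Tendsto m atTop atTop := hm.tendsto_atTop
  -- enumeration
  haveI : Nonempty (Iio ξ') := ⟨⟨θ, hθ0.trans_le hξ'⟩⟩
  obtain ⟨e, he⟩ := exists_surjective_nat (Iio ξ')
  -- the exceptional sets
  have hex : ∀ γ : Iio ξ', ∃ N : Set Om, ∀ W' y', Val S c γ W' →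
      S.code (W', y') = (fun i => g (γ, i)) → (S.ext (Jb S c γ) W' γ y').X = N := by
    intro γ
    by_cases h : ∃ q : Set Om × Tk, Val S c γ q.1 ∧ S.code q = (fun i => g (γ, i))
    · obtain ⟨q, hq1, hq2⟩ := h
      refine ⟨(S.ext (Jb S c γ) q.1 γ q.2).X, ?_⟩
      intro W' y' _ h2
      have : (W', y') = q := S.inj (h2.trans hq2.symm)
      subst this
      rfl
    · refine ⟨∅, ?_⟩
      intro W' y' h1 h2
      exact absurd ⟨(W', y'), h1, h2⟩ h
  choose N hN using hex
  -- the sets removed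
  let R : ℕ → Set Om := fun k =>
    ((⋃ j ∈ Finset.range (k + 1), ⋃ i ∈ Finset.range (k + 1),
        {p ∈ X' (m k) | (ev p (S.x (e j))).testBit i ≠ z (m k) (e j) i}) ∪
     (⋃ j ∈ Finset.range (k + 1),
        if (N (e j) ∩ (nd S (b (m k)) (ξ (m k))).X).Finite then
          N (e j) ∩ (nd S (b (m k)) (ξ (m k))).X else ∅)) ∪
     ((⋃ j ∈ Finset.range (k + 1),
        if ((nd S (b (m k)) (ξ (m k))).X \ (nd S c (e j)).X).Finite then
          (nd S (b (m k)) (ξ (m k))).X \ (nd S c (e j)).X else ∅) ∪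
      ((nd S (b (m k)) (ξ (m k))).X \ A (m k)))
  have hR : ∀ k, (R k).Finite := by
    intro k
    refine Finite.union (Finite.union ?_ ?_) (Finite.union ?_ (hXA _))
    · refine Finite.biUnion (Finset.finite_toSet _) fun j _ => ?_
      refine Finite.biUnion (Finset.finite_toSet _) fun i _ => ?_
      exact hz (m k) (e j) (e j).2 i
    · refine Finite.biUnion (Finset.finite_toSet _) fun j _ => ?_
      split_ifs with h
      · exact h
      · exact finite_empty
    · refine Finite.biUnion (Finset.finite_toSet _) fun j _ => ?_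
      split_ifs with h
      · exact h
      · exact finite_empty
  let Y : ℕ → Set Om := fun k => X' (m k) \ R k
  have hYP : ∀ k, Pos (Y k) (nd S (b (m k)) (ξ (m k))).J (S.L ξ') := fun k =>
    (hPX' (m k)).diff_finite (hfs (m k)) (hR k)
  have hYX : ∀ k, Y k ⊆ (nd S (b (m k)) (ξ (m k))).X := fun k p hp => hX' _ hp.1
  -- the ideals
  obtain ⟨hJfs, Js, hJm, hJu, hJs⟩ := Jb_seq hc ξ'
  have hI : ∀ k, ∀ᶠ n in atTop, Js k ⊆ (nd S (b (m n)) (ξ (m n))).J := by
    intro k
    rcases (hJs k).2 with h | ⟨β, hβ, hβs, h⟩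
    · refine Eventually.of_forall fun n => ?_
      rw [h]
      intro B hB
      exact (hfs (m n)).fin B hB
    · filter_upwards [hmt.eventually (h1 β hβs)] with n hn
      rw [h]
      have h3 : nd S c β = nd S (b (m n)) β := nd_congr S (fun β' hβ' => (hn.2 β' hβ').symm)
      rw [h3]
      have h4 : (b (m n) β).isSome = true := by rw [hn.2 β le_rfl]; exact hβs
      exact (nd_lt (hb (m n)) hn.1 h4 (hξ (m n))).2.1
  obtain ⟨m', hm', G, hG, hGP⟩ := diag (S.L ξ') (S.ls.sig ξ') (S.ls.ne ξ') Js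
    (fun k => (hJs k).1) hJm Y (fun n => (nd S (b (m n)) (ξ (m n))).J) hI hYP
  have hmt' : Tendsto m' atTop atTop := hm'.tendsto_atTop
  rw [← hJu] at hGP
  -- facts about `Y`
  have hfact1 : ∀ β, (c β).isSome = true → β < ξ' →
      ∀ᶠ k in atTop, Y k ⊆ (nd S c β).X := by
    intro β hβs hβ
    obtain ⟨j, hj⟩ := he ⟨β, hβ⟩
    filter_upwards [hmt.eventually (h1 β hβs), eventually_ge_atTop j] with k hk hjk
    have h3 : nd S c β = nd S (b (m k)) β := nd_congr S (fun β' hβ' => (hk.2 β' hβ').symm)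
    have h4 : (b (m k) β).isSome = true := by rw [hk.2 β le_rfl]; exact hβs
    have h5 := (nd_lt (hb (m k)) hk.1 h4 (hξ (m k))).1
    rw [← h3] at h5
    intro p hp
    by_contra hcon
    apply hp.2
    refine Or.inr (Or.inl ?_)
    refine mem_biUnion (x := j) (by simp; omega) ?_
    have hej : ((e j : Iio ξ') : W) = β := by rw [hj]
    rw [hej, if_pos h5]
    exact ⟨hYX k hp, hcon⟩
  have hfact2 : ∀ γ (hγ : γ < ξ'), (∀ β, γ ≤ β → c β = none) → ∀ W' y', Val S c γ W' →
      ∃ F : Set Om, F.Finite ∧ ∀ᶠ k in atTop, Y k ∩ (S.ext (Jb S c γ) W' γ y').X ⊆ F := by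
    intro γ hγ hcγ W' y' hval
    obtain ⟨j, hj⟩ := he ⟨γ, hγ⟩
    by_cases hcode : S.code (W', y') = (fun i => g (⟨γ, hγ⟩, i))
    · refine ⟨∅, finite_empty, ?_⟩
      have hNE := hN ⟨γ, hγ⟩ W' y' hval hcode
      -- the node at `γ`
      have hv := app_valid hc y' hval
      have h2' := h2 (app c γ W' y') γ hv (by simp [app]) (by
        intro β hβ; simp [app, hβ]) hcγ
      have hnd : nd S (app c γ W' y') γ = S.ext (Jb S c γ) W' γ y' := by
        have h3 : app c γ W' y' γ = some (W', y') := by simp [app]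
        rw [nd_some S h3]
        have h4 : Jb S (app c γ W' y') γ = Jb S c γ := Jb_congr S (by
          intro β hβ; simp [app, hβ])
        rw [h4]
      rw [hnd] at h2'
      filter_upwards [hmt.eventually h2', eventually_ge_atTop j] with k hk hjk
      rintro p ⟨hp, hpE⟩
      exfalso
      apply hp.2
      refine Or.inl (Or.inr ?_)
      refine mem_biUnion (x := j) (by simp; omega) ?_
      rw [hj, ← hNE, if_pos hk]
      exact ⟨hpE, hYX k hp⟩
    · obtain ⟨i, hi⟩ : ∃ i, S.code (W', y') i ≠ g (⟨γ, hγ⟩, i) := by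
        by_contra hcon
        push Not at hcon
        exact hcode (funext hcon)
      have hok := S.ok (Jb S c γ) W' γ y' (Jb_seq hc γ).1 ((val_iff S c γ W').1 hval).2.1
      refine ⟨_, hok.bits i, ?_⟩
      filter_upwards [hg (⟨γ, hγ⟩, i), eventually_ge_atTop j, eventually_ge_atTop i] with k hk hjk hik
      rintro p ⟨hp, hpE⟩
      refine ⟨hpE, ?_⟩
      have hej : ((e j : Iio ξ') : W) = γ := by rw [hj]
      have h3 : (ev p (S.x γ)).testBit i = z (m k) γ i := by
        by_contra hcon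
        apply hp.2
        refine Or.inl (Or.inl ?_)
        refine mem_biUnion (x := j) (by simp; omega) ?_
        refine mem_biUnion (x := i) (by simp; omega) ?_
        refine ⟨hp.1, ?_⟩
        rw [hej]
        exact hcon
      rw [h3]
      have h4 : z (m k) γ i = g (⟨γ, hγ⟩, i) := hk
      rw [h4]
      exact fun h => hi h.symm
  have hfact3 : ∀ k, Y k ⊆ A (m k) := by
    intro k p hp
    by_contra hcon
    apply hp.2
    exact Or.inr (Or.inr ⟨hYX k hp, hcon⟩)
  have hAanti : Antitone A := antitone_nat_of_succ_le hA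
  -- the set
  have hval : Val S c ξ' (⋃ k, (G k : Set Om)) := by
    rw [val_iff]
    refine ⟨?_, hGP, ?_⟩
    · intro β hβ hβs
      constructor
      · obtain ⟨k, hk⟩ := (h1 β hβs).exists
        have h3 : nd S c β = nd S (b k) β := nd_congr S (fun β' hβ' => (hk.2 β' hβ').symm)
        have h4 : (b k β).isSome = true := by rw [hk.2 β le_rfl]; exact hβs
        rw [h3]
        exact (nd_lt (hb k) hk.1 h4 (hξ k)).2.2.1.trans ((hξ0 k).le.trans hξ')
      · rw [diff_eq]
        refine PPB_fin_iUnion finite_empty ?_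
        filter_upwards [hmt'.eventually (hfact1 β hβs hβ)] with k hk
        rintro p ⟨hp, hpE⟩
        exact absurd (hk (hG k hp)) hpE
    · intro γ hγ hcγ W' y' hW'
      have hcγ' : ∀ β, γ ≤ β → c β = none := by
        intro β hβ
        rcases lt_or_ge β ξ' with h | h
        · exact hcγ β hβ h
        · exact hθ β ((hθ0.le.trans hξ').trans h)
      obtain ⟨F, hF, hFk⟩ := hfact2 γ hγ hcγ' W' y' hW'
      refine PPB_fin_iUnion hF ?_
      filter_upwards [hmt'.eventually hFk] with k hk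
      rintro p ⟨hp, hpE⟩
      exact hk ⟨hG k hp, hpE⟩
  -- conclusion
  let y : Tk := (∅, fun _ => ∅)
  have hv := app_valid hc y hval
  have hs : app c ξ' (⋃ k, (G k : Set Om)) y ξ' = some (⋃ k, (G k : Set Om), y) := by simp [app]
  refine ⟨app c ξ' (⋃ k, (G k : Set Om)) y, hv, ξ', by rw [hs]; rfl, ?_⟩
  intro k
  have hsub := (nd_ok hv hs).sub
  refine Finite.subset ?_ (diff_subset_diff_left hsub)
  rw [diff_eq]
  refine PPB_fin_iUnion finite_empty ?_
  filter_upwards [eventually_ge_atTop k] with l hl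
  rintro p ⟨hp, hpE⟩
  have h3 : p ∈ A (m (m' l)) := hfact3 _ (hG l hp)
  have h4 : k ≤ m (m' l) := hl.trans ((hm'.le_apply).trans hm.le_apply)
  exact absurd (hAanti h4 h3) hpE

end Fub90
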