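import Pool.Agent.LibFub90.GoodDef
import Pool.Agent.LibFub90.Ideal
import Pool.Agent.LibFub90.PPA
import Pool.Agent.LibFub90.PPB
import Pool.Agent.LibFub90.Lim

/-! Task FUB-18: the combinatorial theorem. -/

namespace Fub90

open Set Filter

theorem Ip_pplus {W : Type} [LinearOrder W] [WellFoundedLT W] [OmOne W] {S : Sys W}
    (A : ℕ → Set Om) (hA : ∀ n, A n ∈ Ip S) (hd : ∀ n, A (n + 1) ⊆ A n) :
    ∃ B ∈ Ip S, ∀ n, (B \ A n).Finite := by
  have hanti : Antitone A := antitone_nat_of_succ_le hd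
  choose b0 hb0 ξ hξ0 hfin using hA
  -- truncated branches
  have hbt : ∀ n, Valid S (trunc (b0 n) (ξ n)) := fun n => trunc_valid (hb0 n) (ξ n)
  have hξt : ∀ n, (trunc (b0 n) (ξ n) (ξ n)).isSome = true := by
    intro n
    simp only [trunc, le_refl, if_true]
    exact hξ0 n
  have hend : ∀ n, ∀ γ, ξ n < γ → trunc (b0 n) (ξ n) γ = none := by
    intro n γ hγ
    simp only [trunc, if_neg (not_le.mpr hγ)]
  have hfin' : ∀ n, ((nd S (trunc (b0 n) (ξ n)) (ξ n)).X \ A n).Finite := by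
    intro n
    rw [nd_trunc (S := S) (b0 n) (le_refl (ξ n))]
    exact hfin n
  obtain ⟨m, hm, c, hc, hcase⟩ :=
    limit_branch (fun n => trunc (b0 n) (ξ n)) ξ hbt hξt hend
  have hmk : ∀ k, k ≤ m k := fun k => hm.id_le k
  -- it suffices to have a node almost inside every `A (m k)`
  suffices h : ∃ b : Br W, Valid S b ∧ ∃ ζ, (b ζ).isSome = true ∧
      ∀ k, ((nd S b ζ).X \ A (m k)).Finite by
    obtain ⟨b, hb, ζ, hζ, hk⟩ := h
    refine ⟨(nd S b ζ).X, ⟨b, hb, ζ, hζ, by simp⟩, fun n => ?_⟩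
    exact (hk n).subset (sdiff_subset_sdiff_right (hanti (hmk n)))
  rcases hcase with hA | ⟨⟨θ, hθ⟩, h1, h2⟩
  · have hζ : ∀ k, (c (ξ (m k))).isSome = true := by
      intro k
      rw [← hA k (ξ (m k)) le_rfl]
      exact hξt (m k)
    obtain ⟨b, hb, ζ, hζ', hk⟩ := pplus_A c hc (fun k => ξ (m k)) hζ
    refine ⟨b, hb, ζ, hζ', fun k => ?_⟩
    have hnd : nd S c (ξ (m k)) = nd S (trunc (b0 (m k)) (ξ (m k))) (ξ (m k)) :=
      nd_congr S (fun β hβ => (hA k β hβ).symm)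
    have h3 : ((nd S c (ξ (m k))).X \ A (m k)).Finite := by
      rw [hnd]
      exact hfin' (m k)
    refine ((hk k).union h3).subset ?_
    intro p hp
    by_cases hpc : p ∈ (nd S c (ξ (m k))).X
    · exact Or.inr ⟨hpc, hp.2⟩
    · exact Or.inl ⟨hp.1, hpc⟩
  · exact pplus_B c hc θ hθ (fun k => trunc (b0 (m k)) (ξ (m k))) (fun k => ξ (m k))
      (fun k => hbt (m k)) (fun k => hξt (m k)) h1 h2 (fun k => A (m k))
      (fun k => hanti (hm.monotone (Nat.le_succ k))) (fun k => hfin' (m k))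

theorem exists_good : ∃ P : Set (Set Om), Good Om P := by
  obtain ⟨W, i1, i2, i3⟩ := exists_omOne
  obtain ⟨S⟩ := exists_sys W
  exact ⟨Ip S, fun A B h hA => Ip_mono h hA, Ip_univ, fun A hA => Ip_infinite hA,
    fun A B h => Ip_union h, fun A hA => Ip_split hA, fun A hA hd => Ip_pplus A hA hd,
    fun A hA C hC hCm => Ip_at hA C hC hCm⟩

end Fub90
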