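import Pool.Agent.LibFub90.Tree

/-! Task FUB-11: the data depend only on the branch up to the stage (well-founded induction). -/

namespace Fub90

open Set

variable {W : Type} [LinearOrder W] [WellFoundedLT W] [OmOne W] (S : Sys W)

theorem nd_none_cong {b : Br W} {ξ : W} (h : b ξ = none) : nd S b ξ = ⟨∅, ∅, ξ⟩ := by
  rw [nd, WellFoundedLT.fix_eq]
  simp only [h]

private theorem Jb_congr_aux {b b' : Br W} {ξ : W} (h : ∀ β < ξ, b β = b' β)
    (h' : ∀ β < ξ, nd S b β = nd S b' β) : Jb S b ξ = Jb S b' ξ := by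
  ext A
  simp only [Jb, mem_ofPred_eq]
  constructor
  · rintro (hA | ⟨β, hβ, h1, h2⟩)
    · exact Or.inl hA
    · exact Or.inr ⟨β, hβ, by rw [← h β hβ]; exact h1, by rw [← h' β hβ]; exact h2⟩
  · rintro (hA | ⟨β, hβ, h1, h2⟩)
    · exact Or.inl hA
    · exact Or.inr ⟨β, hβ, by rw [h β hβ]; exact h1, by rw [h' β hβ]; exact h2⟩

theorem nd_congr {b b' : Br W} {ξ : W} (h : ∀ β ≤ ξ, b β = b' β) : nd S b ξ = nd S b' ξ := by
  induction ξ using WellFoundedLT.induction with
  | ind ξ ih =>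
    have hJ : Jb S b ξ = Jb S b' ξ := Jb_congr_aux S (fun β hβ => h β hβ.le)
      (fun β hβ => ih β hβ (fun γ hγ => h γ (hγ.trans hβ.le)))
    have he := h ξ le_rfl
    cases hb : b ξ with
    | none =>
      rw [nd_none_cong S hb, nd_none_cong S (he ▸ hb)]
    | some p =>
      obtain ⟨W₀, y⟩ := p
      rw [nd_some S hb, nd_some S (he ▸ hb), hJ]

theorem Jb_congr {b b' : Br W} {ξ : W} (h : ∀ β < ξ, b β = b' β) : Jb S b ξ = Jb S b' ξ :=
  Jb_congr_aux S h (fun _ hβ => nd_congr S (fun γ hγ => h γ (hγ.trans_lt hβ)))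

theorem Val_congr {b b' : Br W} {ξ : W} (h : ∀ β < ξ, b β = b' β) (W₀ : Set Om) :
    Val S b ξ W₀ ↔ Val S b' ξ W₀ := by
  induction ξ using WellFoundedLT.induction generalizing W₀ with
  | ind ξ ih =>
    have hn : ∀ β < ξ, nd S b β = nd S b' β :=
      fun β hβ => nd_congr S (fun γ hγ => h γ (hγ.trans_lt hβ))
    have hJ : Jb S b ξ = Jb S b' ξ := Jb_congr S h
    rw [val_iff, val_iff, hJ]
    refine and_congr ?_ (and_congr Iff.rfl ?_)
    · constructor
      · intro H β hβ hs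
        rw [← hn β hβ]
        exact H β hβ (by rw [h β hβ]; exact hs)
      · intro H β hβ hs
        rw [hn β hβ]
        exact H β hβ (by rw [← h β hβ]; exact hs)
    · constructor
      · intro H γ hγ hnone W' y' hV
        have hg : ∀ β < γ, b β = b' β := fun β hβ => h β (hβ.trans hγ)
        rw [← Jb_congr S hg]
        exact H γ hγ (fun β h1 h2 => by rw [h β h2]; exact hnone β h1 h2) W' y'
          ((ih γ hγ hg W').2 hV)
      · intro H γ hγ hnone W' y' hV
        have hg : ∀ β < γ, b β = b' β := fun β hβ => h β (hβ.trans hγ)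
        rw [Jb_congr S hg]
        exact H γ hγ (fun β h1 h2 => by rw [← h β h2]; exact hnone β h1 h2) W' y'
          ((ih γ hγ hg W').1 hV)

/-- if `b` has no node in `[γ, ξ)` then the ideals at `γ` and `ξ` agree -/
theorem Jb_skip {b : Br W} {γ ξ : W} (h : γ ≤ ξ) (hb : ∀ β, γ ≤ β → β < ξ → b β = none) :
    Jb S b ξ = Jb S b γ := by
  ext A
  simp only [Jb, mem_ofPred_eq]
  constructor
  · rintro (hA | ⟨β, hβ, h1, h2⟩)
    · exact Or.inl hA
    · refine Or.inr ⟨β, ?_, h1, h2⟩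
      by_contra hcon
      rw [hb β (not_lt.1 hcon) hβ] at h1
      simp at h1
  · rintro (hA | ⟨β, hβ, h1, h2⟩)
    · exact Or.inl hA
    · exact Or.inr ⟨β, hβ.trans_le h, h1, h2⟩

end Fub90
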