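import Pool.Agent.LibFub90.Diag

/-! Task FUB-4a: deciding sets. -/

namespace Fub90

open Set

variable {W : Type} [LinearOrder W] [WellFoundedLT W] [OmOne W] {L : W → Set CC}

/-- finitely many points of the Cantor space and an index can be left behind -/
theorem LS.avoid (hL : LS L) (F : Finset CC) (η : W) :
    ∃ η', η ≤ η' ∧ ∀ x ∈ F, x ∉ L η' := by
  classical
  induction F using Finset.induction_on with
  | empty => exact ⟨η, le_rfl, by simp⟩
  | insert a s _ ih =>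
    obtain ⟨η', h1, h2⟩ := ih
    obtain ⟨ξ, hξ⟩ := hL.emp a
    refine ⟨max η' ξ, h1.trans (le_max_left _ _), ?_⟩
    intro x hx hxL
    rcases Finset.mem_insert.1 hx with rfl | hx
    · exact hξ (hL.anti _ _ (le_max_right _ _) hxL)
    · exact h2 x hx (hL.anti _ _ (le_max_left _ _) hxL)

open Classical in
private theorem Dec1_box (F F₀ : Finset CC) (hd : ∀ x ∈ F, x ∉ F₀) (h h₀ : CC → ℕ) :
    box (F ∪ F₀) (fun x => if x ∈ F₀ then h₀ x else h x) = box F h ∩ box F₀ h₀ := by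
  ext p
  constructor
  · intro hp
    refine ⟨fun x hx => ?_, fun x hx => ?_⟩
    · have := hp x (Finset.mem_union_left _ hx)
      simpa only [if_neg (hd x hx)] using this
    · have := hp x (Finset.mem_union_right _ hx)
      simpa only [if_pos hx] using this
  · rintro ⟨h1, h2⟩ x hx
    by_cases hx0 : x ∈ F₀
    · simp only [if_pos hx0]
      exact h2 x hx0
    · simp only [if_neg hx0]
      rcases Finset.mem_union.1 hx with hx | hx
      · exact h1 x hx
      · exact absurd hx hx0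

/-- decision lemma: either for some `F₀ ⊆ L η`, `h₀` all further boxes meet `A ∩ X` positively, or
there is a box in which `A ∩ X` is null. -/
theorem decide_one (hL : LS L) {X : Set Om} {J : Set (Set Om)} {η : W} (hJ : IsFS J)
    (hP : Pos X J (L η)) (A : Set Om) :
    ∃ η', η ≤ η' ∧ ∃ X' ⊆ X, Pos X' J (L η') ∧ (X' ⊆ A ∨ Disjoint X' A) := by
  classical
  by_cases hcase : ∃ F₀ : Finset CC, (F₀ : Set CC) ⊆ L η ∧ ∃ h₀ : CC → ℕ,
      ∀ F : Finset CC, (F : Set CC) ⊆ L η → F₀ ⊆ F → ∀ h : CC → ℕ, (∀ x ∈ F₀, h x = h₀ x) →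
        A ∩ X ∩ box F h ∉ J
  · obtain ⟨F₀, hF₀, h₀, hall⟩ := hcase
    obtain ⟨η', hη, hav⟩ := hL.avoid F₀ η
    refine ⟨η', hη, A ∩ X ∩ box F₀ h₀, fun p hp => hp.1.2, ?_, Or.inl fun p hp => hp.1.1⟩
    intro F hF h hmem
    have hd : ∀ x ∈ F, x ∉ F₀ := fun x hx hx0 => hav x hx0 (hF hx)
    refine hall (F ∪ F₀) ?_ Finset.subset_union_right (fun x => if x ∈ F₀ then h₀ x else h x)
      (fun x hx => if_pos hx) ?_
    · rw [Finset.coe_union]
      exact union_subset (hF.trans (hL.anti _ _ hη)) hF₀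
    · refine hJ.sub ?_ hmem
      rw [Dec1_box F F₀ hd]
      rintro p ⟨hp1, hp2, hp3⟩
      exact ⟨⟨hp1, hp3⟩, hp2⟩
  · push Not at hcase
    obtain ⟨F₁, hF₁, -, h₁, -, hmem₁⟩ := hcase ∅ (by simp) (fun _ => 0)
    obtain ⟨η', hη, hav⟩ := hL.avoid F₁ η
    refine ⟨η', hη, (X ∩ box F₁ h₁) \ A, fun p hp => hp.1.1, ?_,
      Or.inr (disjoint_left.2 fun p hp hpA => hp.2 hpA)⟩
    intro F hF h hmem
    have hd : ∀ x ∈ F, x ∉ F₁ := fun x hx hx0 => hav x hx0 (hF hx)
    have hsub : ((F ∪ F₁ : Finset CC) : Set CC) ⊆ L η := by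
      rw [Finset.coe_union]
      exact union_subset (hF.trans (hL.anti _ _ hη)) hF₁
    refine hP (F ∪ F₁) hsub (fun x => if x ∈ F₁ then h₁ x else h x) ?_
    refine hJ.sub ?_ (hJ.union _ _ hmem hmem₁)
    rw [Dec1_box F F₁ hd]
    rintro p ⟨hp1, hp2, hp3⟩
    by_cases hpA : p ∈ A
    · right
      exact ⟨⟨hpA, hp1⟩, hp3⟩
    · left
      exact ⟨⟨⟨hp1, hp3⟩, hpA⟩, hp2⟩

end Fub90
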