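import Pool.Agent.LibFub90.Dec1

/-! Task FUB-4b: deciding sets. -/

namespace Fub90

open Set

variable {W : Type} [LinearOrder W] [WellFoundedLT W] [OmOne W] {L : W → Set CC}

theorem decide_seq (hL : LS L) {X : Set Om} {J : Set (Set Om)} {η : W} (hJ : IsFS J)
    (hP : Pos X J (L η)) (A : ℕ → Set Om) :
    ∃ η', η ≤ η' ∧ ∃ X' ⊆ X, Pos X' J (L η') ∧
      ∀ j, (X' \ A j).Finite ∨ (X' ∩ A j).Finite := by
  classical
  have step : ∀ (j : ℕ) (q : {q : W × Set Om // Pos q.2 J (L q.1)}),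
      ∃ q' : {q : W × Set Om // Pos q.2 J (L q.1)}, q.1.1 ≤ q'.1.1 ∧ q'.1.2 ⊆ q.1.2 ∧
        (q'.1.2 ⊆ A j ∨ Disjoint q'.1.2 (A j)) := by
    intro j q
    obtain ⟨η', h1, X', h2, h3, h4⟩ := decide_one hL hJ q.2 (A j)
    exact ⟨⟨(η', X'), h3⟩, h1, h2, h4⟩
  choose nxt hn1 hn2 hn3 using step
  let s : ℕ → {q : W × Set Om // Pos q.2 J (L q.1)} :=
    fun n => Nat.rec ⟨(η, X), hP⟩ (fun j q => nxt j q) n
  have s0 : s 0 = ⟨(η, X), hP⟩ := rfl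
  have ss : ∀ j, s (j + 1) = nxt j (s j) := fun j => rfl
  obtain ⟨a, ha⟩ := OmOne.bdd (fun n => (s n).1.1)
  have hPa : ∀ n, Pos (s n).1.2 J (L a) := fun n =>
    Pos.mono (s n).2 Subset.rfl Subset.rfl (hL.anti _ _ (ha n).le) hJ
  have hdec : ∀ n, (s (n + 1)).1.2 ⊆ (s n).1.2 := fun n => by
    rw [ss]
    exact hn2 n (s n)
  obtain ⟨Z, hZ0, hZ, hZP⟩ := pseudo (L a) (hL.sig a) (hL.ne a) J hJ (fun n => (s n).1.2) hdec hPa
  refine ⟨a, ?_, Z, ?_, hZP, ?_⟩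
  · have := ha 0
    rw [s0] at this
    exact this.le
  · rw [s0] at hZ0
    exact hZ0
  · intro j
    have h1 := hn3 j (s j)
    rw [← ss] at h1
    rcases h1 with h1 | h1
    · left
      refine (hZ (j + 1)).subset ?_
      rintro p ⟨hp, hpA⟩
      exact ⟨hp, fun h => hpA (h1 h)⟩
    · right
      refine (hZ (j + 1)).subset ?_
      rintro p ⟨hp, hpA⟩
      exact ⟨hp, fun h => (Set.disjoint_left.1 h1) h hpA⟩

end Fub90
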