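import Pool.Agent.LibFub90.Dec2

/-! Task FUB-4c: deciding sets. -/

namespace Fub90

open Set

variable {W : Type} [LinearOrder W] [WellFoundedLT W] [OmOne W] {L : W → Set CC}

private theorem Dec3_step (hL : LS L) (x : W → CC) (J : ℕ → Set (Set Om))
    (hJ : ∀ n, IsFS (J n)) (η : W) (X : ℕ → Set Om) (hP : ∀ n, Pos (X n) (J n) (L η)) :
    ∃ η', η ≤ η' ∧ ∃ X' : ℕ → Set Om, (∀ n, X' n ⊆ X n) ∧ (∀ n, Pos (X' n) (J n) (L η')) ∧
      ∀ n, ∀ γ < η, ∀ i, (X' n \ {p | (ev p (x γ)).testBit i = true}).Finite ∨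
        (X' n ∩ {p | (ev p (x γ)).testBit i = true}).Finite := by
  have hc : (insert (∅ : Set Om) (⋃ γ ∈ Iio η, ⋃ i : ℕ,
      {({p | (ev p (x γ)).testBit i = true} : Set Om)})).Countable := by
    refine Countable.insert _ ?_
    refine (OmOne.cnt η).biUnion fun γ _ => ?_
    exact countable_iUnion fun i => countable_singleton _
  obtain ⟨A, hA⟩ := hc.exists_eq_range ⟨∅, mem_insert _ _⟩
  have h1 := fun n => decide_seq hL (hJ n) (hP n) A
  choose e he X' hX' hPX' hdec using h1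
  obtain ⟨η', hη'⟩ := OmOne.bdd e
  refine ⟨η', (he 0).trans (hη' 0).le, X', hX', ?_, ?_⟩
  · intro n
    exact (hPX' n).mono subset_rfl subset_rfl (hL.anti _ _ (hη' n).le) (hJ n)
  · intro n γ hγ i
    have h2 : ({p | (ev p (x γ)).testBit i = true} : Set Om) ∈ range A := by
      rw [← hA]
      refine mem_insert_of_mem _ ?_
      refine mem_biUnion (x := γ) hγ ?_
      exact mem_iUnion.2 ⟨i, rfl⟩
    obtain ⟨j, hj⟩ := h2
    rw [← hj]
    exact hdec n j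

/-- simultaneous decision of all bits at all `x γ`, `γ < ξ`, while keeping positivity over `L ξ`
(iterate `decide_seq` `ω` times for all `n`; `ξ` is the least upper bound of the indices used) -/
theorem decide_all (hL : LS L) (x : W → CC) (X : ℕ → Set Om) (J : ℕ → Set (Set Om)) (η : W)
    (hJ : ∀ n, IsFS (J n)) (hP : ∀ n, Pos (X n) (J n) (L η)) :
    ∃ ξ, η ≤ ξ ∧ ∃ X' : ℕ → Set Om, (∀ n, X' n ⊆ X n) ∧ (∀ n, Pos (X' n) (J n) (L ξ)) ∧
      ∃ z : ℕ → W → ℕ → Bool, ∀ n, ∀ γ < ξ, ∀ i,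
        {p ∈ X' n | (ev p (x γ)).testBit i ≠ z n γ i}.Finite := by
  classical
  -- the iteration
  have hstep : ∀ q : {q : W × (ℕ → Set Om) // ∀ n, Pos (q.2 n) (J n) (L q.1)},
      ∃ q' : {q : W × (ℕ → Set Om) // ∀ n, Pos (q.2 n) (J n) (L q.1)},
        q.1.1 ≤ q'.1.1 ∧ (∀ n, q'.1.2 n ⊆ q.1.2 n) ∧
        ∀ n, ∀ γ < q.1.1, ∀ i, (q'.1.2 n \ {p | (ev p (x γ)).testBit i = true}).Finite ∨
          (q'.1.2 n ∩ {p | (ev p (x γ)).testBit i = true}).Finite := by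
    rintro ⟨⟨e, Z⟩, hq⟩
    obtain ⟨η', h1, X', h2, h3, h4⟩ := Dec3_step hL x J hJ e Z hq
    exact ⟨⟨⟨η', X'⟩, h3⟩, h1, h2, h4⟩
  choose nx hnx1 hnx2 hnx3 using hstep
  let q : ℕ → {q : W × (ℕ → Set Om) // ∀ n, Pos (q.2 n) (J n) (L q.1)} :=
    fun j => Nat.rec ⟨⟨η, X⟩, hP⟩ (fun _ r => nx r) j
  have hq0 : q 0 = ⟨⟨η, X⟩, hP⟩ := rfl
  have hqs : ∀ j, q (j + 1) = nx (q j) := fun j => rfl
  -- the least upper bound
  obtain ⟨a, ha⟩ := OmOne.bdd (fun j => (q j).1.1)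
  obtain ⟨ξ, hξ, hmin⟩ : ∃ ξ, (∀ j, (q j).1.1 ≤ ξ) ∧ ∀ γ < ξ, ¬ ∀ j, (q j).1.1 ≤ γ := by
    have hne : {ξ : W | ∀ j, (q j).1.1 ≤ ξ}.Nonempty := ⟨a, fun j => (ha j).le⟩
    refine ⟨wellFounded_lt.min _ hne, wellFounded_lt.min_mem _ hne, ?_⟩
    intro γ hγ hcon
    exact wellFounded_lt.not_lt_min {ξ : W | ∀ j, (q j).1.1 ≤ ξ} (x := γ) hcon hγ
  have hps : ∀ n, ∃ Z, Z ⊆ (q 0).1.2 n ∧ (∀ j, (Z \ (q j).1.2 n).Finite) ∧
      Pos Z (J n) (L ξ) := by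
    intro n
    refine pseudo (L ξ) (hL.sig ξ) (hL.ne ξ) (J n) (hJ n) (fun j => (q j).1.2 n) ?_ ?_
    · intro j
      rw [hqs j]
      exact hnx2 (q j) n
    · intro j
      exact ((q j).2 n).mono subset_rfl subset_rfl (hL.anti _ _ (hξ j)) (hJ n)
  choose Z hZ0 hZd hZP using hps
  refine ⟨ξ, hξ 0, Z, hZ0, hZP,
    fun n γ i => if (Z n \ {p | (ev p (x γ)).testBit i = true}).Finite then true else false, ?_⟩
  intro n γ hγ i
  by_cases hfin : (Z n \ {p | (ev p (x γ)).testBit i = true}).Finite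
  · simp only [if_pos hfin]
    exact hfin.subset (fun p hp => ⟨hp.1, hp.2⟩)
  · simp only [if_neg hfin]
    have h1 := hmin γ hγ
    push Not at h1
    obtain ⟨j, hj⟩ := h1
    have h2 := hnx3 (q j) n γ hj i
    rw [← hqs j] at h2
    have h3 := hZd n (j + 1)
    rcases h2 with h2 | h2
    · exfalso
      apply hfin
      refine (h2.union h3).subset ?_
      rintro p ⟨hp, hp'⟩
      by_cases hpq : p ∈ (q (j + 1)).1.2 n
      · exact Or.inl ⟨hpq, hp'⟩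
      · exact Or.inr ⟨hp, hpq⟩
    · refine (h2.union h3).subset ?_
      rintro p ⟨hp, hp'⟩
      by_cases hpq : p ∈ (q (j + 1)).1.2 n
      · refine Or.inl ⟨hpq, ?_⟩
        simpa using hp'
      · exact Or.inr ⟨hp, hpq⟩

end Fub90
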