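import Mathlib

/-!
# Fubini squares of generic ultrafilters: basic definitions (part 1, combinatorics)

`Om` is a countable set of points; every point `p` has a value `ev p x : ℕ` at every `x`
of the Cantor space, depending only on finitely many coordinates of `x`.
-/

namespace Fub90

open Set

/-- the Cantor space -/
abbrev CC := ℕ → Bool

/-- the countable set of points: pairs `(n, f)` with `f : 2^n → ℕ` -/
abbrev Om := Σ n : ℕ, ((Fin n → Bool) → ℕ)

/-- the value of the point `p` at `x` -/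
def ev (p : Om) (x : CC) : ℕ := p.2 (fun i => x i)

/-- all points whose values on the finite set `F` are prescribed by `h` -/
def box (F : Finset CC) (h : CC → ℕ) : Set Om := {p | ∀ x ∈ F, ev p x = h x}

/-- hereditary families of finite sets -/
def Her {α : Type} (D : Set (Finset α)) : Prop := ∀ F G : Finset α, F ⊆ G → G ∈ D → F ∈ D

/-- the sets all of whose finite subsets are in `D`: for hereditary `D` these are exactly the
closed hereditary families of sets -/
def cls {α : Type} (D : Set (Finset α)) : Set (Set α) :=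
  {Y | ∀ F : Finset α, (F : Set α) ⊆ Y → F ∈ D}

/-- finite sets covered by a member of `C` and a member of `D` -/
def jn {α : Type} (C D : Set (Finset α)) : Set (Finset α) :=
  {F | ∃ F₁ ∈ C, ∃ F₂ ∈ D, (F : Set α) ⊆ (F₁ : Set α) ∪ (F₂ : Set α)}

/-- finite sets covered by `k` members of `C` -/
def nf {α : Type} (C : Set (Finset α)) : ℕ → Set (Finset α)
  | 0 => {∅}
  | k + 1 => jn (nf C k) C

/-- `F_σ` ideals containing the finite sets (properness is not included) -/
structure IsFS {α : Type} (J : Set (Set α)) : Prop where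
  fin : ∀ A : Set α, A.Finite → A ∈ J
  union : ∀ A B : Set α, A ∈ J → B ∈ J → A ∪ B ∈ J
  rep : ∃ D : ℕ → Set (Finset α), (∀ k, Her (D k)) ∧ (∀ k, D k ⊆ D (k + 1)) ∧
    ∀ Y : Set α, Y ∈ J ↔ ∃ k, Y ∈ cls (D k)

/-- the ideal of finite sets -/
def FinI (α : Type) : Set (Set α) := {A | A.Finite}

/-- `σ`-compact subsets of the Cantor space -/
def SigC (L : Set CC) : Prop :=
  ∃ K : ℕ → Set CC, (∀ k, IsClosed (K k)) ∧ (∀ k, K k ⊆ K (k + 1)) ∧ L = ⋃ k, K k

/-- `X` is `J`-positive, even after prescribing the values at finitely many points of `L` -/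
def Pos (X : Set Om) (J : Set (Set Om)) (L : Set CC) : Prop :=
  ∀ F : Finset CC, (F : Set CC) ⊆ L → ∀ h : CC → ℕ, X ∩ box F h ∉ J

/-- the dichotomy at `X` for the sequence `C` -/
def AT (X : Set Om) (J : Set (Set Om)) (C : ℕ → Set (Finset Om)) : Prop :=
  (∃ m, X ∈ cls (C m)) ∨
    ∃ G : ℕ → Finset Om, ∀ Y : Set Om,
      (∀ m, ∀ F : Finset Om, (F : Set Om) ⊆ Y → F ⊆ G m → F ∈ C m) → Y ∈ J

/-- a decreasing `W`-sequence of nonempty `σ`-compact sets with empty intersection -/
structure LS {W : Type} [LinearOrder W] (L : W → Set CC) : Prop where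
  sig : ∀ ξ, SigC (L ξ)
  ne : ∀ ξ, (L ξ).Nonempty
  anti : ∀ ξ η, ξ ≤ η → L η ⊆ L ξ
  emp : ∀ x : CC, ∃ ξ, x ∉ L ξ

/-- the values of `p` at `x 0, …, x (k-1)` are prescribed by `H` applied to the first `k` bits -/
def bx (k : ℕ) (x : Fin k → CC) (H : (Fin k → Bool) → ℕ) : Set Om :=
  {p | ∀ i, ev p (x i) = H (fun j => x i j)}

/-- the data carried by a node of the tree -/
structure Dat (W : Type) where
  X : Set Om
  J : Set (Set Om)
  η : W

/-- tasks: a set to be decided and a sequence for the dichotomy -/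
abbrev Tk := Set Om × (ℕ → Set (Finset Om))

/-- `d` is a good node over `(J, W₀)` at stage `ξ`, for the task `y`, with code `c` -/
structure ExtOK {W : Type} [LinearOrder W] (L : W → Set CC) (x : W → CC) (c : ℕ → Bool)
    (J : Set (Set Om)) (W₀ : Set Om) (ξ : W) (y : Tk) (d : Dat W) : Prop where
  sub : d.X ⊆ W₀
  le : J ⊆ d.J
  fs : IsFS d.J
  lt : ξ < d.η
  pos : Pos d.X d.J (L d.η)
  bits : ∀ i, {p ∈ d.X | (ev p (x ξ)).testBit i ≠ c i}.Finite
  dec : d.X ⊆ y.1 ∨ Disjoint d.X y.1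
  at_ : (∀ m, Her (y.2 m)) → (∀ m, y.2 m ⊆ y.2 (m + 1)) → AT d.X d.J y.2

/-- the properties of an initial part (with index set `S`) of a Hausdorff gap -/
structure GapInv {W : Type} [LinearOrder W] (a b : W → Set ℕ) (S : Set W) : Prop where
  disj : ∀ α ∈ S, Disjoint (a α) (b α)
  room : ∀ α ∈ S, (a α ∪ b α)ᶜ.Infinite
  incA : ∀ α ∈ S, ∀ β ∈ S, α < β → (a α \ a β).Finite ∧ (a β \ a α).Infinite
  incB : ∀ α ∈ S, ∀ β ∈ S, α < β → (b α \ b β).Finite
  haus : ∀ α ∈ S, ∀ n : ℕ, {β ∈ S | β < α ∧ a β ∩ b α ⊆ Iio n}.Finite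

/-- well orders of type `ω₁`, abstractly -/
class OmOne (W : Type) [LinearOrder W] [WellFoundedLT W] : Prop where
  ne : Nonempty W
  cnt : ∀ ξ : W, (Iio ξ).Countable
  bdd : ∀ f : ℕ → W, ∃ a, ∀ n, f n < a

end Fub90
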