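import Pool.Agent.LibFub90.Defs

/-! Task FUB-2a: compactness of the Cantor space. -/

namespace Fub90

open Set

private theorem unif_eventually (k : ℕ) (H : (Fin k → Bool) → ℕ) (x : Fin k → CC)
    (F : Finset Om) (hF : (F : Set Om) ⊆ bx k x H) :
    ∀ᶠ x' in nhds x, (F : Set Om) ⊆ bx k x' H := by
  have h1 : ∀ p ∈ F, ∀ i : Fin k, ∀ᶠ x' : Fin k → CC in nhds x,
      ev p (x' i) = H (fun j => x' i j) := by
    intro p hp i
    have hc1 : Continuous (fun x' : Fin k → CC => ev p (x' i)) := by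
      have h2 : Continuous (fun x' : Fin k → CC => (fun j : Fin p.1 => x' i j)) := by
        fun_prop
      exact (continuous_of_discreteTopology (f := p.2)).comp h2
    have hc2 : Continuous (fun x' : Fin k → CC => H (fun j : Fin k => x' i j)) := by
      have h2 : Continuous (fun x' : Fin k → CC => (fun j : Fin k => x' i j)) := by
        fun_prop
      exact (continuous_of_discreteTopology (f := H)).comp h2
    have e1 : ∀ᶠ x' : Fin k → CC in nhds x, ev p (x' i) = ev p (x i) := by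
      have h3 : {n : ℕ | n = ev p (x i)} ∈ nhds (ev p (x i)) := by simp [nhds_discrete]
      exact (hc1.tendsto x) h3
    have e2 : ∀ᶠ x' : Fin k → CC in nhds x, H (fun j => x' i j) = H (fun j => x i j) := by
      have h3 : {n : ℕ | n = H (fun j : Fin k => x i j)} ∈ nhds (H (fun j : Fin k => x i j)) := by
        simp [nhds_discrete]
      exact (hc2.tendsto x) h3
    filter_upwards [e1, e2] with x' h3 h4
    rw [h3, h4]
    exact hF hp i
  have h2 : ∀ᶠ x' : Fin k → CC in nhds x, ∀ p ∈ F, ∀ i : Fin k,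
      ev p (x' i) = H (fun j => x' i j) := by
    rw [Finset.eventually_all]
    intro p hp
    rw [Filter.eventually_all]
    exact h1 p hp
  filter_upwards [h2] with x' h3
  exact fun p hp i => h3 p hp i

private theorem unif_one (K : Set CC) (hK : IsClosed K) (k : ℕ) (X : Set Om)
    (E : Set (Finset Om)) (H : (Fin k → Bool) → ℕ)
    (h : ∀ x : Fin k → CC, (∀ i, x i ∈ K) → X ∩ bx k x H ∉ cls E) :
    ∃ G : Finset Om, (G : Set Om) ⊆ X ∧ ∀ x : Fin k → CC, (∀ i, x i ∈ K) →
      ∃ F : Finset Om, F ⊆ G ∧ (F : Set Om) ⊆ bx k x H ∧ F ∉ E := by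
  classical
  have hT : IsCompact {x : Fin k → CC | ∀ i, x i ∈ K} := by
    apply IsClosed.isCompact
    have : {x : Fin k → CC | ∀ i, x i ∈ K} = ⋂ i, {x : Fin k → CC | x i ∈ K} := by
      ext x; simp
    rw [this]
    exact isClosed_iInter fun i => hK.preimage (continuous_apply i)
  have key := hT.induction_on (p := fun S : Set (Fin k → CC) =>
    ∃ G : Finset Om, (G : Set Om) ⊆ X ∧ ∀ x ∈ S,
      ∃ F : Finset Om, F ⊆ G ∧ (F : Set Om) ⊆ bx k x H ∧ F ∉ E)
    ⟨∅, by simp, by simp⟩
    (by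
      rintro s t hst ⟨G, hG, h1⟩
      exact ⟨G, hG, fun x hx => h1 x (hst hx)⟩)
    (by
      rintro s t ⟨G, hG, h1⟩ ⟨G', hG', h1'⟩
      refine ⟨G ∪ G', ?_, ?_⟩
      · rw [Finset.coe_union]
        exact union_subset hG hG'
      · rintro x (hx | hx)
        · obtain ⟨F, hF, h2⟩ := h1 x hx
          exact ⟨F, hF.trans Finset.subset_union_left, h2⟩
        · obtain ⟨F, hF, h2⟩ := h1' x hx
          exact ⟨F, hF.trans Finset.subset_union_right, h2⟩)
    (by
      intro x hx
      have h1 := h x hx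
      simp only [cls] at h1
      have h2 : ∃ F : Finset Om, (F : Set Om) ⊆ X ∩ bx k x H ∧ F ∉ E := by
        by_contra hcon
        push Not at hcon
        exact h1 hcon
      obtain ⟨F, hF, hFE⟩ := h2
      refine ⟨{x' | (F : Set Om) ⊆ bx k x' H}, ?_, F, hF.trans inter_subset_left, ?_⟩
      · exact mem_nhdsWithin_of_mem_nhds (unif_eventually k H x F (hF.trans inter_subset_right))
      · intro x' hx'
        exact ⟨F, Finset.Subset.refl F, hx', hFE⟩)
  obtain ⟨G, hG, h1⟩ := key
  exact ⟨G, hG, fun x hx => h1 x hx⟩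

/-- If no set `X ∩ bx k x H` with all `x i ∈ K` and `H ≤ k` is in `cls E`, then one finite subset
of `X` witnesses this for all `x, H` at once. (Only finitely many `H` matter: `H ≤ k` on a finite
type. For fixed `H` and `x`, a finite `F ⊆ X ∩ bx k x H` with `F ∉ E` works for all `x'` in a
neighbourhood of `x`, because `ev p` and the first `k` bits are locally constant. Use compactness
of `{x | ∀ i, x i ∈ K}`, a closed subset of a compact space.) -/
theorem unif (K : Set CC) (hK : IsClosed K) (k : ℕ) (X : Set Om) (E : Set (Finset Om)) (hE : Her E)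
    (h : ∀ x : Fin k → CC, (∀ i, x i ∈ K) → ∀ H : (Fin k → Bool) → ℕ, (∀ s, H s ≤ k) →
      X ∩ bx k x H ∉ cls E) :
    ∃ G : Finset Om, (G : Set Om) ⊆ X ∧ ∀ x : Fin k → CC, (∀ i, x i ∈ K) →
      ∀ H : (Fin k → Bool) → ℕ, (∀ s, H s ≤ k) → (G : Set Om) ∩ bx k x H ∉ cls E := by
  classical
  have _ := hE
  have hfin : {H : (Fin k → Bool) → ℕ | ∀ s, H s ≤ k}.Finite := by
    have := Set.Finite.pi' (fun _ : Fin k → Bool => Set.finite_Iic k)
    exact this
  have h1 : ∀ H : (Fin k → Bool) → ℕ, ∃ G : Finset Om, (G : Set Om) ⊆ X ∧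
      ((∀ s, H s ≤ k) → ∀ x : Fin k → CC, (∀ i, x i ∈ K) →
        ∃ F : Finset Om, F ⊆ G ∧ (F : Set Om) ⊆ bx k x H ∧ F ∉ E) := by
    intro H
    by_cases hH : ∀ s, H s ≤ k
    · obtain ⟨G, hG, h2⟩ := unif_one K hK k X E H (fun x hx => h x hx H hH)
      exact ⟨G, hG, fun _ => h2⟩
    · exact ⟨∅, by simp, fun h' => absurd h' hH⟩
  choose G hG h2 using h1
  refine ⟨hfin.toFinset.biUnion G, ?_, ?_⟩
  · intro p hp
    simp only [Finset.coe_biUnion, mem_iUnion] at hp
    obtain ⟨H, _, hp⟩ := hp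
    exact hG H hp
  · intro x hx H hH hcon
    obtain ⟨F, hFG, hFb, hFE⟩ := h2 H hH x hx
    apply hFE
    apply hcon F
    intro p hp
    refine ⟨?_, hFb hp⟩
    have : p ∈ hfin.toFinset.biUnion G := by
      rw [Finset.mem_biUnion]
      exact ⟨H, hfin.mem_toFinset.2 hH, hFG hp⟩
    exact this

end Fub90
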