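import Pool.Agent.LibFub90.FS
import Pool.Agent.LibFub90.Unif
import Pool.Agent.LibFub90.BxBox

/-! Task FUB-3: the diagonal lemma. -/

namespace Fub90

open Set

theorem Pos.mono {X X' : Set Om} {J J' : Set (Set Om)} {L L' : Set CC} (h : Pos X J L)
    (hX : X ⊆ X') (hJ : J' ⊆ J) (hL : L' ⊆ L) (hJ' : IsFS J') : Pos X' J' L' := by
  intro F hF v hmem
  refine h F (hF.trans hL) v (hJ ?_)
  exact hJ'.sub (inter_subset_inter_left _ hX) hmem

theorem Pos.diff_finite {X : Set Om} {J : Set (Set Om)} {L : Set CC} (h : Pos X J L)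
    (hJ : IsFS J) {F : Set Om} (hF : F.Finite) : Pos (X \ F) J L := by
  intro S hS v hmem
  refine h S hS v ?_
  refine hJ.sub (B := ((X \ F) ∩ box S v) ∪ F) ?_ (hJ.union _ _ hmem (hJ.fin F hF))
  intro p hp
  by_cases hpF : p ∈ F
  · exact Or.inr hpF
  · exact Or.inl ⟨⟨hp.1, hpF⟩, hp.2⟩

theorem Diag_mono {α : Type} {E : ℕ → Set (Finset α)} (hE : ∀ k, E k ⊆ E (k + 1)) {j k : ℕ}
    (hjk : j ≤ k) : E j ⊆ E k :=
  monotone_nat_of_le_succ hE hjk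

/-- diagonal lemma -/
theorem diag (L : Set CC) (hL : SigC L) (hne : L.Nonempty) (J : ℕ → Set (Set Om))
    (hJ : ∀ k, IsFS (J k)) (hJm : ∀ k, J k ⊆ J (k + 1)) (Y : ℕ → Set Om)
    (I : ℕ → Set (Set Om)) (hI : ∀ k, ∀ᶠ n in Filter.atTop, J k ⊆ I n)
    (hP : ∀ n, Pos (Y n) (I n) L) :
    ∃ m : ℕ → ℕ, StrictMono m ∧ ∃ G : ℕ → Finset Om, (∀ k, (G k : Set Om) ⊆ Y (m k)) ∧
      Pos (⋃ k, (G k : Set Om)) (⋃ k, J k) L := by
  obtain ⟨K, hKc, hKm, rfl⟩ := hL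
  obtain ⟨-, E, hEher, hEm, hEJ, hE⟩ := isFS_iUnion J hJ hJm
  have hstep : ∀ k, ∀ᶠ n in Filter.atTop, ∃ G : Finset Om, (G : Set Om) ⊆ Y n ∧
      ∀ x : Fin k → CC, (∀ i, x i ∈ K k) → ∀ H : (Fin k → Bool) → ℕ, (∀ s, H s ≤ k) →
        (G : Set Om) ∩ bx k x H ∉ cls (E k) := by
    intro k
    filter_upwards [hI k] with n hn
    refine unif (K k) (hKc k) k (Y n) (E k) (hEher k) ?_
    intro x hx H _ hmem
    obtain ⟨F, hF, h, hsub⟩ := bx_box (⋃ k, K k) k x (fun i => mem_iUnion.mpr ⟨k, hx i⟩) H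
    refine hP n F hF h (hn ?_)
    exact (hJ k).sub (inter_subset_inter_right _ hsub) (hEJ k hmem)
  obtain ⟨m, hm, hG⟩ := Filter.extraction_forall_of_eventually hstep
  choose G hG1 hG2 using hG
  refine ⟨m, hm, G, hG1, ?_⟩
  intro F hF h hmem
  obtain ⟨j, hj⟩ := hE _ hmem
  obtain ⟨k₀, hk₀⟩ := typek K hKm hne F hF h
  obtain ⟨x, hx, H, hH, hsub⟩ := hk₀ (max k₀ j) (le_max_left _ _)
  refine hG2 (max k₀ j) x hx H hH ?_
  intro S hS
  refine Diag_mono hEm (le_max_right k₀ j) (hj S ?_)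
  intro p hp
  have := hS hp
  exact ⟨mem_iUnion.mpr ⟨_, this.1⟩, hsub this.2⟩

/-- pseudo-intersections -/
theorem pseudo (L : Set CC) (hL : SigC L) (hne : L.Nonempty) (J : Set (Set Om)) (hJ : IsFS J)
    (Y : ℕ → Set Om) (hY : ∀ n, Y (n + 1) ⊆ Y n) (hP : ∀ n, Pos (Y n) J L) :
    ∃ Z, Z ⊆ Y 0 ∧ (∀ n, (Z \ Y n).Finite) ∧ Pos Z J L := by
  obtain ⟨m, hm, G, hG, hpos⟩ := diag L hL hne (fun _ => J) (fun _ => hJ) (fun _ => subset_rfl) Y
    (fun _ => J) (fun _ => Filter.Eventually.of_forall (fun _ => subset_rfl)) hP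
  rw [iUnion_const] at hpos
  have hanti : Antitone Y := antitone_nat_of_succ_le hY
  refine ⟨⋃ k, (G k : Set Om), ?_, ?_, hpos⟩
  · exact iUnion_subset fun k => (hG k).trans (hanti (Nat.zero_le _))
  · intro n
    refine Set.Finite.subset (s := ⋃ k ∈ Set.Iio n, (G k : Set Om)) ?_ ?_
    · exact Set.Finite.biUnion (Set.finite_Iio n) (fun k _ => (G k).finite_toSet)
    · rintro p ⟨hp, hpn⟩
      obtain ⟨k, hk⟩ := mem_iUnion.mp hp
      refine mem_iUnion₂.mpr ⟨k, ?_, hk⟩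
      by_contra hkn
      have hnk : n ≤ k := not_lt.mp hkn
      exact hpn (hanti (hnk.trans (hm.id_le k)) (hG k hk))

end Fub90
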