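import Pool.Agent.LibFub90.Label
import Pool.Agent.LibFub90.ATL

/-! Task FUB-7: the extension lemma. -/

namespace Fub90

open Set

variable {W : Type} [LinearOrder W] [WellFoundedLT W] [OmOne W] {L : W → Set CC}

/-- combine `label`, `decide_one`, `at_lemma` (with `J, X` shrinking), and raise `η` above `ξ` -/
theorem exists_ext (hL : LS L) (x : W → CC) (hx : ∀ ξ, x ξ ∈ L ξ) (c : ℕ → Bool)
    (J : Set (Set Om)) (W₀ : Set Om) (ξ : W) (y : Tk) (hJ : IsFS J) (hP : Pos W₀ J (L ξ)) :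
    ∃ d : Dat W, ExtOK L x c J W₀ ξ y d := by
  obtain ⟨η₁, hη₁, X₁, hX₁, hP₁, hbits⟩ := label hL hJ hP (x ξ) (hx ξ) c
  obtain ⟨η₂, hη₂, X₂, hX₂, hP₂, hdec⟩ := decide_one hL hJ hP₁ y.1
  have h3 : ∃ η₃, η₂ ≤ η₃ ∧ ∃ X₃ ⊆ X₂, ∃ J₃, J ⊆ J₃ ∧ IsFS J₃ ∧ Pos X₃ J₃ (L η₃) ∧
      ((∀ m, Her (y.2 m)) → (∀ m, y.2 m ⊆ y.2 (m + 1)) → AT X₃ J₃ y.2) := by
    by_cases hy : (∀ m, Her (y.2 m)) ∧ (∀ m, y.2 m ⊆ y.2 (m + 1))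
    · obtain ⟨η₃, h1, X₃, h2, J₃, h3, h4, h5, h6⟩ := at_lemma hL hJ hP₂ y.2 hy.1 hy.2
      exact ⟨η₃, h1, X₃, h2, J₃, h3, h4, h5, fun _ _ => h6⟩
    · exact ⟨η₂, le_rfl, X₂, Subset.rfl, J, Subset.rfl, hJ, hP₂, fun h1 h2 => absurd ⟨h1, h2⟩ hy⟩
  obtain ⟨η₃, hη₃, X₃, hX₃, J₃, hJ₃, hFS, hP₃, hAT⟩ := h3
  obtain ⟨η₄, hη₄⟩ := OmOne.bdd (fun _ : ℕ => η₃)
  refine ⟨⟨X₃, J₃, η₄⟩, ?_⟩
  constructor
  · exact hX₃.trans (hX₂.trans hX₁)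
  · exact hJ₃
  · exact hFS
  · exact lt_of_le_of_lt (hη₁.trans (hη₂.trans hη₃)) (hη₄ 0)
  · intro F hF h
    exact hP₃ F (hF.trans (hL.anti _ _ (hη₄ 0).le)) h
  · intro i
    exact (hbits i).subset fun p hp => ⟨hX₂ (hX₃ hp.1), hp.2⟩
  · rcases hdec with h | h
    · exact Or.inl (hX₃.trans h)
    · exact Or.inr (h.mono_left hX₃)
  · exact hAT

end Fub90
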