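import Pool.Agent.LibFub90.Defs

/-! Task FUB-1: `F_σ` ideals. -/

namespace Fub90

open Set

theorem IsFS.sub {α : Type} {J : Set (Set α)} (hJ : IsFS J) {A B : Set α} (h : A ⊆ B)
    (hB : B ∈ J) : A ∈ J := by
  obtain ⟨D, -, -, hD⟩ := hJ.rep
  obtain ⟨k, hk⟩ := (hD B).1 hB
  exact (hD A).2 ⟨k, fun F hF => hk F (hF.trans h)⟩

theorem jn_her {α : Type} {C D : Set (Finset α)} (hC : Her C) (hD : Her D) : Her (jn C D) := by
  rintro F G hFG ⟨F₁, h₁, F₂, h₂, h⟩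
  exact ⟨F₁, h₁, F₂, h₂, (Finset.coe_subset.2 hFG).trans h⟩

/-- compactness: a set all of whose finite subsets are covered by a member of `C` and a member of
`D` is covered by a member of `cls C` and a member of `cls D`
(hint: let `U` be an ultrafilter on `Finset α` finer than `atTop`; for every finite `F ⊆ Y` choose
`F₁ F, F₂ F`; put `A = {a ∈ Y | ∀ᶠ F in U, a ∈ F₁ F}`, `B` likewise). -/
theorem cls_jn {α : Type} {C D : Set (Finset α)} (hC : Her C) (hD : Her D) {Y : Set α}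
    (hY : Y ∈ cls (jn C D)) : ∃ A ∈ cls C, ∃ B ∈ cls D, Y = A ∪ B := by
  classical
  have hsel : ∀ F : Finset α, ∃ F₁ F₂ : Finset α, F₁ ∈ C ∧ F₂ ∈ D ∧
      ∀ a ∈ F, a ∈ Y → a ∈ F₁ ∨ a ∈ F₂ := by
    intro F
    obtain ⟨F₁, h₁, F₂, h₂, h⟩ := hY (F.filter (· ∈ Y)) (by
      intro a ha
      exact (Finset.mem_filter.1 (Finset.mem_coe.1 ha)).2)
    refine ⟨F₁, F₂, h₁, h₂, fun a haF haY => ?_⟩
    have := h (Finset.mem_coe.2 (Finset.mem_filter.2 ⟨haF, haY⟩))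
    simpa using this
  choose F₁ F₂ h₁ h₂ h using hsel
  let U : Ultrafilter (Finset α) := Ultrafilter.of Filter.atTop
  have hU : (U : Filter (Finset α)) ≤ Filter.atTop := Ultrafilter.of_le _
  have hfin : ∀ (H : Finset α → Finset α) (E : Set (Finset α)), Her E → (∀ F, H F ∈ E) →
      {a | a ∈ Y ∧ ∀ᶠ F in (U : Filter (Finset α)), a ∈ H F} ∈ cls E := by
    intro H E hE hH K hK
    have h3 : ∀ᶠ F in (U : Filter (Finset α)), ∀ a ∈ K, a ∈ H F := by
      rw [Finset.eventually_all]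
      intro a ha
      exact (hK (Finset.mem_coe.2 ha)).2
    obtain ⟨F, hF⟩ := h3.exists
    exact hE K (H F) (fun a ha => hF a ha) (hH F)
  refine ⟨_, hfin F₁ C hC h₁, _, hfin F₂ D hD h₂, ?_⟩
  ext a
  constructor
  · intro ha
    have h4 : ∀ᶠ F in (U : Filter (Finset α)), a ∈ F₁ F ∨ a ∈ F₂ F := by
      have h5 : ∀ᶠ F in (Filter.atTop : Filter (Finset α)), a ∈ F := by
        filter_upwards [Filter.eventually_ge_atTop ({a} : Finset α)] with F hF
        exact hF (Finset.mem_singleton_self a)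
      filter_upwards [hU h5] with F hF
      exact h F a hF ha
    rw [Ultrafilter.eventually_or] at h4
    rcases h4 with h4 | h4
    · exact Or.inl ⟨ha, h4⟩
    · exact Or.inr ⟨ha, h4⟩
  · rintro (ha | ha)
    · exact ha.1
    · exact ha.1

theorem cls_jn_mem {α : Type} {C D : Set (Finset α)} (hC : Her C) (hD : Her D) {A B : Set α}
    (hA : A ∈ cls C) (hB : B ∈ cls D) : A ∪ B ∈ cls (jn C D) := by
  classical
  intro F hF
  refine ⟨F.filter (· ∈ A), hA _ ?_, F.filter (· ∈ B), hB _ ?_, ?_⟩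
  · intro a ha
    exact (Finset.mem_filter.1 (Finset.mem_coe.1 ha)).2
  · intro a ha
    exact (Finset.mem_filter.1 (Finset.mem_coe.1 ha)).2
  · intro a ha
    rcases hF ha with h | h
    · exact Or.inl (Finset.mem_coe.2 (Finset.mem_filter.2 ⟨Finset.mem_coe.1 ha, h⟩))
    · exact Or.inr (Finset.mem_coe.2 (Finset.mem_filter.2 ⟨Finset.mem_coe.1 ha, h⟩))

theorem isFS_fin {α : Type} [Countable α] : IsFS (FinI α) := by
  obtain ⟨e, he⟩ := exists_injective_nat α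
  refine ⟨fun A hA => hA, fun A B hA hB => Set.Finite.union hA hB,
    fun k => {F | ∀ a ∈ F, e a < k}, ?_, ?_, ?_⟩
  · intro k F G hFG hG a ha
    exact hG a (hFG ha)
  · intro k F hF a ha
    exact (hF a ha).trans (Nat.lt_succ_self k)
  · intro Y
    constructor
    · intro hY
      obtain ⟨M, hM⟩ := (Set.Finite.image e hY).bddAbove
      refine ⟨M + 1, fun F hF a ha => ?_⟩
      exact Nat.lt_succ_of_le (hM ⟨a, hF (Finset.mem_coe.2 ha), rfl⟩)
    · rintro ⟨k, hk⟩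
      have h1 : Y ⊆ e ⁻¹' (Set.Iio k) := by
        intro a ha
        exact hk {a} (by simpa using ha) a (Finset.mem_singleton_self a)
      exact ((Set.finite_Iio k).preimage he.injOn).subset h1

theorem fs_cls_union {α : Type} {n : ℕ} {D : ℕ → Set (Finset α)} (hD : ∀ j, Her (D j))
    {Y : Set α} (hY : Y ∈ cls {F | ∃ j ≤ n, F ∈ D j}) : ∃ j ≤ n, Y ∈ cls (D j) := by
  classical
  by_contra hno
  push Not at hno
  have hsel : ∀ j : ℕ, ∃ F : Finset α, (F : Set α) ⊆ Y ∧ (j ≤ n → F ∉ D j) := by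
    intro j
    by_cases hj : j ≤ n
    · have h1 := hno j hj
      unfold cls at h1
      simp only [Set.mem_ofPred_eq, not_forall] at h1
      obtain ⟨F, hF, hFD⟩ := h1
      exact ⟨F, hF, fun _ => hFD⟩
    · exact ⟨∅, by simp, fun h => absurd h hj⟩
  choose G hG1 hG2 using hsel
  obtain ⟨j, hj, hjD⟩ := hY ((Finset.range (n + 1)).biUnion G) (by
    intro a ha
    obtain ⟨i, -, hi⟩ := Finset.mem_biUnion.1 (Finset.mem_coe.1 ha)
    exact hG1 i (Finset.mem_coe.2 hi))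
  refine hG2 j hj (hD j (G j) _ ?_ hjD)
  exact Finset.subset_biUnion_of_mem G (Finset.mem_range.2 (by omega))

/-- the union of an increasing sequence of `F_σ` ideals is an `F_σ` ideal
(with `D k = ⋃ j ≤ k, D^j k`; a set in `cls` of a finite union of hereditary families is in
`cls` of one of them). Stated with a representation that is used later. -/
theorem isFS_iUnion {α : Type} (J : ℕ → Set (Set α)) (hJ : ∀ k, IsFS (J k))
    (hm : ∀ k, J k ⊆ J (k + 1)) :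
    IsFS (⋃ k, J k) ∧ ∃ E : ℕ → Set (Finset α), (∀ k, Her (E k)) ∧ (∀ k, E k ⊆ E (k + 1)) ∧
      (∀ k, cls (E k) ⊆ J k) ∧ ∀ Y, Y ∈ (⋃ k, J k) → ∃ k, Y ∈ cls (E k) := by
  have hmono : Monotone J := monotone_nat_of_le_succ hm
  have hrep := fun j => (hJ j).rep
  choose D hD1 hD2 hD3 using hrep
  have hDmono : ∀ j, Monotone (D j) := fun j => monotone_nat_of_le_succ (hD2 j)
  have hE : ∃ E : ℕ → Set (Finset α), (∀ k, Her (E k)) ∧ (∀ k, E k ⊆ E (k + 1)) ∧
      (∀ k, cls (E k) ⊆ J k) ∧ ∀ Y, Y ∈ (⋃ k, J k) → ∃ k, Y ∈ cls (E k) := by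
    refine ⟨fun k => {F | ∃ j ≤ k, F ∈ D j k}, ?_, ?_, ?_, ?_⟩
    · rintro k F G hFG ⟨j, hj, hG⟩
      exact ⟨j, hj, hD1 j k F G hFG hG⟩
    · rintro k F ⟨j, hj, hF⟩
      exact ⟨j, hj.trans (Nat.le_succ k), hD2 j k hF⟩
    · intro k Y hY
      obtain ⟨j, hj, hYj⟩ := fs_cls_union (D := fun j => D j k) (fun j => hD1 j k) hY
      exact hmono hj ((hD3 j Y).2 ⟨k, hYj⟩)
    · intro Y hY
      obtain ⟨j, hj⟩ := Set.mem_iUnion.1 hY
      obtain ⟨k, hk⟩ := (hD3 j Y).1 hj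
      refine ⟨max j k, fun F hF => ⟨j, le_max_left _ _, ?_⟩⟩
      exact hDmono j (le_max_right j k) (hk F hF)
  refine ⟨⟨?_, ?_, ?_⟩, hE⟩
  · intro A hA
    exact Set.mem_iUnion.2 ⟨0, (hJ 0).fin A hA⟩
  · intro A B hA hB
    obtain ⟨i, hi⟩ := Set.mem_iUnion.1 hA
    obtain ⟨j, hj⟩ := Set.mem_iUnion.1 hB
    exact Set.mem_iUnion.2 ⟨max i j, (hJ _).union A B (hmono (le_max_left i j) hi)
      (hmono (le_max_right i j) hj)⟩
  · obtain ⟨E, hE1, hE2, hE3, hE4⟩ := hE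
    refine ⟨E, hE1, hE2, fun Y => ⟨hE4 Y, ?_⟩⟩
    rintro ⟨k, hk⟩
    exact Set.mem_iUnion.2 ⟨k, hE3 k hk⟩

end Fub90
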