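import Mathlib

/-!
# Forcing over the universe with `P(X)/I`, and Tukey reductions in the extension

The universe of Lean plays the role of the ground model `V`. A sentence of the forcing language of
a preordered set `P` of conditions (`q ≤ p` means that `q` is stronger than `p`) is identified with
the set of the conditions that force it; the logical connectives are the usual clauses of the
forcing relation. A subset, in the extension, of a ground model set `α` is given by a name
`SName P α`.
-/

namespace Fub90

open Set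

/-- sentences of the forcing language, identified with `p ↦ (p ⊩ φ)` -/
abbrev Sent (P : Type) := P → Prop

/-- `p` forces `φ` -/
def Forces {P : Type} (p : P) (φ : Sent P) : Prop := φ p

section

variable {P : Type} [Preorder P]

/-- a statement about the ground model -/
def fPure (a : Prop) : Sent P := fun _ => a
def fNot (φ : Sent P) : Sent P := fun p => ∀ q, q ≤ p → ¬ φ q
def fAnd (φ ψ : Sent P) : Sent P := fun p => φ p ∧ ψ p
def fImp (φ ψ : Sent P) : Sent P := fun p => ∀ q, q ≤ p → φ q → ψ q
def fIff (φ ψ : Sent P) : Sent P := fAnd (fImp φ ψ) (fImp ψ φ)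
/-- universal quantifier over a ground model set, or over all names -/
def fAll {ι : Type} (φ : ι → Sent P) : Sent P := fun p => ∀ i, φ i p
/-- existential quantifier over a ground model set, or over all names -/
def fEx {ι : Type} (φ : ι → Sent P) : Sent P := fun p => ∀ q, q ≤ p → ∃ r, r ≤ q ∧ ∃ i, φ i r

/-- names for subsets of the ground model set `α`: `mem a p` means `p ⊩ a ∈ S` -/
structure SName (P : Type) [Preorder P] (α : Type) where
  mem : α → Sent P
  mono : ∀ a p q, q ≤ p → mem a p → mem a q
  dense : ∀ a p, (∀ q, q ≤ p → ∃ r, r ≤ q ∧ mem a r) → mem a p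

/-- the name `{a ∈ α | ∃ i, φ a i}` -/
def exName {α ι : Type} (φ : α → ι → Sent P) : SName P α where
  mem a := fEx (φ a)
  mono a p q h hp := fun r hr => hp r (le_trans hr h)
  dense a p h := fun q hq => by
    obtain ⟨r, hr, h1⟩ := h q hq
    obtain ⟨s, hs, i, hi⟩ := h1 r le_rfl
    exact ⟨s, le_trans hs hr, i, hi⟩

/-- `S` is a cofinal subset of `Q`, where `le` is a ground model order (so `a` is below `b` iff
`le a b`) -/
def fCofinal {α : Type} (le : α → α → Prop) (Q S : SName P α) : Sent P :=
  fAnd (fAll fun a => fImp (S.mem a) (Q.mem a))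
    (fAll fun a => fImp (Q.mem a) (fEx fun b => fAnd (S.mem b) (fPure (le a b))))

/-- the image `F[S]` of `S ⊆ β` under the relation `F ⊆ β × α` -/
def image {α β : Type} (F : SName P (β × α)) (S : SName P β) : SName P α :=
  exName fun a (b : β) => fAnd (S.mem b) (F.mem (b, a))

/-- `F` is a function from `B` to `A` -/
def fFunction {α β : Type} (B : SName P β) (A : SName P α) (F : SName P (β × α)) : Sent P :=
  fAnd (fAll fun b => fAll fun a => fImp (F.mem (b, a)) (fAnd (B.mem b) (A.mem a)))
    (fAnd (fAll fun b => fImp (B.mem b) (fEx fun a => F.mem (b, a)))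
      (fAll fun b => fAll fun a => fAll fun a' =>
        fImp (fAnd (F.mem (b, a)) (F.mem (b, a'))) (fPure (a = a'))))

/-- `A ≤_T B`: there is a function from `B` to `A` mapping every cofinal subset of `B` onto a
cofinal subset of `A` -/
def fTukeyLE {α β : Type} (leα : α → α → Prop) (A : SName P α) (leβ : β → β → Prop)
    (B : SName P β) : Sent P :=
  fEx fun F : SName P (β × α) =>
    fAnd (fFunction B A F)
      (fAll fun S : SName P β => fImp (fCofinal leβ B S) (fCofinal leα A (image F S)))

/-- the Fubini product `U · V` of (names of) ultrafilters on `X` and on `Y`: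
`A ∈ U · V` iff the set `D = {x | A_x ∈ V}` belongs to `U`. (`D` ranges over the subsets of `X` in
the ground model; the forcings considered below add no new subsets of `X`.) -/
def fubini {X Y : Type} (U : SName P (Set X)) (V : SName P (Set Y)) : SName P (Set (X × Y)) :=
  exName fun A (D : Set X) =>
    fAnd (U.mem D) (fAll fun x => fIff (fPure (x ∈ D)) (V.mem {y | (x, y) ∈ A}))

/-- the order `⊇` of an ultrafilter -/
def supOrd {X : Type} (A B : Set X) : Prop := B ⊆ A

end

/-- proper ideals containing the finite sets -/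
structure Idl (X : Type) where
  carrier : Set (Set X)
  fin : ∀ A : Set X, A.Finite → A ∈ carrier
  union : ∀ A B : Set X, A ∈ carrier → B ∈ carrier → A ∪ B ∈ carrier
  sub : ∀ A B : Set X, A ⊆ B → B ∈ carrier → A ∈ carrier
  proper : (Set.univ : Set X) ∉ carrier

/-- `σ`-ideals in the convention of the problem -/
def IsSigma {X : Type} (I : Idl X) : Prop :=
  ∀ A : ℕ → Set X, (∀ n, A n ∉ I.carrier) → (∀ n, A (n + 1) ⊆ A n) →
    ∃ B, B ∉ I.carrier ∧ ∀ n, B \ A n ∈ I.carrier

/-- `I` is nowhere maximal: every positive set is the union of two disjoint positive sets -/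
def NowhereMaximal {X : Type} (I : Idl X) : Prop :=
  ∀ A, A ∉ I.carrier → ∃ B, B ⊆ A ∧ B ∉ I.carrier ∧ A \ B ∉ I.carrier

/-- the conditions of the forcing `P(X)/I`: the positive sets -/
def Cond {X : Type} (I : Idl X) : Type := {A : Set X // A ∉ I.carrier}

/-- `q ≤ p` iff `q \ p ∈ I` -/
instance {X : Type} (I : Idl X) : Preorder (Cond I) where
  le q p := q.1 \ p.1 ∈ I.carrier
  le_refl p := by
    have : p.1 \ p.1 = ∅ := by simp
    show p.1 \ p.1 ∈ I.carrier
    rw [this]; exact I.fin _ Set.finite_empty
  le_trans a b c h1 h2 := by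
    refine I.sub _ _ ?_ (I.union _ _ h1 h2)
    intro x hx
    by_cases hb : x ∈ b.1
    · exact Or.inr ⟨hb, hx.2⟩
    · exact Or.inl ⟨hx.1, hb⟩

/-- the name of the generic ultrafilter: `p ⊩ A ∈ G` iff `p \ A ∈ I` -/
def genName {X : Type} (I : Idl X) : SName (Cond I) (Set X) where
  mem A p := p.1 \ A ∈ I.carrier
  mono A p q h hp := by
    refine I.sub _ _ ?_ (I.union _ _ h hp)
    intro x hx
    by_cases hb : x ∈ p.1
    · exact Or.inr ⟨hb, hx.2⟩
    · exact Or.inl ⟨hx.1, hb⟩
  dense A p h := by
    by_contra hc
    obtain ⟨r, hr, h1⟩ := h ⟨p.1 \ A, hc⟩ (by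
      show (p.1 \ A) \ p.1 ∈ I.carrier
      refine I.fin _ ?_
      have : (p.1 \ A) \ p.1 = ∅ := by ext x; simp
      rw [this]; exact Set.finite_empty)
    refine r.2 (I.sub _ _ ?_ (I.union _ _ hr h1))
    intro x hx
    by_cases hb : x ∈ A
    · exact Or.inl ⟨hx, fun h => h.2 hb⟩
    · exact Or.inr ⟨hx, hb⟩

/-- the extension has no new subsets of `X` -/
def NoNewSubsets {X : Type} (I : Idl X) : Prop :=
  ∀ (S : SName (Cond I) X) (p : Cond I), ∃ q, q ≤ p ∧ ∃ A : Set X,
    ∀ x, (x ∈ A → S.mem x q) ∧ (x ∉ A → fNot (S.mem x) q)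

/-- `G ≤_T G · G` -/
def GLeGG {X : Type} (I : Idl X) : Sent (Cond I) :=
  fTukeyLE supOrd (genName I) supOrd (fubini (genName I) (genName I))

/-- `G · G ≤_T G` -/
def GGLeG {X : Type} (I : Idl X) : Sent (Cond I) :=
  fTukeyLE supOrd (fubini (genName I) (genName I)) supOrd (genName I)

end Fub90
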