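import Pool.Agent.LibFub90.Defs

/-! Task FUB-9a: a Hausdorff gap. -/

namespace Fub90

open Set

/-- what has to be checked for the new pair -/
theorem Gap1_extend {W : Type} [LinearOrder W] (a b : W → Set ℕ) (α : W)
    (h : GapInv a b (Iio α)) (a' b' : Set ℕ) (hd : Disjoint a' b') (hr : (a' ∪ b')ᶜ.Infinite)
    (ha : ∀ β < α, (a β \ a').Finite ∧ (a' \ a β).Infinite)
    (hb : ∀ β < α, (b β \ b').Finite)
    (hh : ∀ n : ℕ, {β | β < α ∧ a β ∩ b' ⊆ Iio n}.Finite) :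
    GapInv (Function.update a α a') (Function.update b α b') (Iic α) := by
  have e1 : ∀ β, β < α → Function.update a α a' β = a β := fun β hβ =>
    Function.update_of_ne hβ.ne _ _
  have e2 : ∀ β, β < α → Function.update b α b' β = b β := fun β hβ =>
    Function.update_of_ne hβ.ne _ _
  have e3 : Function.update a α a' α = a' := Function.update_self _ _ _
  have e4 : Function.update b α b' α = b' := Function.update_self _ _ _
  refine ⟨?_, ?_, ?_, ?_, ?_⟩
  · intro β hβ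
    rcases lt_or_eq_of_le (show β ≤ α from hβ) with hlt | rfl
    · rw [e1 β hlt, e2 β hlt]
      exact h.disj β hlt
    · rw [e3, e4]; exact hd
  · intro β hβ
    rcases lt_or_eq_of_le (show β ≤ α from hβ) with hlt | rfl
    · rw [e1 β hlt, e2 β hlt]
      exact h.room β hlt
    · rw [e3, e4]; exact hr
  · intro β hβ γ hγ hβγ
    have hlt : β < α := lt_of_lt_of_le hβγ hγ
    rw [e1 β hlt]
    rcases lt_or_eq_of_le (show γ ≤ α from hγ) with hlt' | rfl
    · rw [e1 γ hlt']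
      exact h.incA β hlt γ hlt' hβγ
    · rw [e3]; exact ha β hlt
  · intro β hβ γ hγ hβγ
    have hlt : β < α := lt_of_lt_of_le hβγ hγ
    rw [e2 β hlt]
    rcases lt_or_eq_of_le (show γ ≤ α from hγ) with hlt' | rfl
    · rw [e2 γ hlt']
      exact h.incB β hlt γ hlt' hβγ
    · rw [e4]; exact hb β hlt
  · intro γ hγ n
    rcases lt_or_eq_of_le (show γ ≤ α from hγ) with hlt' | rfl
    · refine (h.haus γ hlt' n).subset ?_
      rintro β ⟨-, hβγ, hs⟩
      rw [e1 β (hβγ.trans hlt'), e2 γ hlt'] at hs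
      exact ⟨hβγ.trans hlt', hβγ, hs⟩
    · refine (hh n).subset ?_
      rintro β ⟨-, hβγ, hs⟩
      rw [e1 β hβγ, e4] at hs
      exact ⟨hβγ, hs⟩

/-- an infinite set of naturals has an infinite subset with infinite complement in it -/
theorem Gap1_half (c : Set ℕ) (hc : c.Infinite) :
    ∃ c₁ : Set ℕ, c₁ ⊆ c ∧ c₁.Infinite ∧ (c \ c₁).Infinite := by
  have := hc.natEmbedding
  let f : ℕ ↪ c := hc.natEmbedding
  refine ⟨Set.range (fun n : ℕ => (f (2 * n) : ℕ)), ?_, ?_, ?_⟩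
  · rintro _ ⟨n, rfl⟩
    exact (f (2 * n)).2
  · refine Set.infinite_range_of_injective ?_
    intro m n hmn
    have := f.injective (Subtype.ext hmn)
    omega
  · have hinf : (Set.range (fun n : ℕ => (f (2 * n + 1) : ℕ))).Infinite := by
      refine Set.infinite_range_of_injective ?_
      intro m n hmn
      have := f.injective (Subtype.ext hmn)
      omega
    refine hinf.mono ?_
    rintro _ ⟨n, rfl⟩
    refine ⟨(f (2 * n + 1)).2, ?_⟩
    rintro ⟨m, hm⟩
    have := f.injective (Subtype.ext hm)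
    omega

/-- a strictly increasing cofinal sequence -/
theorem Gap1_cofinal {W : Type} [LinearOrder W] (α : W) (hc : (Iio α).Countable)
    (hne : (Iio α).Nonempty) (hlim : ∀ γ < α, ∃ β < α, γ < β) :
    ∃ s : ℕ → W, StrictMono s ∧ (∀ k, s k < α) ∧ ∀ β < α, ∃ k, β < s k := by
  obtain ⟨e, he⟩ := hc.exists_eq_range hne
  have heα : ∀ n, e n < α := by
    intro n
    have : e n ∈ Iio α := by rw [he]; exact ⟨n, rfl⟩
    exact this
  choose! g hg1 hg2 using hlim
  let s : ℕ → W := fun n => Nat.rec (e 0) (fun k x => g (max x (e k))) n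
  have hs0 : s 0 = e 0 := rfl
  have hs1 : ∀ k, s (k + 1) = g (max (s k) (e k)) := fun k => rfl
  have hsα : ∀ k, s k < α := by
    intro k
    induction k with
    | zero => exact heα 0
    | succ k ih =>
      rw [hs1]
      exact hg1 _ (max_lt ih (heα k))
  have hlt : ∀ k, max (s k) (e k) < s (k + 1) := by
    intro k
    rw [hs1]
    exact hg2 _ (max_lt (hsα k) (heα k))
  refine ⟨s, strictMono_nat_of_lt_succ fun k => (le_max_left _ _).trans_lt (hlt k), hsα, ?_⟩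
  intro β hβ
  have : β ∈ Set.range e := by rw [← he]; exact hβ
  obtain ⟨k, rfl⟩ := this
  exact ⟨k + 1, (le_max_right _ _).trans_lt (hlt k)⟩

/-- separation of two almost increasing sequences -/
theorem Gap1_sep (A B : ℕ → Set ℕ) (hA : ∀ i k, i < k → (A i \ A k).Finite)
    (hB : ∀ i k, i < k → (B i \ B k).Finite) (hd : ∀ k, Disjoint (A k) (B k))
    (hr : ∀ k, (A k ∪ B k)ᶜ.Infinite) :
    ∃ a b : Set ℕ, Disjoint a b ∧ (a ∪ b)ᶜ.Infinite ∧ (∀ k, (A k \ a).Finite) ∧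
      ∀ k, (B k \ b).Finite := by
  have hA' : ∀ i k, i ≤ k → (A i \ A k).Finite := by
    intro i k hik
    rcases lt_or_eq_of_le hik with h | rfl
    · exact hA i k h
    · simp
  have hB' : ∀ i k, i ≤ k → (B i \ B k).Finite := by
    intro i k hik
    rcases lt_or_eq_of_le hik with h | rfl
    · exact hB i k h
    · simp
  -- points outside
  have hc : ∀ k m : ℕ, ∃ c, m < c ∧ ∀ i ≤ k, c ∉ A i ∧ c ∉ B i := by
    intro k m
    have hfin : ((⋃ i ∈ Iic k, (A i \ A k)) ∪ (⋃ i ∈ Iic k, (B i \ B k)) ∪ Iic m).Finite := by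
      refine ((Set.Finite.biUnion (finite_Iic k) fun i hi => hA' i k hi).union
        (Set.Finite.biUnion (finite_Iic k) fun i hi => hB' i k hi)).union (finite_Iic m)
    obtain ⟨c, hc1, hc2⟩ := ((hr k).sdiff hfin).nonempty
    refine ⟨c, ?_, ?_⟩
    · by_contra hle
      exact hc2 (Or.inr (not_lt.1 hle))
    · intro i hi
      constructor
      · intro hci
        apply hc2
        refine Or.inl (Or.inl ?_)
        refine mem_iUnion₂.2 ⟨i, hi, hci, fun h => hc1 (Or.inl h)⟩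
      · intro hci
        apply hc2
        refine Or.inl (Or.inr ?_)
        refine mem_iUnion₂.2 ⟨i, hi, hci, fun h => hc1 (Or.inr h)⟩
  choose g hg1 hg2 using hc
  let c : ℕ → ℕ := fun n => Nat.rec (g 0 0) (fun k x => g (k + 1) x) n
  have hc0 : c 0 = g 0 0 := rfl
  have hc1 : ∀ k, c (k + 1) = g (k + 1) (c k) := fun k => rfl
  have hcm : StrictMono c := strictMono_nat_of_lt_succ fun k => by
    rw [hc1]; exact hg1 _ _
  have hcA : ∀ k, ∀ i ≤ k, c k ∉ A i ∧ c k ∉ B i := by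
    intro k
    cases k with
    | zero => rw [hc0]; exact hg2 0 0
    | succ k => rw [hc1]; exact hg2 _ _
  refine ⟨{x | (∃ k, x ∈ A k ∧ ∀ i ≤ k, x ∉ B i) ∧ x ∉ Set.range c},
    {x | (∃ k, x ∈ B k ∧ ∀ i ≤ k, x ∉ A i) ∧ x ∉ Set.range c}, ?_, ?_, ?_, ?_⟩
  · rw [Set.disjoint_left]
    rintro x ⟨⟨k, hk, hk'⟩, -⟩ ⟨⟨l, hl, hl'⟩, -⟩
    rcases le_total k l with hkl | hlk
    · exact hl' k hkl hk
    · exact hk' l hlk hl
  · refine (Set.infinite_range_of_injective hcm.injective).mono ?_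
    intro x hx
    rintro (h | h)
    · exact h.2 hx
    · exact h.2 hx
  · intro k
    have hfin : ((⋃ i ∈ Iic k, (B i \ B k)) ∪ c '' Iio k).Finite :=
      (Set.Finite.biUnion (finite_Iic k) fun i hi => hB' i k hi).union ((finite_Iio k).image c)
    refine hfin.subset ?_
    rintro x ⟨hx1, hx2⟩
    by_cases hxc : x ∈ Set.range c
    · obtain ⟨j, rfl⟩ := hxc
      refine Or.inr ⟨j, ?_, rfl⟩
      by_contra hj
      exact (hcA j k (not_lt.1 hj)).1 hx1
    · left
      by_contra hcon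
      apply hx2
      refine ⟨⟨k, hx1, ?_⟩, hxc⟩
      intro i hi hxB
      apply hcon
      refine mem_iUnion₂.2 ⟨i, hi, hxB, ?_⟩
      intro hxk
      exact Set.disjoint_left.1 (hd k) hx1 hxk
  · intro k
    have hfin : ((⋃ i ∈ Iic k, (A i \ A k)) ∪ c '' Iio k).Finite :=
      (Set.Finite.biUnion (finite_Iic k) fun i hi => hA' i k hi).union ((finite_Iio k).image c)
    refine hfin.subset ?_
    rintro x ⟨hx1, hx2⟩
    by_cases hxc : x ∈ Set.range c
    · obtain ⟨j, rfl⟩ := hxc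
      refine Or.inr ⟨j, ?_, rfl⟩
      by_contra hj
      exact (hcA j k (not_lt.1 hj)).2 hx1
    · left
      by_contra hcon
      apply hx2
      refine ⟨⟨k, hx1, ?_⟩, hxc⟩
      intro i hi hxA
      apply hcon
      refine mem_iUnion₂.2 ⟨i, hi, hxA, ?_⟩
      intro hxk
      exact Set.disjoint_left.1 (hd k) hxk hx1

/-- one step: if the family on `Iio α` is good, there is a next pair -/
theorem gap_step {W : Type} [LinearOrder W] [WellFoundedLT W] [OmOne W] (a b : W → Set ℕ) (α : W)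
    (h : GapInv a b (Iio α)) :
    ∃ a' b' : Set ℕ, GapInv (Function.update a α a') (Function.update b α b') (Iic α) := by
  by_cases hne : (Iio α).Nonempty
  swap
  · -- no elements below
    have hno : ∀ β, ¬ β < α := fun β hβ => hne ⟨β, hβ⟩
    refine ⟨∅, ∅, Gap1_extend a b α h ∅ ∅ (by simp) ?_ (fun β hβ => absurd hβ (hno β))
      (fun β hβ => absurd hβ (hno β)) ?_⟩
    · simpa using Set.infinite_univ
    · intro n
      refine Set.Finite.subset Set.finite_empty ?_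
      rintro β ⟨hβ, -⟩
      exact absurd hβ (hno β)
  by_cases hpred : ∃ γ < α, ∀ β < α, β ≤ γ
  · -- successor case
    obtain ⟨γ, hγ, hmax⟩ := hpred
    obtain ⟨c₁, hc1, hc2, hc3⟩ := Gap1_half _ (h.room γ hγ)
    refine ⟨a γ ∪ c₁, b γ, Gap1_extend a b α h _ _ ?_ ?_ ?_ ?_ ?_⟩
    · rw [Set.disjoint_union_left]
      refine ⟨h.disj γ hγ, ?_⟩
      rw [Set.disjoint_left]
      intro x hx hxb
      exact hc1 hx (Or.inr hxb)
    · refine hc3.mono ?_
      rintro x ⟨hx1, hx2⟩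
      rintro ((hx | hx) | hx)
      · exact hx1 (Or.inl hx)
      · exact hx2 hx
      · exact hx1 (Or.inr hx)
    · intro β hβ
      rcases lt_or_eq_of_le (hmax β hβ) with hlt | rfl
      · obtain ⟨h1, h2⟩ := h.incA β hβ γ hγ hlt
        refine ⟨h1.subset ?_, h2.mono ?_⟩
        · rintro x ⟨hx1, hx2⟩
          exact ⟨hx1, fun hx => hx2 (Or.inl hx)⟩
        · rintro x ⟨hx1, hx2⟩
          exact ⟨Or.inl hx1, hx2⟩
      · refine ⟨Set.Finite.subset Set.finite_empty ?_, hc2.mono ?_⟩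
        · rintro x ⟨hx1, hx2⟩
          exact absurd (Or.inl hx1) hx2
        · intro x hx
          exact ⟨Or.inr hx, fun hxa => hc1 hx (Or.inl hxa)⟩
    · intro β hβ
      rcases lt_or_eq_of_le (hmax β hβ) with hlt | rfl
      · exact h.incB β hβ γ hγ hlt
      · simp
    · intro n
      refine ((h.haus γ hγ n).union (Set.finite_singleton γ)).subset ?_
      rintro β ⟨hβ, hs⟩
      rcases lt_or_eq_of_le (hmax β hβ) with hlt | rfl
      · exact Or.inl ⟨hβ, hlt, hs⟩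
      · exact Or.inr rfl
  -- limit case
  have hlim : ∀ γ < α, ∃ β < α, γ < β := by
    intro γ hγ
    by_contra hcon
    push Not at hcon
    exact hpred ⟨γ, hγ, hcon⟩
  obtain ⟨s, hsm, hsα, hscof⟩ := Gap1_cofinal α (OmOne.cnt α) hne hlim
  obtain ⟨a₀, b₀, hd0, hr0, ha0, hb0⟩ := Gap1_sep (fun k => a (s k)) (fun k => b (s k))
    (fun i k hik => (h.incA _ (hsα i) _ (hsα k) (hsm hik)).1)
    (fun i k hik => h.incB _ (hsα i) _ (hsα k) (hsm hik))
    (fun k => h.disj _ (hsα k)) (fun k => h.room _ (hsα k))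
  -- all members of the family are almost contained in `a₀`, `b₀`
  have ha1 : ∀ β < α, (a β \ a₀).Finite := by
    intro β hβ
    obtain ⟨k, hk⟩ := hscof β hβ
    refine ((h.incA β hβ _ (hsα k) hk).1.union (ha0 k)).subset ?_
    rintro x ⟨hx1, hx2⟩
    by_cases hx : x ∈ a (s k)
    · exact Or.inr ⟨hx, hx2⟩
    · exact Or.inl ⟨hx1, hx⟩
  have hb1 : ∀ β < α, (b β \ b₀).Finite := by
    intro β hβ
    obtain ⟨k, hk⟩ := hscof β hβ
    refine ((h.incB β hβ _ (hsα k) hk).union (hb0 k)).subset ?_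
    rintro x ⟨hx1, hx2⟩
    by_cases hx : x ∈ b (s k)
    · exact Or.inr ⟨hx, hx2⟩
    · exact Or.inl ⟨hx1, hx⟩
  -- finiteness below every `s k`
  have hfin : ∀ n k : ℕ, {β | β < s k ∧ a β ∩ b₀ ⊆ Iio n}.Finite := by
    intro n k
    obtain ⟨N, hN⟩ := (hb1 _ (hsα k)).bddAbove
    refine (h.haus (s k) (hsα k) (max n (N + 1))).subset ?_
    rintro β ⟨hβ, hs⟩
    refine ⟨hβ.trans (hsα k), hβ, ?_⟩
    rintro x ⟨hx1, hx2⟩
    by_cases hx : x ∈ b₀
    · exact mem_Iio.2 (lt_of_lt_of_le (mem_Iio.1 (hs ⟨hx1, hx⟩)) (le_max_left _ _))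
    · have : x ≤ N := hN ⟨hx2, hx⟩
      exact mem_Iio.2 (lt_of_lt_of_le (Nat.lt_succ_of_le this) (le_max_right _ _))
  -- the points to be moved
  have hpt : ∀ k : ℕ, ∀ β : W, β < α → s (k + 1) ≤ β →
      ∃ d, k + 1 ≤ d ∧ d ∈ a₀ ∧ d ∈ a β ∧ ∀ i ≤ k, d ∉ a (s i) := by
    intro k β hβ hkβ
    have hlt : s k < β := (hsm (Nat.lt_succ_self k)).trans_le hkβ
    have hinf := (h.incA _ (hsα k) β hβ hlt).2
    have hfin2 : ((⋃ i ∈ Iic k, (a (s i) \ a (s k))) ∪ (a β \ a₀) ∪ Iio (k + 1)).Finite := by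
      refine ((Set.Finite.biUnion (finite_Iic k) fun i hi => ?_).union (ha1 β hβ)).union
        (finite_Iio _)
      rcases lt_or_eq_of_le (show i ≤ k from hi) with hik | rfl
      · exact (h.incA _ (hsα i) _ (hsα k) (hsm hik)).1
      · simp
    obtain ⟨d, ⟨hd1, hd2⟩, hd3⟩ := (hinf.sdiff hfin2).nonempty
    refine ⟨d, ?_, ?_, hd1, ?_⟩
    · by_contra hlt'
      exact hd3 (Or.inr (not_le.1 hlt'))
    · by_contra hda
      exact hd3 (Or.inl (Or.inr ⟨hd1, hda⟩))
    · intro i hi hdi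
      exact hd3 (Or.inl (Or.inl (mem_iUnion₂.2 ⟨i, hi, hdi, hd2⟩)))
  choose! d hdk hda₀ hdβ hdi using hpt
  let S : ℕ → Set W := fun k => {β | (s (k + 1) ≤ β ∧ β < s (k + 2)) ∧ a β ∩ b₀ ⊆ Iio (k + 1)}
  have hSα : ∀ k, ∀ β ∈ S k, β < α := fun k β hβ => hβ.1.2.trans (hsα _)
  have hSfin : ∀ k, (S k).Finite := by
    intro k
    refine (hfin (k + 1) (k + 2)).subset ?_
    rintro β ⟨⟨-, h1⟩, h2⟩
    exact ⟨h1, h2⟩
  let D : Set ℕ := ⋃ k, (d k) '' (S k)
  have hDa : D ⊆ a₀ := by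
    intro x hx
    obtain ⟨k, hk⟩ := mem_iUnion.1 hx
    obtain ⟨β, hβ, rfl⟩ := hk
    exact hda₀ k β (hSα k β hβ) hβ.1.1
  have hDs : ∀ i, (D ∩ a (s i)).Finite := by
    intro i
    have hf : (⋃ k ∈ Iio i, (d k) '' (S k)).Finite :=
      Set.Finite.biUnion (finite_Iio i) fun k _ => (hSfin k).image _
    refine hf.subset ?_
    rintro x ⟨hx, hxa⟩
    obtain ⟨k, hk⟩ := mem_iUnion.1 hx
    obtain ⟨β, hβ, rfl⟩ := hk
    refine mem_iUnion₂.2 ⟨k, ?_, β, hβ, rfl⟩
    by_contra hki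
    exact hdi k β (hSα k β hβ) hβ.1.1 i (not_lt.1 hki) hxa
  have hDβ : ∀ β < α, (D ∩ a β).Finite := by
    intro β hβ
    obtain ⟨k, hk⟩ := hscof β hβ
    refine ((h.incA β hβ _ (hsα k) hk).1.union (hDs k)).subset ?_
    rintro x ⟨hx1, hx2⟩
    by_cases hx : x ∈ a (s k)
    · exact Or.inr ⟨hx1, hx⟩
    · exact Or.inl ⟨hx2, hx⟩
  have ha2 : ∀ β < α, (a β \ (a₀ \ D)).Finite := by
    intro β hβ
    refine ((ha1 β hβ).union (hDβ β hβ)).subset ?_
    rintro x ⟨hx1, hx2⟩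
    by_cases hx : x ∈ a₀
    · refine Or.inr ⟨?_, hx1⟩
      by_contra hxD
      exact hx2 ⟨hx, hxD⟩
    · exact Or.inl ⟨hx1, hx⟩
  refine ⟨a₀ \ D, b₀ ∪ D, Gap1_extend a b α h _ _ ?_ ?_ ?_ ?_ ?_⟩
  · rw [Set.disjoint_left]
    rintro x ⟨hx1, hx2⟩ (hx | hx)
    · exact Set.disjoint_left.1 hd0 hx1 hx
    · exact hx2 hx
  · refine hr0.mono ?_
    intro x hx
    rintro (h' | h' | h')
    · exact hx (Or.inl h'.1)
    · exact hx (Or.inr h')
    · exact hx (Or.inl (hDa h'))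
  · intro β hβ
    refine ⟨ha2 β hβ, ?_⟩
    obtain ⟨β', hβ', hlt⟩ := hlim β hβ
    have hinf := ((h.incA β hβ β' hβ' hlt).2).sdiff (ha2 β' hβ')
    refine hinf.mono ?_
    rintro x ⟨⟨hx1, hx2⟩, hx3⟩
    refine ⟨?_, hx2⟩
    by_contra hx
    exact hx3 ⟨hx1, hx⟩
  · intro β hβ
    refine (hb1 β hβ).subset ?_
    rintro x ⟨hx1, hx2⟩
    exact ⟨hx1, fun hx => hx2 (Or.inl hx)⟩
  · intro n
    refine (hfin n (n + 1)).subset ?_
    rintro β ⟨hβ, hs⟩
    have hs' : a β ∩ b₀ ⊆ Iio n := fun x hx => hs ⟨hx.1, Or.inl hx.2⟩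
    refine ⟨?_, hs'⟩
    by_contra hge
    have hge' : s (n + 1) ≤ β := not_lt.1 hge
    -- the level of `β`
    have hex : ∃ k, β < s k := hscof β hβ
    classical
    have hk1 := Nat.find_spec hex
    have hk2 : ∀ m < Nat.find hex, ¬ β < s m := fun m hm => Nat.find_min hex hm
    have hk3 : n + 1 < Nat.find hex := by
      by_contra hcon
      have : s (Nat.find hex) ≤ s (n + 1) := hsm.monotone (not_lt.1 hcon)
      exact absurd (hk1.trans_le this) (not_lt.2 hge')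
    obtain ⟨m, hm⟩ : ∃ m, Nat.find hex = m + 2 := ⟨Nat.find hex - 2, by omega⟩
    have hmS : β ∈ S m := by
      refine ⟨⟨?_, ?_⟩, ?_⟩
      · exact not_lt.1 (hk2 (m + 1) (by omega))
      · rw [← hm]; exact hk1
      · intro x hx
        exact mem_Iio.2 (lt_of_lt_of_le (mem_Iio.1 (hs' hx)) (by omega))
    have hdD : d m β ∈ D := mem_iUnion.2 ⟨m, β, hmS, rfl⟩
    have := hs ⟨hdβ m β hβ hmS.1.1, Or.inr hdD⟩
    have h1 := hdk m β hβ hmS.1.1
    have h2 : d m β < n := this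
    omega

end Fub90
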