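import Pool.Agent.LibFub90.Gap1

/-! Task FUB-9b: a Hausdorff gap. -/

namespace Fub90

open Set

theorem Gap2_congr {W : Type} [LinearOrder W] (a b a₂ b₂ : W → Set ℕ) (S : Set W)
    (h : GapInv a b S) (ha : ∀ β ∈ S, a β = a₂ β) (hb : ∀ β ∈ S, b β = b₂ β) :
    GapInv a₂ b₂ S := by
  refine ⟨?_, ?_, ?_, ?_, ?_⟩
  · intro β hβ
    rw [← ha β hβ, ← hb β hβ]; exact h.disj β hβ
  · intro β hβ
    rw [← ha β hβ, ← hb β hβ]; exact h.room β hβ
  · intro β hβ γ hγ hlt
    rw [← ha β hβ, ← ha γ hγ]; exact h.incA β hβ γ hγ hlt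
  · intro β hβ γ hγ hlt
    rw [← hb β hβ, ← hb γ hγ]; exact h.incB β hβ γ hγ hlt
  · intro γ hγ n
    refine (h.haus γ hγ n).subset ?_
    rintro β ⟨hβ, hlt, hs⟩
    rw [← ha β hβ, ← hb γ hγ] at hs
    exact ⟨hβ, hlt, hs⟩

theorem Gap2_join {W : Type} [LinearOrder W] (a b : W → Set ℕ) (S : Set W)
    (h : ∀ β ∈ S, GapInv a b (Iic β)) : GapInv a b S := by
  refine ⟨?_, ?_, ?_, ?_, ?_⟩
  · intro β hβ
    exact (h β hβ).disj β (mem_Iic.2 le_rfl)
  · intro β hβ
    exact (h β hβ).room β (mem_Iic.2 le_rfl)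
  · intro β hβ γ hγ hlt
    exact (h γ hγ).incA β (mem_Iic.2 hlt.le) γ (mem_Iic.2 le_rfl) hlt
  · intro β hβ γ hγ hlt
    exact (h γ hγ).incB β (mem_Iic.2 hlt.le) γ (mem_Iic.2 le_rfl) hlt
  · intro γ hγ n
    refine ((h γ hγ).haus γ (mem_Iic.2 le_rfl) n).subset ?_
    rintro β ⟨hβ, hlt, hs⟩
    exact ⟨mem_Iic.2 hlt.le, hlt, hs⟩

variable (W : Type) [LinearOrder W] [WellFoundedLT W] [OmOne W]

theorem exists_gap : ∃ a b : W → Set ℕ, GapInv a b univ := by
  classical
  -- the step
  have hstep : ∀ (α : W) (f : W → Set ℕ × Set ℕ), ∃ p : Set ℕ × Set ℕ,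
      GapInv (fun β => (f β).1) (fun β => (f β).2) (Iio α) →
        GapInv (Function.update (fun β => (f β).1) α p.1)
          (Function.update (fun β => (f β).2) α p.2) (Iic α) := by
    intro α f
    by_cases h : GapInv (fun β => (f β).1) (fun β => (f β).2) (Iio α)
    · obtain ⟨a', b', h'⟩ := gap_step _ _ α h
      exact ⟨(a', b'), fun _ => h'⟩
    · exact ⟨(∅, ∅), fun h' => absurd h' h⟩
  choose F hF using hstep
  let ext : (α : W) → ((β : W) → β < α → Set ℕ × Set ℕ) → W → Set ℕ × Set ℕ :=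
    fun α f β => if h : β < α then f β h else (∅, ∅)
  let G : W → Set ℕ × Set ℕ :=
    (wellFounded_lt (α := W)).fix (fun α f => F α (ext α f))
  have hG : ∀ α, G α = F α (ext α fun β _ => G β) := fun α =>
    (wellFounded_lt (α := W)).fix_eq (fun α f => F α (ext α f)) α
  have hext : ∀ α β, β < α → ext α (fun β _ => G β) β = G β := by
    intro α β hβ
    simp only [ext]
    rw [dif_pos hβ]
  have key : ∀ α, GapInv (fun β => (G β).1) (fun β => (G β).2) (Iic α) := by
    intro α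
    induction α using (wellFounded_lt (α := W)).induction with
    | _ α ih =>
      have h1 : GapInv (fun β => (G β).1) (fun β => (G β).2) (Iio α) :=
        Gap2_join _ _ _ fun β hβ => ih β hβ
      have h2 : GapInv (fun β => (ext α (fun β _ => G β) β).1)
          (fun β => (ext α (fun β _ => G β) β).2) (Iio α) :=
        Gap2_congr _ _ _ _ _ h1 (fun β hβ => by rw [hext α β hβ]) (fun β hβ => by rw [hext α β hβ])
      have h3 := hF α _ h2
      refine Gap2_congr _ _ _ _ _ h3 ?_ ?_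
      · intro β hβ
        rcases lt_or_eq_of_le (show β ≤ α from hβ) with hlt | rfl
        · rw [Function.update_of_ne hlt.ne, hext α β hlt]
        · rw [Function.update_self, ← hG]
      · intro β hβ
        rcases lt_or_eq_of_le (show β ≤ α from hβ) with hlt | rfl
        · rw [Function.update_of_ne hlt.ne, hext α β hlt]
        · rw [Function.update_self, ← hG]
  exact ⟨_, _, Gap2_join _ _ univ fun β _ => key β⟩

end Fub90
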