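import Pool.Agent.LibFub90.Gap2
import Pool.Agent.LibFub90.Base2

/-! Task FUB-9c: a Hausdorff gap. -/

namespace Fub90

open Set

variable (W : Type) [LinearOrder W] [WellFoundedLT W] [OmOne W]

private def gK (A B : Set ℕ) (k : ℕ) : Set CC :=
  {c | (∀ n ∈ A, k ≤ n → c n = true) ∧ ∀ n ∈ B, k ≤ n → c n = false}

private theorem gK_closed (A B : Set ℕ) (k : ℕ) : IsClosed (gK A B k) := by
  have h : gK A B k = (⋂ n ∈ {n | n ∈ A ∧ k ≤ n}, {c : CC | c n = true}) ∩
      ⋂ n ∈ {n | n ∈ B ∧ k ≤ n}, {c : CC | c n = false} := by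
    ext c
    simp [gK]
  rw [h]
  refine IsClosed.inter ?_ ?_
  · refine isClosed_biInter fun n _ => ?_
    exact isClosed_eq (continuous_apply n) continuous_const
  · refine isClosed_biInter fun n _ => ?_
    exact isClosed_eq (continuous_apply n) continuous_const

private theorem gK_mono (A B : Set ℕ) (k : ℕ) : gK A B k ⊆ gK A B (k + 1) :=
  fun _ hc => ⟨fun n hn hk => hc.1 n hn (by omega), fun n hn hk => hc.2 n hn (by omega)⟩

private def gL (A B : Set ℕ) : Set CC :=
  {c | {n | n ∈ A ∧ c n = false}.Finite ∧ {n | n ∈ B ∧ c n = true}.Finite}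

private theorem gL_iff (A B : Set ℕ) (c : CC) : c ∈ gL A B ↔ ∃ k, c ∈ gK A B k := by
  constructor
  · rintro ⟨h1, h2⟩
    obtain ⟨m1, hm1⟩ := h1.bddAbove
    obtain ⟨m2, hm2⟩ := h2.bddAbove
    refine ⟨max m1 m2 + 1, fun n hn hk => ?_, fun n hn hk => ?_⟩
    · by_contra hc
      have : n ≤ m1 := hm1 ⟨hn, by simpa using hc⟩
      have := le_max_left m1 m2
      omega
    · by_contra hc
      have : n ≤ m2 := hm2 ⟨hn, by simpa using hc⟩
      have := le_max_right m1 m2
      omega
  · rintro ⟨k, h1, h2⟩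
    refine ⟨(finite_Iio k).subset ?_, (finite_Iio k).subset ?_⟩
    · rintro n ⟨hn, hc⟩
      by_contra hk
      have := h1 n hn (by simpa using hk)
      rw [this] at hc
      exact absurd hc (by simp)
    · rintro n ⟨hn, hc⟩
      by_contra hk
      have := h2 n hn (by simpa using hk)
      rw [this] at hc
      exact absurd hc (by simp)

/-- `L ξ = {c | a ξ ⊆* c, c ∩ b ξ finite}` -/
theorem exists_LS : ∃ L : W → Set CC, LS L := by
  classical
  obtain ⟨a, b, hg⟩ := exists_gap W
  refine ⟨fun ξ => gL (a ξ) (b ξ), ?_, ?_, ?_, ?_⟩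
  · intro ξ
    refine ⟨gK (a ξ) (b ξ), gK_closed _ _, gK_mono _ _, ?_⟩
    ext c
    rw [mem_iUnion]
    exact gL_iff _ _ c
  · intro ξ
    refine ⟨fun n => decide (n ∈ a ξ), ?_, ?_⟩
    · have : {n | n ∈ a ξ ∧ (fun n => decide (n ∈ a ξ)) n = false} = ∅ := by
        ext n; simp
      rw [this]; exact finite_empty
    · have : {n | n ∈ b ξ ∧ (fun n => decide (n ∈ a ξ)) n = true} = ∅ := by
        ext n
        simp only [decide_eq_true_eq, mem_empty_iff_false, iff_false]
        rintro ⟨h1, h2⟩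
        exact (disjoint_left.mp (hg.disj ξ (mem_univ _))) h2 h1
      rw [this]; exact finite_empty
  · intro ξ η hle c hc
    rcases hle.eq_or_lt with rfl | hlt
    · exact hc
    · have hA := (hg.incA ξ (mem_univ _) η (mem_univ _) hlt).1
      have hB := hg.incB ξ (mem_univ _) η (mem_univ _) hlt
      refine ⟨(hA.union hc.1).subset ?_, (hB.union hc.2).subset ?_⟩
      · rintro n ⟨h1, h2⟩
        by_cases h : n ∈ a η
        · exact Or.inr ⟨h, h2⟩
        · exact Or.inl ⟨h1, h⟩
      · rintro n ⟨h1, h2⟩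
        by_cases h : n ∈ b η
        · exact Or.inr ⟨h, h2⟩
        · exact Or.inl ⟨h1, h⟩
  · intro c
    by_contra hcon
    have hcon' : ∀ ξ, ∃ k, c ∈ gK (a ξ) (b ξ) k := by
      intro ξ
      rw [← gL_iff]
      by_contra h
      exact hcon ⟨ξ, h⟩
    choose k hk using hcon'
    -- an uncountable fibre
    obtain ⟨m, hm⟩ : ∃ m, ¬ {ξ | k ξ = m}.Countable := by
      by_contra h
      have h' : ∀ m, {ξ | k ξ = m}.Countable := by
        intro m
        by_contra h2
        exact h ⟨m, h2⟩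
      apply OmOne.uncountable W
      refine (countable_iUnion h').mono ?_
      intro ξ _
      exact mem_iUnion.mpr ⟨k ξ, rfl⟩
    have hinf : {ξ | k ξ = m}.Infinite := fun hf => hm hf.countable
    obtain ⟨f, hf⟩ : ∃ f : ℕ → W, Function.Injective f ∧ ∀ n, f n ∈ {ξ | k ξ = m} := by
      have e := hinf.natEmbedding
      exact ⟨fun n => (e n : W), fun x y hxy => e.injective (Subtype.ext hxy),
        fun n => (e n).2⟩
    obtain ⟨θ, hθ⟩ := OmOne.bdd f
    obtain ⟨α, hα, hθα⟩ : ∃ α ∈ {ξ | k ξ = m}, θ < α := by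
      by_contra h
      apply hm
      refine ((OmOne.cnt θ).union (countable_singleton θ)).mono ?_
      intro ξ hξ
      have : ¬ θ < ξ := fun h2 => h ⟨ξ, hξ, h2⟩
      rcases (not_lt.mp this).eq_or_lt with h3 | h3
      · exact Or.inr h3
      · exact Or.inl h3
    have hfin := hg.haus α (mem_univ _) m
    refine (infinite_range_of_injective hf.1) (hfin.subset ?_)
    rintro _ ⟨n, rfl⟩
    refine ⟨mem_univ _, (hθ n).trans hθα, ?_⟩
    intro j hj
    by_contra hjm
    have hjm' : m ≤ j := by simpa using hjm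
    have h1 := (hk (f n)).1 j hj.1 (by rw [hf.2 n]; exact hjm')
    have h2 := (hk α).2 j hj.2 (by rw [hα]; exact hjm')
    rw [h1] at h2
    exact absurd h2 (by simp)

end Fub90
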