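import Pool.Agent.LibFub90.Defs

namespace Fub90

open Set

/-- the combinatorial properties of the family `P` of positive sets -/
structure Good (X : Type) (P : Set (Set X)) : Prop where
  mono : ∀ A B : Set X, A ⊆ B → A ∈ P → B ∈ P
  univ : (Set.univ : Set X) ∈ P
  inf : ∀ A ∈ P, A.Infinite
  union : ∀ A B : Set X, A ∪ B ∈ P → A ∈ P ∨ B ∈ P
  split : ∀ A ∈ P, ∃ B ⊆ A, B ∈ P ∧ A \ B ∈ P
  pplus : ∀ A : ℕ → Set X, (∀ n, A n ∈ P) → (∀ n, A (n + 1) ⊆ A n) →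
    ∃ B ∈ P, ∀ n, (B \ A n).Finite
  at_ : ∀ A ∈ P, ∀ C : ℕ → Set (Finset X), (∀ m, Her (C m)) → (∀ m, C m ⊆ C (m + 1)) →
    ∃ B ⊆ A, B ∈ P ∧ ((∃ m, B ∈ cls (C m)) ∨ ∃ G : ℕ → Finset X, ∀ Y ⊆ B,
      (∀ m, ∀ F : Finset X, (F : Set X) ⊆ Y → F ⊆ G m → F ∈ C m) → Y ∉ P)

end Fub90
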