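import Pool.Agent.LibFub90.Dec1

/-! Task FUB-5: labels. -/

namespace Fub90

open Set

variable {W : Type} [LinearOrder W] [WellFoundedLT W] [OmOne W] {L : W → Set CC}


theorem Label_bits (n : ℕ) (c : ℕ → Bool) : ∃ v : ℕ, ∀ i < n, v.testBit i = c i := by
  induction n generalizing c with
  | zero => exact ⟨0, fun i hi => absurd hi (Nat.not_lt_zero i)⟩
  | succ n ih =>
    obtain ⟨v, hv⟩ := ih (fun i => c (i + 1))
    refine ⟨Nat.bit (c 0) v, ?_⟩
    intro i hi
    cases i with
    | zero => rw [Nat.testBit_bit_zero]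
    | succ i => rw [Nat.testBit_bit_succ]; exact hv i (by omega)

/-- one can make the bits of the values at a point of `L ξ` converge to a prescribed code -/
theorem label (hL : LS L) {X : Set Om} {J : Set (Set Om)} {ξ : W} (hJ : IsFS J)
    (hP : Pos X J (L ξ)) (x₀ : CC) (hx : x₀ ∈ L ξ) (c : ℕ → Bool) :
    ∃ η', ξ ≤ η' ∧ ∃ X' ⊆ X, Pos X' J (L η') ∧
      ∀ i, {p ∈ X' | (ev p x₀).testBit i ≠ c i}.Finite := by
  classical
  obtain ⟨η', hη, hav⟩ := hL.avoid {x₀} ξ
  have hx' : x₀ ∉ L η' := hav x₀ (Finset.mem_singleton_self x₀)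
  have key : ∀ n, Pos {p ∈ X | ∀ i < n, (ev p x₀).testBit i = c i} J (L η') := by
    intro n F hF h hmem
    obtain ⟨v, hv⟩ := Label_bits n c
    have hxF : x₀ ∉ F := fun hh => hx' (hF hh)
    refine hP (insert x₀ F) ?_ (Function.update h x₀ v) (hJ.sub ?_ hmem)
    · intro y hy
      rcases Finset.mem_insert.mp (Finset.mem_coe.mp hy) with rfl | hy
      · exact hx
      · exact hL.anti ξ η' hη (hF hy)
    · rintro p ⟨hpX, hpb⟩
      have hp0 : ev p x₀ = v := by
        have := hpb x₀ (Finset.mem_insert_self x₀ F)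
        rwa [Function.update_self] at this
      refine ⟨⟨hpX, ?_⟩, ?_⟩
      · intro i hi
        rw [hp0]
        exact hv i hi
      · intro y hy
        have := hpb y (Finset.mem_insert_of_mem hy)
        have hne : y ≠ x₀ := by
          rintro rfl
          exact hxF hy
        rwa [Function.update_of_ne hne] at this
  obtain ⟨Z, hZ0, hZ, hZP⟩ := pseudo (L η') (hL.sig η') (hL.ne η') J hJ
    (fun n => {p ∈ X | ∀ i < n, (ev p x₀).testBit i = c i})
    (fun n p hp => ⟨hp.1, fun i hi => hp.2 i (by omega)⟩) key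
  refine ⟨η', hη, Z, fun p hp => (hZ0 hp).1, hZP, ?_⟩
  intro i
  refine (hZ (i + 1)).subset ?_
  rintro p ⟨hpZ, hpi⟩
  exact ⟨hpZ, fun hh => hpi (hh.2 i (Nat.lt_succ_self i))⟩

end Fub90
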