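import Pool.Agent.LibFub90.NoRel
import Pool.Agent.LibFub90.Forcing

/-! Task FUB-21. -/

namespace Fub90

open Set

private theorem genA_le {X : Type} {I : Idl X} {p : Cond I} : ¬ (genName I).mem ∅ p := by
  intro h
  apply p.2
  have h1 : p.1 \ ∅ ∈ I.carrier := h
  rwa [sdiff_empty] at h1

/-- the statement `R(B, m, j)` forced by `q` -/
private def RA {X : Type} (I : Idl X) (e : X → ℕ) (F : SName (Cond I) (Set X × Set (X × X)))
    (q B : Set X) (m j : ℕ) : Prop :=
  ∀ q' : Cond I, q'.1 \ q ∈ I.carrier → ∀ B' ⊆ B, ∀ C', (genName I).mem B' q' →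
    F.mem (B', C') q' → ∀ x y, m ≤ e x → e y < j → (x, y) ∉ C'

/-- FUB-21. For every condition, `P(X)/I` forces that `G · G ≤_T G` fails.
Proof: suppose `q ≤ p` and `q` forces `GGLeG`; then some `r ≤ q` and a name `F` satisfy: `r` forces
that `F` is a function from `G` to `G · G` mapping cofinal subsets to cofinal subsets. Let `e` be an
injection of `X` into `ℕ` and let `R q B m j` say that `q ∉ I` and for all `q' ≤ q`, `B' ⊆ B`, `C'`
with `q' ⊩ B' ∈ G` and `q' ⊩ (B', C') ∈ F` one has `(x, y) ∉ C'` for all `x, y` with `m ≤ e x`,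
`e y < j`. Apply `no_rel`.
(r2): find `q' ≤ q` and `C'` with `q' ⊩ (B, C') ∈ F`, so `q' ⊩ C' ∈ G · G`; pass to `q'' ≤ q'` and
`D` with `q'' ⊩ D ∈ G` and, for `x ∈ D`, `q'' ⊩ C'_x ∈ G`; `D` is infinite, pick `x ∈ D` with
`m ≤ e x`, then `y ∈ C'_x`, and `j = e y + 1`.
(r1): if no `q' ≤ q`, `B` is as required, let `S` be the name
`{B ∈ G | F(B) ⊄ {(x, y) | h (e x) ≤ e y}}`. Then `q` forces that `S` is cofinal in `G`, hence that
`F[S]` is cofinal in `G · G`; but `{(x, y) | h (e x) ≤ e y}` is forced to be in `G · G`, so some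
element of `F[S]` is contained in it, contradicting functionality of `F`. -/
theorem not_GGLeG {X : Type} [Countable X] (I : Idl X)
    (hP : Good X {A | A ∉ I.carrier}) (p : Cond I) : fNot (GGLeG I) p := by
  classical
  intro q₀ _ hq₀
  obtain ⟨r, hr, F, hF, hT⟩ := hq₀ q₀ le_rfl
  obtain ⟨e, he⟩ := exists_injective_nat X
  have htr : ∀ A B C : Set X, A \ B ∈ I.carrier → B \ C ∈ I.carrier → A \ C ∈ I.carrier := by
    intro A B C h1 h2
    refine I.sub _ _ ?_ (I.union _ _ h1 h2)
    intro x hx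
    by_cases hb : x ∈ B
    · exact Or.inr ⟨hb, hx.2⟩
    · exact Or.inl ⟨hx.1, hb⟩
  have fin_lt : ∀ k : ℕ, {x : X | e x < k}.Finite := by
    intro k
    exact (Set.finite_Iio k).preimage (he.injOn)
  refine no_rel hP e he r.1 r.2 (RA I e F) ?_ ?_ ?_ ?_ ?_ ?_
  · intro q q' B m j _ _ hqq hR s hs
    exact hR s (htr _ _ _ hs (not_not.mp hqq))
  · intro q B B' m j _ hB hR s hs B'' hB'' C'
    exact hR s hs B'' (hB''.trans hB) C'
  · intro q B m j j' _ hj hR s hs B' hB' C' h1 h2 x y hx hy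
    exact hR s hs B' hB' C' h1 h2 x y hx (lt_of_lt_of_le hy hj)
  · intro q B m m' j _ hm hR s hs B' hB' C' h1 h2 x y hx hy
    exact hR s hs B' hB' C' h1 h2 x y (le_trans hm hx) hy
  · -- `r1`
    intro q hq hqr h hh
    have hqr' : q \ r.1 ∈ I.carrier := not_not.mp hqr
    by_contra hcon
    push Not at hcon
    obtain ⟨C0, hC0⟩ : ∃ C0 : Set (X × X), C0 = {z | h (e z.1) ≤ e z.2} := ⟨_, rfl⟩
    obtain ⟨Q, hQ⟩ : ∃ Q : Cond I, Q = ⟨q, hq⟩ := ⟨_, rfl⟩
    have hQr : Q ≤ r := by rw [hQ]; exact hqr'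
    -- the name `S`
    obtain ⟨S, hS⟩ : ∃ S : SName (Cond I) (Set X), S = exName fun B (C : Set (X × X)) =>
        fAnd ((genName I).mem B) (fAnd (F.mem (B, C)) (fPure (¬ C ⊆ C0))) := ⟨_, rfl⟩
    have hScof : fCofinal supOrd (genName I) S Q := by
      refine ⟨fun B q1 _ hB => (genName I).dense _ _ fun q2 hq2 => ?_,
        fun B q1 hq1 hB q2 hq2 => ?_⟩
      · rw [hS] at hB
        obtain ⟨s, hs, C, h1, -⟩ := hB q2 hq2
        exact ⟨s, hs, h1⟩
      · have h1 : ¬ ∀ m, RA I e F q2.1 B m (h m) := by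
          have h2 : q2.1 \ q ∉ {A | A ∉ I.carrier} := by
            have h3 : q2 ≤ Q := le_trans hq2 hq1
            rw [hQ] at h3
            exact not_not.mpr h3
          have h4 : q2.1 \ B ∉ {A | A ∉ I.carrier} :=
            not_not.mpr ((genName I).mono _ _ _ hq2 hB)
          intro h5
          obtain ⟨m, hm⟩ := hcon q2.1 q2.2 h2 B h4
          exact hm (h5 m)
        push Not at h1
        obtain ⟨m, hm⟩ := h1
        unfold RA at hm
        push Not at hm
        obtain ⟨s, hs, B', hB', C', hBs, hFs, x, y, hx, hy, hxy⟩ := hm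
        refine ⟨s, hs, B', ?_, hB'⟩
        rw [hS]
        intro t ht
        refine ⟨t, le_rfl, C', (genName I).mono _ _ _ ht hBs, F.mono _ _ _ ht hFs, ?_⟩
        change ¬ C' ⊆ C0
        intro hsub
        have h3 := hsub hxy
        rw [hC0] at h3
        have h4 : h (e x) ≤ e y := h3
        have h5 : h m ≤ h (e x) := hh hx
        omega
    have himg := hT S Q hQr hScof
    have hC0m : (fubini (genName I) (genName I)).mem C0 Q := by
      intro s _
      refine ⟨s, le_rfl, univ, ?_, fun x => ⟨fun t _ _ => ?_, fun t _ _ => ?_⟩⟩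
      · change s.1 \ univ ∈ I.carrier
        rw [sdiff_univ]; exact I.fin _ finite_empty
      · change t.1 \ {y | (x, y) ∈ C0} ∈ I.carrier
        refine I.fin _ ((fin_lt (h (e x))).subset ?_)
        intro y hy
        have h1 : ¬ (h (e x) ≤ e y) := by
          intro h2
          apply hy.2
          rw [hC0]
          exact h2
        exact not_le.mp h1
      · exact mem_univ x
    obtain ⟨r2, hr2, C, hCi, hCC⟩ := himg.2 C0 Q le_rfl hC0m Q le_rfl
    obtain ⟨s, hs, B, hBS, hBF⟩ := hCi r2 le_rfl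
    rw [hS] at hBS
    obtain ⟨t, ht, C'', -, hF'', hn⟩ := hBS s le_rfl
    have hts : t ≤ r := le_trans ht (le_trans hs (le_trans hr2 hQr))
    have hfun : C = C'' := hF.2.2 B C C'' t hts ⟨F.mono _ _ _ ht hBF, hF''⟩
    apply hn
    rw [← hfun]
    exact hCC
  · -- `r2`
    intro q hq hqr B hB m
    have hqr' : q \ r.1 ∈ I.carrier := not_not.mp hqr
    have hB' : q \ B ∈ I.carrier := not_not.mp hB
    obtain ⟨Q, hQ⟩ : ∃ Q : Cond I, Q = ⟨q, hq⟩ := ⟨_, rfl⟩
    have hQr : Q ≤ r := by rw [hQ]; exact hqr'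
    have hBQ : (genName I).mem B Q := by rw [hQ]; exact hB'
    obtain ⟨s, hs, C, hC⟩ := hF.2.1 B Q hQr hBQ Q le_rfl
    have hCG : (fubini (genName I) (genName I)).mem C s :=
      (hF.1 B C s (le_trans hs hQr) hC).2
    obtain ⟨t, ht, D, hD, hDx⟩ := hCG s le_rfl
    have hDP : D ∉ I.carrier := by
      intro hD'
      apply t.2
      refine I.sub _ _ ?_ (I.union _ _ hD hD')
      intro x hx
      by_cases hxD : x ∈ D
      · exact Or.inr hxD
      · exact Or.inl ⟨hx, hxD⟩
    have hDinf : D.Infinite := fun h => hDP (I.fin _ h)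
    obtain ⟨x, hxD, hxm⟩ : ∃ x ∈ D, m ≤ e x := by
      by_contra hcon
      push Not at hcon
      exact hDinf ((fin_lt m).subset hcon)
    have hCx : (genName I).mem {y | (x, y) ∈ C} t := (hDx x).1 t le_rfl hxD
    obtain ⟨y, hy⟩ : ∃ y, (x, y) ∈ C := by
      by_contra hcon
      push Not at hcon
      have : {y | (x, y) ∈ C} = ∅ := by
        ext y
        simp only [mem_ofPred_eq, mem_empty_iff_false, iff_false]
        exact hcon y
      rw [this] at hCx
      exact genA_le hCx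
    refine ⟨e y + 1, fun hR => ?_⟩
    have htQ : t.1 \ q ∈ I.carrier := by
      have : t ≤ Q := le_trans ht hs
      rw [hQ] at this
      exact this
    exact hR t htQ B (subset_refl _) C ((genName I).mono _ _ _ (le_trans ht hs) hBQ)
      (F.mono _ _ _ ht hC) x y hxm (Nat.lt_succ_self _) hy

end Fub90
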