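import Pool.Agent.LibFub90.Forcing

/-! Task FUB-22. -/

namespace Fub90

open Set

private theorem gen_le {X : Type} {I : Idl X} {p : Cond I} : ¬ (genName I).mem ∅ p := by
  intro h
  apply p.2
  have h1 : p.1 \ ∅ ∈ I.carrier := h
  rwa [sdiff_empty] at h1

private theorem gen_univ {X : Type} {I : Idl X} {p : Cond I} : (genName I).mem univ p := by
  change p.1 \ univ ∈ I.carrier
  rw [sdiff_univ]
  exact I.fin _ finite_empty

/-- the name of the map `C ↦ {x | C_x ∈ G}` -/
private def secName {X : Type} (I : Idl X) : SName (Cond I) (Set (X × X) × Set X) where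
  mem c p := (fubini (genName I) (genName I)).mem c.1 p ∧ (genName I).mem c.2 p ∧
    ∀ x, fIff (fPure (x ∈ c.2)) ((genName I).mem {y | (x, y) ∈ c.1}) p
  mono c p q h hp := by
    refine ⟨(fubini (genName I) (genName I)).mono _ _ _ h hp.1, (genName I).mono _ _ _ h hp.2.1,
      fun x => ⟨fun q' hq' => (hp.2.2 x).1 q' (le_trans hq' h),
        fun q' hq' => (hp.2.2 x).2 q' (le_trans hq' h)⟩⟩
  dense c p h := by
    refine ⟨(fubini (genName I) (genName I)).dense _ _ fun q hq => ?_,
      (genName I).dense _ _ fun q hq => ?_, fun x => ⟨fun q hq hx => ?_, fun q hq hx => ?_⟩⟩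
    · obtain ⟨r, hr, h1, -⟩ := h q hq
      exact ⟨r, hr, h1⟩
    · obtain ⟨r, hr, -, h1, -⟩ := h q hq
      exact ⟨r, hr, h1⟩
    · refine (genName I).dense _ _ fun q' hq' => ?_
      obtain ⟨r, hr, -, -, h1⟩ := h q' (le_trans hq' hq)
      exact ⟨r, hr, (h1 x).1 r le_rfl hx⟩
    · obtain ⟨r, hr, -, -, h1⟩ := h q hq
      exact (h1 x).2 r le_rfl ((genName I).mono _ _ _ hr hx)

/-- FUB-22. `G ≤_T G · G`, by the map `C ↦ {x | C_x ∈ G}`: its name is
`F (C, D) = (C ∈ G · G) ∧ (D ∈ G) ∧ ∀ x, (x ∈ D ↔ C_x ∈ G)`. Given a cofinal `S ⊆ G · G` and `B ∈ G`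
take `C ∈ S` with `C ⊆ B × X`; then `C_x ∈ G` implies `x ∈ B`. -/
theorem forces_GLeGG {X : Type} [Countable X] (I : Idl X) (hI : IsSigma I) (p : Cond I) :
    GLeGG I p := by
  have total : ∀ (C : Set (X × X)) (q : Cond I), (fubini (genName I) (genName I)).mem C q →
      ∃ r, r ≤ q ∧ ∃ D : Set X, (secName I).mem (C, D) r := by
    intro C q hC
    obtain ⟨r, hr, D, hD, h1⟩ := hC q le_rfl
    exact ⟨r, hr, D, (fubini (genName I) (genName I)).mono _ _ _ hr hC, hD, h1⟩
  intro q _
  refine ⟨q, le_rfl, secName I, ⟨⟨fun C D q' _ h => ⟨h.1, h.2.1⟩, fun C q' _ hC q'' hq'' =>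
    total C q'' ((fubini (genName I) (genName I)).mono _ _ _ hq'' hC), ?_⟩, ?_⟩⟩
  · intro C D D' q' _ h
    change D = D'
    ext x
    exact ⟨fun hx => (h.2.2.2 x).2 q' le_rfl ((h.1.2.2 x).1 q' le_rfl hx),
      fun hx => (h.1.2.2 x).2 q' le_rfl ((h.2.2.2 x).1 q' le_rfl hx)⟩
  · intro S q' _ hS
    refine ⟨fun D q'' _ hD => (genName I).dense _ _ fun r hr => ?_, fun B q'' hq'' hB q3 hq3 => ?_⟩
    · obtain ⟨s, hs, C, -, hF⟩ := hD r hr
      exact ⟨s, hs, hF.2.1⟩
    · -- `B × X` is in `G · G`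
      have hC0 : (fubini (genName I) (genName I)).mem {z : X × X | z.1 ∈ B} q3 := by
        intro r hr
        refine ⟨r, le_rfl, B, (genName I).mono _ _ _ (le_trans hr hq3) hB, fun x =>
          ⟨fun s _ hx => ?_, fun s _ hx => ?_⟩⟩
        · have : {y : X | (x, y) ∈ {z : X × X | z.1 ∈ B}} = univ := by
            ext y; simp only [mem_ofPred_eq, mem_univ, iff_true]; exact hx
          rw [this]
          exact gen_univ
        · by_contra hxB
          have : {y : X | (x, y) ∈ {z : X × X | z.1 ∈ B}} = ∅ := by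
            ext y; simp only [mem_ofPred_eq, mem_empty_iff_false, iff_false]; exact hxB
          rw [this] at hx
          exact gen_le hx
      obtain ⟨r, hr, C, hCS, hCB⟩ := hS.2 _ q3 (le_trans hq3 hq'') hC0 q3 le_rfl
      have hCQ : (fubini (genName I) (genName I)).mem C r :=
        hS.1 C r (le_trans hr (le_trans hq3 hq'')) hCS
      obtain ⟨s, hs, D, hD⟩ := total C r hCQ
      refine ⟨s, le_trans hs hr, D, fun t ht => ⟨t, le_rfl, C, S.mono _ _ _ (le_trans ht hs) hCS,
        (secName I).mono _ _ _ ht hD⟩, ?_⟩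
      change D ⊆ B
      intro x hx
      have h1 := (hD.2.2 x).1 s le_rfl hx
      by_contra hxB
      have : {y : X | (x, y) ∈ C} = ∅ := by
        ext y
        simp only [mem_ofPred_eq, mem_empty_iff_false, iff_false]
        intro hy
        exact hxB (hCB hy)
      rw [this] at h1
      exact gen_le h1

end Fub90
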