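import Pool.Agent.LibFub90.Forcing

/-! Task FUB-23. -/

namespace Fub90

open Set

private theorem mainC_step {X : Type} (I : Idl X) (S : SName (Cond I) X) (p : Cond I)
    (o : Option X) : ∃ q : Cond I, q.1 ⊆ p.1 ∧ ∀ x, o = some x →
      (S.mem x q ∨ fNot (S.mem x) q) := by
  rcases o with _ | x
  · exact ⟨p, subset_rfl, fun x hx => by simp at hx⟩
  · by_cases h : ∃ q', q' ≤ p ∧ S.mem x q'
    · obtain ⟨q', hq', hm⟩ := h
      have hpos : q'.1 ∩ p.1 ∉ I.carrier := by
        intro hc
        refine q'.2 (I.sub _ _ ?_ (I.union _ _ hc hq'))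
        intro y hy
        by_cases hb : y ∈ p.1
        · exact Or.inl ⟨hy, hb⟩
        · exact Or.inr ⟨hy, hb⟩
      refine ⟨⟨q'.1 ∩ p.1, hpos⟩, inter_subset_right, fun y hy => Or.inl ?_⟩
      obtain rfl : x = y := by simpa using hy
      refine S.mono x q' _ ?_ hm
      show (q'.1 ∩ p.1) \ q'.1 ∈ I.carrier
      refine I.fin _ ?_
      have : (q'.1 ∩ p.1) \ q'.1 = ∅ := by ext z; simp; tauto
      rw [this]; exact Set.finite_empty
    · refine ⟨p, subset_rfl, fun y hy => Or.inr ?_⟩
      obtain rfl : x = y := by simpa using hy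
      intro q hq hm
      exact h ⟨q, hq, hm⟩

/-- FUB-23. No new subsets of a countable set (decide `x ∈ S` for all `x`, one after the other,
passing to decreasing conditions, and take a lower bound). -/
theorem noNew {X : Type} [Countable X] (I : Idl X) (hI : IsSigma I) : NoNewSubsets I := by
  intro S p
  obtain ⟨e⟩ := nonempty_encodable X
  choose g hg1 hg2 using mainC_step I S
  let c : ℕ → Cond I := fun n => Nat.rec p (fun n q => g q (Encodable.decode n)) n
  have hc : ∀ n, c (n + 1) = g (c n) (Encodable.decode n) := fun n => rfl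
  obtain ⟨B, hB, hle⟩ := hI (fun n => (c n).1) (fun n => (c n).2)
    (fun n => by rw [hc n]; exact hg1 _ _)
  obtain ⟨b, hb⟩ : ∃ b : Cond I, b.1 = B := ⟨⟨B, hB⟩, rfl⟩
  have hle' : ∀ n, b ≤ c n := fun n => by
    show b.1 \ (c n).1 ∈ I.carrier
    rw [hb]; exact hle n
  refine ⟨b, hle' 0, {x | S.mem x b}, fun x => ⟨fun h => h, fun hx => ?_⟩⟩
  have hx' : ¬ S.mem x b := hx
  have h1 := hg2 (c (Encodable.encode x)) (Encodable.decode (Encodable.encode x)) x
    (Encodable.encodek x)
  rw [← hc] at h1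
  rcases h1 with h1 | h1
  · exact absurd (S.mono x _ _ (hle' (Encodable.encode x + 1)) h1) hx'
  · intro r hr hm
    exact h1 r (le_trans hr (hle' (Encodable.encode x + 1))) hm

end Fub90
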