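import Pool.Agent.LibFub90.Comb
import Pool.Agent.LibFub90.MainA
import Pool.Agent.LibFub90.MainB
import Pool.Agent.LibFub90.MainC

namespace Fub90

open Set

/-- the ideal of a good family -/
def idlOf {X : Type} {P : Set (Set X)} (hP : Good X P) : Idl X where
  carrier := Pᶜ
  fin A hA h := hP.inf A h hA
  union A B hA hB h := by
    rcases hP.union A B h with h | h
    · exact hA h
    · exact hB h
  sub A B h hB hA := hB (hP.mono A B h hA)
  proper h := h hP.univ

theorem main : ∃ (X : Type) (_ : Countable X) (I : Idl X), IsSigma I ∧ NowhereMaximal I ∧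
    NoNewSubsets I ∧ ∀ p : Cond I, (fAnd (GLeGG I) (fNot (GGLeG I))) p := by
  obtain ⟨P, hP⟩ := exists_good
  have hs : IsSigma (idlOf hP) := by
    intro A hA hd
    obtain ⟨B, hB, h⟩ := hP.pplus A (fun n => not_not.mp (hA n)) hd
    exact ⟨B, fun h => h hB, fun n => (idlOf hP).fin _ (h n)⟩
  refine ⟨Om, inferInstance, idlOf hP, hs, ?_, noNew _ hs, fun p => ⟨forces_GLeGG _ hs p,
    not_GGLeG _ ?_ p⟩⟩
  · intro A hA
    obtain ⟨B, h1, h2, h3⟩ := hP.split A (not_not.mp hA)
    exact ⟨B, h1, fun h => h h2, fun h => h h3⟩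
  · have : {A | A ∉ (idlOf hP).carrier} = P := by
      ext A; exact not_not
    rw [this]; exact hP

end Fub90
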