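import Pool.Agent.LibFub90.GoodDef

/-! Task FUB-20: the combinatorial core of the forcing argument. -/

namespace Fub90

open Set

/-- a bound for the elements of a finite set -/
theorem norel_bdd {X : Type} (e : X → ℕ) (S : Set X) (hS : S.Finite) : ∃ b, ∀ x ∈ S, e x < b := by
  obtain ⟨b, hb⟩ := (hS.image e).bddAbove
  exact ⟨b + 1, fun x hx => Nat.lt_succ_of_le (hb ⟨x, hx, rfl⟩)⟩

/-- the finitely many triples below `k` -/
theorem norel_fin {X : Type} (e : X → ℕ) (he : Function.Injective e) (k : ℕ) :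
    {t : Finset X × ℕ × ℕ | (∀ x ∈ t.1, e x < k) ∧ t.2.1 ≤ k ∧ t.2.2 ≤ k}.Finite := by
  have h0 : {x : X | e x < k}.Finite :=
    (Set.finite_Iio k).preimage he.injOn
  have h1 : {s : Finset X | ∀ x ∈ s, e x < k}.Finite := by
    have h2 : ((h0.toFinset.powerset : Finset (Finset X)) : Set (Finset X)).Finite :=
      Finset.finite_toSet _
    refine h2.subset ?_
    intro s hs
    simp only [Finset.coe_powerset, Set.mem_preimage, Set.mem_powerset_iff]
    intro x hx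
    simpa using hs x hx
  have h3 : ({s : Finset X | ∀ x ∈ s, e x < k} ×ˢ (Set.Iic k ×ˢ Set.Iic k)).Finite :=
    h1.prod ((Set.finite_Iic k).prod (Set.finite_Iic k))
  refine h3.subset ?_
  rintro ⟨s, m, j⟩ ⟨ha, hb, hc⟩
  exact ⟨ha, hb, hc⟩

/-- Think of `R q B m j` as: `q` forces a statement `R(B, m, j)` about `B ∈ G`.

Proof. Enumerate the triples `(s, m, j) : Finset X × ℕ × ℕ`. Build `r = q 0 ⊇ q 1 ⊇ …` in `P`:
for the `i`-th triple, if there is `q' ∈ P`, `q' ⊆ q i`, with `R q' (s ∪ q') m j` let `q (i+1)` be such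
a `q'` (the triple is then in `Θ`), otherwise `q (i+1) = q i`. By `m1, m2`, `Θ` is closed under
smaller `s` and smaller `j` and larger `m`. Let `Y ∈ P` with `Y \ q i` finite for all `i`. Choose
`k 0 < k 1 < …` such that for all `i` and all `(s, m, j) ∈ Θ` with `s ⊆ {x | e x < k i}` and
`m, j ≤ k i`, if this is the `l`-th triple then `Y \ q (l+1) ⊆ {x | e x < k (i+1)}`. By `Good.union`
one of the sets `{x ∈ Y | ∃ i even, k i ≤ e x < k (i+1)}`, `{x ∈ Y | ∃ i odd, …}` is in `P` (the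
finite rest is not); call it `Z`. Say it is the first. Then for odd `i`, every `B ⊆ Z`, with
`s = {x ∈ B | e x < k i}`, satisfies `B ⊆ s ∪ q (l+1)` for `(s, m, j) ∈ Θ` as above. Let
`C m = {F | ∀ j, (F, m, j) ∈ Θ}` and apply `Good.at_` to `Z` and `C`, getting `q ⊆ Z`.
Case 1, `q ∈ cls (C m)`: then `R q q m j` for all `j`, contradicting `r2` for `B = q`.
Case 2, `G`: let `h` be monotone with: for all `m` and `s ⊆ G m`, if some `(s, m, j) ∉ Θ` then
`(s, m, h m) ∉ Θ`. By `r1` and `m1, m2` there is `q'' ∈ P`, `q'' ⊆ q`, with `R q'' q'' m (h m)` for all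
`m`. For every `m`, `s = q'' ∩ G m` has `(s, m, h m) ∈ Θ` (otherwise `q'' ∩ q i` would have
contradicted the choice at the stage of this triple), hence `s ∈ C m`. So `q'' ∉ P`,
contradiction. -/
theorem no_rel {X : Type} [Countable X] {P : Set (Set X)} (hP : Good X P) (e : X → ℕ)
    (he : Function.Injective e) (r : Set X) (hr : r ∈ P)
    (R : Set X → Set X → ℕ → ℕ → Prop)
    (m1 : ∀ q q' B m j, q ∈ P → q' ∈ P → q' \ q ∉ P → R q B m j → R q' B m j)
    (m2 : ∀ q B B' m j, q ∈ P → B' ⊆ B → R q B m j → R q B' m j)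
    (m3 : ∀ q B m j j', q ∈ P → j' ≤ j → R q B m j → R q B m j')
    (m4 : ∀ q B m m' j, q ∈ P → m ≤ m' → R q B m j → R q B m' j)
    (r1 : ∀ q ∈ P, q \ r ∉ P → ∀ h : ℕ → ℕ, Monotone h →
      ∃ q' ∈ P, q' \ q ∉ P ∧ ∃ B, q' \ B ∉ P ∧ ∀ m, R q' B m (h m))
    (r2 : ∀ q ∈ P, q \ r ∉ P → ∀ B, q \ B ∉ P → ∀ m, ∃ j, ¬ R q B m j) : False := by
  classical
  have hfin : ∀ A : Set X, A.Finite → A ∉ P := fun A hA hAP => hP.inf A hAP hA
  have hempty : ∀ A B : Set X, A ⊆ B → A \ B ∉ P := fun A B h => by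
    rw [Set.sdiff_eq_empty.2 h]; exact hfin _ Set.finite_empty
  obtain ⟨T, hT⟩ := exists_surjective_nat (Finset X × ℕ × ℕ)
  -- the sequence
  have hstep : ∀ (i : ℕ) (q : Set X), ∃ q1 : Set X, q ∈ P → (q1 ∈ P ∧ q1 ⊆ q ∧
      ∀ s m j, T i = (s, m, j) → (∃ q' ∈ P, q' ⊆ q ∧ R q' ((s : Set X) ∪ q') m j) →
        R q1 ((s : Set X) ∪ q1) m j) := by
    intro i q
    by_cases h : ∃ q' ∈ P, q' ⊆ q ∧ R q' (((T i).1 : Set X) ∪ q') (T i).2.1 (T i).2.2
    · obtain ⟨q', h1, h2, h3⟩ := h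
      refine ⟨q', fun _ => ⟨h1, h2, ?_⟩⟩
      intro s m j hT _
      rw [hT] at h3
      exact h3
    · refine ⟨q, fun hq => ⟨hq, subset_rfl, ?_⟩⟩
      intro s m j hT h'
      rw [hT] at h
      exact absurd h' h
  choose step hstep using hstep
  let q : ℕ → Set X := fun i => Nat.rec r (fun i q => step i q) i
  have hq0 : q 0 = r := rfl
  have hqs : ∀ i, q (i + 1) = step i (q i) := fun i => rfl
  have hqP : ∀ i, q i ∈ P := by
    intro i
    induction i with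
    | zero => exact hr
    | succ i ih => rw [hqs]; exact (hstep i _ ih).1
  have hqa : ∀ i, q (i + 1) ⊆ q i := by
    intro i
    rw [hqs]
    exact (hstep i _ (hqP i)).2.1
  -- the good triples
  let Θ : Finset X → ℕ → ℕ → Prop := fun s m j => ∃ l, R (q l) ((s : Set X) ∪ q l) m j
  have hΘs : ∀ s s' m j, s' ⊆ s → Θ s m j → Θ s' m j := by
    rintro s s' m j hs ⟨l, hl⟩
    exact ⟨l, m2 _ _ _ _ _ (hqP l)
      (Set.union_subset_union_left _ (Finset.coe_subset.2 hs)) hl⟩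
  have hΘj : ∀ s m j j', j' ≤ j → Θ s m j → Θ s m j' := by
    rintro s m j j' hj ⟨l, hl⟩
    exact ⟨l, m3 _ _ _ _ _ (hqP l) hj hl⟩
  have hΘm : ∀ s m m' j, m ≤ m' → Θ s m j → Θ s m' j := by
    rintro s m m' j hm ⟨l, hl⟩
    exact ⟨l, m4 _ _ _ _ _ (hqP l) hm hl⟩
  have hΘn : ∀ s m j, ¬ Θ s m j → ∃ l, ∀ q' ∈ P, q' ⊆ q l → ¬ R q' ((s : Set X) ∪ q') m j := by
    intro s m j hn
    obtain ⟨l, hl⟩ := hT (s, m, j)
    refine ⟨l, fun q' hq' hsub hR => hn ?_⟩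
    refine ⟨l + 1, ?_⟩
    rw [hqs]
    exact (hstep l _ (hqP l)).2.2 s m j hl ⟨q', hq', hsub, hR⟩
  -- pseudo-intersection
  obtain ⟨Y, hYP, hYq⟩ := hP.pplus q hqP hqa
  -- the function K
  have hK : ∀ k : ℕ, ∃ K, k < K ∧ ∀ s : Finset X, ∀ m j, (∀ x ∈ s, e x < k) → m ≤ k → j ≤ k →
      Θ s m j → ∃ l, R (q l) ((s : Set X) ∪ q l) m j ∧ ∀ x ∈ Y \ q l, e x < K := by
    intro k
    have hb : ∀ t : Finset X × ℕ × ℕ, ∃ b, Θ t.1 t.2.1 t.2.2 →
        ∃ l, R (q l) ((t.1 : Set X) ∪ q l) t.2.1 t.2.2 ∧ ∀ x ∈ Y \ q l, e x < b := by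
      intro t
      by_cases ht : Θ t.1 t.2.1 t.2.2
      · obtain ⟨l, hl⟩ := ht
        obtain ⟨b, hb⟩ := norel_bdd e (Y \ q l) (hYq l)
        exact ⟨b, fun _ => ⟨l, hl, hb⟩⟩
      · exact ⟨0, fun h => absurd h ht⟩
    choose b hb using hb
    obtain ⟨M, hM⟩ := ((norel_fin e he k).image b).bddAbove
    refine ⟨max (k + 1) M, lt_of_lt_of_le (Nat.lt_succ_self k) (le_max_left _ _), ?_⟩
    intro s m j hs hm hj hΘ
    obtain ⟨l, hl, hlt⟩ := hb (s, m, j) hΘ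
    refine ⟨l, hl, fun x hx => lt_of_lt_of_le (hlt x hx) (le_trans ?_ (le_max_right _ _))⟩
    exact hM ⟨(s, m, j), ⟨hs, hm, hj⟩, rfl⟩
  choose K hKlt hK using hK
  let k : ℕ → ℕ := fun i => Nat.rec 0 (fun _ n => K n) i
  have hks : ∀ i, k (i + 1) = K (k i) := fun i => rfl
  have hkmono : StrictMono k := strictMono_nat_of_lt_succ (fun i => by rw [hks]; exact hKlt _)
  have hkge : ∀ i, i ≤ k i := fun i => hkmono.le_apply
  have hint : ∀ n : ℕ, ∃ i, k i ≤ n ∧ n < k (i + 1) := by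
    intro n
    have hex : ∃ i, n < k (i + 1) := ⟨n, lt_of_lt_of_le (Nat.lt_succ_self n) (hkge (n + 1))⟩
    refine ⟨Nat.find hex, ?_, Nat.find_spec hex⟩
    rcases Nat.eq_zero_or_pos (Nat.find hex) with h0 | hpos
    · rw [h0]; exact Nat.zero_le _
    · obtain ⟨i, hi⟩ := Nat.exists_eq_succ_of_ne_zero hpos.ne'
      rw [hi]
      have := Nat.find_min hex (m := i) (by omega)
      exact not_lt.1 this
  -- the two halves
  let Yp : Bool → Set X := fun p => {x | x ∈ Y ∧ ∃ i, Nat.bodd i = p ∧ k i ≤ e x ∧ e x < k (i + 1)}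
  have hYU : Y = Yp false ∪ Yp true := by
    ext x
    constructor
    · intro hx
      obtain ⟨i, h1, h2⟩ := hint (e x)
      cases hb : Nat.bodd i with
      | false => exact Or.inl ⟨hx, i, hb, h1, h2⟩
      | true => exact Or.inr ⟨hx, i, hb, h1, h2⟩
    · rintro (hx | hx)
      · exact hx.1
      · exact hx.1
  obtain ⟨p, hp⟩ : ∃ p, Yp p ∈ P := by
    rcases hP.union _ _ (hYU ▸ hYP) with h | h
    · exact ⟨_, h⟩
    · exact ⟨_, h⟩
  -- the covering property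
  have hcov : ∀ i, Nat.bodd i ≠ p → ∀ B ⊆ Yp p, ∀ s : Finset X,
      (∀ x, x ∈ s ↔ x ∈ B ∧ e x < k i) → ∀ m j, m ≤ k i → j ≤ k i → Θ s m j →
      ∃ l, R (q l) ((s : Set X) ∪ q l) m j ∧ B ⊆ (s : Set X) ∪ q l := by
    intro i hi B hB s hs m j hm hj hΘ
    obtain ⟨l, hl, hlt⟩ := hK (k i) s m j (fun x hx => ((hs x).1 hx).2) hm hj hΘ
    refine ⟨l, hl, fun x hx => ?_⟩
    rcases lt_or_ge (e x) (k i) with hxk | hxk
    · exact Or.inl ((hs x).2 ⟨hx, hxk⟩)
    · right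
      by_contra hxq
      have h1 : e x < K (k i) := hlt x ⟨(hB hx).1, hxq⟩
      obtain ⟨i', hi', h2, h3⟩ := (hB hx).2
      have hii : i' = i := by
        have a1 : i' < i + 1 := hkmono.lt_iff_lt.1 (lt_of_le_of_lt h2 (by rw [hks]; exact h1))
        have a2 : i < i' + 1 := hkmono.lt_iff_lt.1 (lt_of_le_of_lt hxk h3)
        omega
      exact hi (hii ▸ hi')
  have hodd : ∀ n, ∃ i, n ≤ i ∧ Nat.bodd i ≠ p := by
    intro n
    by_cases h : Nat.bodd n = p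
    · refine ⟨n + 1, Nat.le_succ n, ?_⟩
      rw [Nat.bodd_succ, h]
      cases p <;> simp
    · exact ⟨n, le_rfl, h⟩
  -- finite parts
  have hpart : ∀ B : Set X, ∀ n, ∃ s : Finset X, ∀ x, x ∈ s ↔ x ∈ B ∧ e x < n := by
    intro B n
    have h0 : {x : X | x ∈ B ∧ e x < n}.Finite :=
      ((Set.finite_Iio n).preimage he.injOn).subset (fun x hx => hx.2)
    exact ⟨h0.toFinset, fun x => by simp⟩
  -- apply at_
  let C : ℕ → Set (Finset X) := fun m => {F | ∀ j, Θ F m j}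
  have hCher : ∀ m, Her (C m) := fun m F G hFG hG j => hΘs G F m j hFG (hG j)
  have hCmono : ∀ m, C m ⊆ C (m + 1) := fun m F hF j => hΘm F m (m + 1) j (Nat.le_succ m) (hF j)
  obtain ⟨q₀, hq₀Y, hq₀P, hq₀⟩ := hP.at_ (Yp p) hp C hCher hCmono
  have hq₀fin : ∀ l, (q₀ \ q l).Finite := fun l =>
    (hYq l).subset (fun x hx => ⟨(hq₀Y hx.1).1, hx.2⟩)
  have hq₀r : q₀ \ r ∉ P := hfin _ (hq₀fin 0)
  rcases hq₀ with ⟨m, hm⟩ | ⟨G, hG⟩
  · -- case 1
    have hall : ∀ j, R q₀ q₀ m j := by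
      intro j
      obtain ⟨i, hi1, hi2⟩ := hodd (max m j)
      obtain ⟨s, hs⟩ := hpart q₀ (k i)
      have hsC : s ∈ C m := hm s (fun x hx => ((hs x).1 hx).1)
      obtain ⟨l, hl, hcv⟩ := hcov i hi2 q₀ hq₀Y s hs m j
        (le_trans (le_trans (le_max_left _ _) hi1) (hkge i))
        (le_trans (le_trans (le_max_right _ _) hi1) (hkge i)) (hsC j)
      exact m2 _ _ _ _ _ hq₀P hcv (m1 _ _ _ _ _ (hqP l) hq₀P (hfin _ (hq₀fin l)) hl)
    obtain ⟨j, hj⟩ := r2 q₀ hq₀P hq₀r q₀ (hempty _ _ subset_rfl) m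
    exact hj (hall j)
  · -- case 2
    have hg : ∀ m, ∃ b, ∀ s ⊆ G m, (∃ j, ¬ Θ s m j) → ¬ Θ s m b := by
      intro m
      have hb : ∀ s : Finset X, ∃ b, (∃ j, ¬ Θ s m j) → ¬ Θ s m b := by
        intro s
        by_cases h : ∃ j, ¬ Θ s m j
        · obtain ⟨j, hj⟩ := h
          exact ⟨j, fun _ => hj⟩
        · exact ⟨0, fun h' => absurd h' h⟩
      choose b hb using hb
      refine ⟨(G m).powerset.sup b, fun s hs hex hΘ => hb s hex ?_⟩
      exact hΘj s m _ _ (Finset.le_sup (f := b) (Finset.mem_powerset.2 hs)) hΘ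
    choose g hg using hg
    let h : ℕ → ℕ := fun m => (Finset.range (m + 1)).sup g
    have hmono : Monotone h := fun a b hab =>
      Finset.sup_mono (Finset.range_mono (Nat.succ_le_succ hab))
    have hgh : ∀ m, g m ≤ h m := fun m => Finset.le_sup (f := g) (Finset.self_mem_range_succ m)
    obtain ⟨q', hq'P, hq'q, B, hq'B, hR⟩ := r1 q₀ hq₀P hq₀r h hmono
    have hq''P : q' ∩ q₀ ∩ B ∈ P := by
      have h1 : q' = (q' ∩ q₀ ∩ B) ∪ ((q' \ q₀) ∪ (q' \ B)) := by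
        ext x
        simp only [Set.mem_union, Set.mem_inter_iff, Set.mem_sdiff]
        tauto
      have h2 : (q' ∩ q₀ ∩ B) ∪ ((q' \ q₀) ∪ (q' \ B)) ∈ P := h1 ▸ hq'P
      rcases hP.union _ _ h2 with h3 | h3
      · exact h3
      · rcases hP.union _ _ h3 with h4 | h4
        · exact absurd h4 hq'q
        · exact absurd h4 hq'B
    set q2 : Set X := q' ∩ q₀ ∩ B with hq2
    have hq2R : ∀ m, R q2 q2 m (h m) := fun m =>
      m2 _ _ _ _ _ hq''P (fun x hx => hx.2)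
        (m1 _ _ _ _ _ hq'P hq''P (hempty _ _ (fun x hx => hx.1.1)) (hR m))
    refine hG q2 (fun x hx => hx.1.2) ?_ hq''P
    intro m F hFq hFG j
    -- the finite set s = q2 ∩ G m
    let s : Finset X := (G m).filter (fun x => x ∈ q2)
    have hFs : F ⊆ s := fun x hx => Finset.mem_filter.2 ⟨hFG hx, hFq hx⟩
    have hsq : (s : Set X) ⊆ q2 := fun x hx => (Finset.mem_filter.1 hx).2
    refine hΘs s F m j hFs ?_
    by_contra hn
    have h1 : ¬ Θ s m (g m) := hg m s (Finset.filter_subset _ _) ⟨j, hn⟩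
    have h2 : ¬ Θ s m (h m) := fun h' => h1 (hΘj s m _ _ (hgh m) h')
    obtain ⟨l, hl⟩ := hΘn s m (h m) h2
    have hq3P : q2 ∩ q l ∈ P := by
      have h3 : q2 = (q2 ∩ q l) ∪ (q2 \ q l) := (Set.inter_union_sdiff q2 (q l)).symm
      have h4 : (q2 ∩ q l) ∪ (q2 \ q l) ∈ P := h3 ▸ hq''P
      rcases hP.union _ _ h4 with h5 | h5
      · exact h5
      · exact absurd h5 (hfin _ ((hq₀fin l).subset (fun x hx => ⟨hx.1.1.2, hx.2⟩)))
    refine hl _ hq3P Set.inter_subset_right ?_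
    refine m2 _ _ _ _ _ hq3P (Set.union_subset hsq Set.inter_subset_left) ?_
    exact m1 _ _ _ _ _ hq''P hq3P (hempty _ _ Set.inter_subset_left) (hq2R m)

end Fub90
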