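import Pool.Agent.LibFub90.Ext
import Pool.Agent.LibFub90.Dec3
import Pool.Agent.LibFub90.Base1
import Pool.Agent.LibFub90.Base2
import Pool.Agent.LibFub90.Gap3

/-!
# The tree

A branch is a function `b : W → Option (Set Om × Tk)`; `b ξ = some (W₀, y)` means that the branch
has a node at stage `ξ`, obtained from the set `W₀` for the task `y`. The data of this node depend
only on `b` up to `ξ`.
-/

namespace Fub90

open Set

/-- everything that is chosen once and for all -/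
structure Sys (W : Type) [LinearOrder W] [WellFoundedLT W] [OmOne W] where
  L : W → Set CC
  x : W → CC
  code : Set Om × Tk → (ℕ → Bool)
  ext : Set (Set Om) → Set Om → W → Tk → Dat W
  ls : LS L
  hx : ∀ ξ, x ξ ∈ L ξ
  inj : Function.Injective code
  ok : ∀ J W₀ ξ y, IsFS J → Pos W₀ J (L ξ) → ExtOK L x (code (W₀, y)) J W₀ ξ y (ext J W₀ ξ y)

theorem exists_sys (W : Type) [LinearOrder W] [WellFoundedLT W] [OmOne W] : Nonempty (Sys W) := by
  classical
  obtain ⟨L, hL⟩ := exists_LS W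
  obtain ⟨code, hcode⟩ := exists_code
  have hx : ∀ ξ, (hL.ne ξ).some ∈ L ξ := fun ξ => (hL.ne ξ).some_mem
  have hex : ∀ (J : Set (Set Om)) (W₀ : Set Om) (ξ : W) (y : Tk), ∃ d : Dat W,
      IsFS J → Pos W₀ J (L ξ) →
      ExtOK L (fun ξ => (hL.ne ξ).some) (code (W₀, y)) J W₀ ξ y d := by
    intro J W₀ ξ y
    by_cases h : IsFS J ∧ Pos W₀ J (L ξ)
    · obtain ⟨d, hd⟩ := exists_ext hL (fun ξ => (hL.ne ξ).some) hx (code (W₀, y)) J W₀ ξ y h.1 h.2
      exact ⟨d, fun _ _ => hd⟩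
    · exact ⟨⟨∅, ∅, ξ⟩, fun h1 h2 => absurd ⟨h1, h2⟩ h⟩
  choose ext hext using hex
  exact ⟨⟨L, fun ξ => (hL.ne ξ).some, code, ext, hL, hx, hcode,
    fun J W₀ ξ y h1 h2 => hext J W₀ ξ y h1 h2⟩⟩

abbrev Br (W : Type) := W → Option (Set Om × Tk)

variable {W : Type} [LinearOrder W] [WellFoundedLT W] [OmOne W] (S : Sys W)

/-- the data of the node of `b` at stage `ξ` (junk if `b ξ = none`) -/
noncomputable def nd (b : Br W) : W → Dat W :=
  WellFoundedLT.fix (fun ξ rec =>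
    match b ξ with
    | none => ⟨∅, ∅, ξ⟩
    | some (W₀, y) =>
      S.ext {A | A.Finite ∨ ∃ β, ∃ h : β < ξ, (b β).isSome = true ∧ A ∈ (rec β h).J} W₀ ξ y)

/-- the ideal of the part of `b` before `ξ` -/
def Jb (b : Br W) (ξ : W) : Set (Set Om) :=
  {A | A.Finite ∨ ∃ β < ξ, (b β).isSome = true ∧ A ∈ (nd S b β).J}

theorem nd_some {b : Br W} {ξ : W} {W₀ : Set Om} {y : Tk} (h : b ξ = some (W₀, y)) :
    nd S b ξ = S.ext (Jb S b ξ) W₀ ξ y := by
  rw [nd, WellFoundedLT.fix_eq, ← nd]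
  simp only [h]
  congr 1
  ext A
  simp only [Jb, mem_ofPred_eq, exists_prop]

/-- `Val b ξ W₀`: the part of `b` before `ξ` may be continued at stage `ξ` by a node below `W₀` -/
noncomputable def Val (b : Br W) : W → Set Om → Prop :=
  WellFoundedLT.fix (motive := fun _ => Set Om → Prop) (fun ξ rec W₀ =>
    (∀ β < ξ, (b β).isSome = true → (nd S b β).η ≤ ξ ∧ (W₀ \ (nd S b β).X).Finite) ∧
    Pos W₀ (Jb S b ξ) (S.L ξ) ∧
    ∀ γ, ∀ h : γ < ξ, (∀ β, γ ≤ β → β < ξ → b β = none) → ∀ W' y', rec γ h W' →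
      (W₀ ∩ (S.ext (Jb S b γ) W' γ y').X).Finite)

theorem val_iff (b : Br W) (ξ : W) (W₀ : Set Om) :
    Val S b ξ W₀ ↔
      (∀ β < ξ, (b β).isSome = true → (nd S b β).η ≤ ξ ∧ (W₀ \ (nd S b β).X).Finite) ∧
      Pos W₀ (Jb S b ξ) (S.L ξ) ∧
      ∀ γ, γ < ξ → (∀ β, γ ≤ β → β < ξ → b β = none) → ∀ W' y', Val S b γ W' →
        (W₀ ∩ (S.ext (Jb S b γ) W' γ y').X).Finite := by
  rw [Val, WellFoundedLT.fix_eq]

/-- valid branches -/
def Valid (b : Br W) : Prop := ∀ ξ W₀ y, b ξ = some (W₀, y) → Val S b ξ W₀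

end Fub90
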